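import Pool.Agent.R949.WH.Toep
set_option autoImplicit false

/-! # The statements: Lebesgue and Hardy spaces of the circle as types, Toeplitz operators -/

open MeasureTheory AddCircle Filter Topology Complex
open scoped ComplexConjugate ENNReal

namespace Pool.Agent.R949.WH

/-- `L^p` of the circle with normalised Lebesgue measure -/
def Leb (p : ℝ≥0∞) : Type := Lp ℂ p mu

noncomputable instance instLebGroup (p : ℝ≥0∞) [Fact (1 ≤ p)] : NormedAddCommGroup (Leb p) :=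
  (Lp.instNormedAddCommGroup : NormedAddCommGroup (Lp ℂ p mu))

noncomputable instance instLebSpace (p : ℝ≥0∞) [Fact (1 ≤ p)] : NormedSpace ℂ (Leb p) :=
  (Lp.instNormedSpace : NormedSpace ℂ (Lp ℂ p mu))

/-- an element of `L^p` as a function on the circle (a representative of its class) -/
noncomputable def Leb.fn {p : ℝ≥0∞} (f : Leb p) : Circ → ℂ := AEEqFun.cast f.1

lemma leb_add {p : ℝ≥0∞} [Fact (1 ≤ p)] {f g : Leb p}
    (hf : ∀ n : ℤ, n < 0 → fourierCoeff f.fn n = 0)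
    (hg : ∀ n : ℤ, n < 0 → fourierCoeff g.fn n = 0) :
    ∀ n : ℤ, n < 0 → fourierCoeff (f + g).fn n = 0 := (hardy p).add_mem hf hg

lemma leb_zero {p : ℝ≥0∞} [Fact (1 ≤ p)] :
    ∀ n : ℤ, n < 0 → fourierCoeff (0 : Leb p).fn n = 0 := (hardy p).zero_mem

lemma leb_smul {p : ℝ≥0∞} [Fact (1 ≤ p)] (c : ℂ) {f : Leb p}
    (hf : ∀ n : ℤ, n < 0 → fourierCoeff f.fn n = 0) :
    ∀ n : ℤ, n < 0 → fourierCoeff (c • f).fn n = 0 := (hardy p).smul_mem c hf

/-- the subspace `H^p` of `L^p`: the Fourier coefficients of negative index vanish -/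
noncomputable def hardyS (p : ℝ≥0∞) [Fact (1 ≤ p)] : Submodule ℂ (Leb p) where
  carrier := {f | ∀ n : ℤ, n < 0 → fourierCoeff f.fn n = 0}
  add_mem' := leb_add
  zero_mem' := leb_zero
  smul_mem' := fun c _ hf => leb_smul c hf

/-- the Hardy space `H^p` with the norm of `L^p` -/
def Hardy (p : ℝ≥0∞) [Fact (1 ≤ p)] : Type := hardyS p

noncomputable instance instHardyGroup (p : ℝ≥0∞) [Fact (1 ≤ p)] : NormedAddCommGroup (Hardy p) :=
  (Submodule.normedAddCommGroup (hardyS p) : NormedAddCommGroup (hardyS p))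

noncomputable instance instHardySpace (p : ℝ≥0∞) [Fact (1 ≤ p)] : NormedSpace ℂ (Hardy p) :=
  (Submodule.normedSpace (hardyS p) : NormedSpace ℂ (hardyS p))

/-- an element of `H^p` as a function on the circle (a representative of its class) -/
noncomputable def Hardy.fn {p : ℝ≥0∞} [Fact (1 ≤ p)] (f : Hardy p) : Circ → ℂ :=
  Leb.fn f.1

variable {p : ℝ≥0∞} [Fact (1 ≤ p)]

/-- `P` is the Riesz projection of `L^p` onto `H^p`: it keeps the Fourier coefficients of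
nonnegative index and kills the others. -/
def RieszProjection (P : Leb p →L[ℂ] Hardy p) : Prop :=
  ∀ (f : Leb p) (n : ℤ), fourierCoeff (P f).fn n = if 0 ≤ n then fourierCoeff f.fn n else 0

/-- `T` is the coanalytic Toeplitz operator `f ↦ P (conj G * f)` on `H^p`, where `P` is the Riesz
projection. -/
def CoanalyticToeplitz (G : Circ → ℂ) (T : Hardy p →L[ℂ] Hardy p) : Prop :=
  ∃ P : Leb p →L[ℂ] Hardy p, RieszProjection P ∧ ∀ f : Hardy p, ∃ u : Leb p,
    (u.fn =ᵐ[mu] fun t => conj (G t) * f.fn t) ∧ T f = P u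

theorem show_main {G : Circ → ℂ}
    (h : ∃ T : hardy p →L[ℂ] hardy p, IsCoToeplitz G T ∧ WeaklyHypercyclic T) :
    ∃ T : Hardy p →L[ℂ] Hardy p, CoanalyticToeplitz G T ∧ WeaklyHypercyclic T := h

theorem fixed_show (hp : 2 ≤ p) (hpt : p ≠ ∞)
    [TopologicalSpace.SeparableSpace (hardy p)]
    {P : Lp ℂ p mu →L[ℂ] Lp ℂ p mu} (hP : IsRiesz P)
    {w : Circ → ℝ} {F : Circ → ℂ} (hs : IsSym w F) {C : ℝ} (hw0 : ∀ t, 0 ≤ w t)
    (hC : ∀ t, w t ≤ C)
    {Y : Submodule ℂ (Lp ℂ p mu)} {c : ℝ} (hsys : Sys Y (opA p hs hC) (opB p hs hw0) P c) :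
    ∃ (g : ℂ → ℂ) (G : Circ → ℂ), IsHInf g G ∧ (∀ z ∈ Metric.ball (0 : ℂ) 1, 1 ≤ ‖g z‖) ∧
      ∃ T : Hardy p →L[ℂ] Hardy p, CoanalyticToeplitz G T ∧ WeaklyHypercyclic T := by
  obtain ⟨g, G, h1, h2, h3⟩ := fixed_main hp hpt hP hs hw0 hC hsys
  exact ⟨g, G, h1, h2, show_main h3⟩

end Pool.Agent.R949.WH
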