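import Pool.Agent.R949.WH.Cont
import Pool.Agent.R949.WH.Show
set_option autoImplicit false

/-! # Analytic Toeplitz operators, adjoints and admissible symbols -/

open MeasureTheory AddCircle Filter Topology Complex
open scoped ComplexConjugate ENNReal InnerProductSpace

namespace Pool.Agent.R949.WH

/-! ### the adjoint -/

lemma inner_riesz {P : Lp ℂ 2 mu →L[ℂ] Lp ℂ 2 mu} (hP : IsRiesz P) {h : Lp ℂ 2 mu}
    (hh : ∀ n : ℤ, n < 0 → fourierCoeff h n = 0) (u : Lp ℂ 2 mu) : ⟪h, P u⟫_ℂ = ⟪h, u⟫_ℂ := by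
  set L : Lp ℂ 2 mu →L[ℂ] ℂ := (innerSL ℂ h).comp (P - ContinuousLinearMap.id ℂ (Lp ℂ 2 mu))
    with hL
  have hK : LinearMap.ker (L : Lp ℂ 2 mu →ₗ[ℂ] ℂ) = ⊤ := by
    apply closed_eq_top (by simp) L.isClosed_ker
    intro k
    rw [LinearMap.mem_ker]
    show ⟪h, P (fourierLp 2 k) - fourierLp 2 k⟫_ℂ = 0
    rcases le_or_gt 0 k with hk | hk
    · have h1 : P (fourierLp 2 k) = fourierLp 2 k := by
        apply hP.eq_self le_rfl
        intro n hn
        rw [coeff_fourierLp, if_neg (by omega)]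
      rw [h1, sub_self, inner_zero_right]
    · have h1 : P (fourierLp 2 k) = 0 := by
        apply coeff_ext le_rfl
        intro n
        rw [hP]
        split_ifs with hn
        · rw [coeff_fourierLp, if_neg (by omega), ← coeffL_apply, map_zero]
        · rw [← coeffL_apply, map_zero]
      rw [h1, zero_sub, inner_neg_right, neg_eq_zero, ← inner_conj_symm]
      have h2 : ⟪fourierLp 2 k, h⟫_ℂ = fourierCoeff h k := by
        rw [L2.inner_def]
        unfold fourierCoeff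
        refine integral_congr_ae ?_
        filter_upwards [coeFn_fourierLp (T := (1 : ℝ)) 2 k] with t ht
        rw [ht, RCLike.inner_apply', fourier_neg, smul_eq_mul]
      rw [h2, hh k hk, map_zero]
  have hu : u ∈ LinearMap.ker (L : Lp ℂ 2 mu →ₗ[ℂ] ℂ) := by rw [hK]; trivial
  rw [LinearMap.mem_ker] at hu
  have hu' : ⟪h, P u - u⟫_ℂ = 0 := hu
  rw [inner_sub_right, sub_eq_zero] at hu'
  exact hu'

/-- the product of a function of `H²` and of a bounded analytic function is in `H²` -/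
lemma mul_hardy {P : Lp ℂ 2 mu →L[ℂ] Lp ℂ 2 mu} (hP : IsRiesz P) {G : Circ → ℂ}
    (hG : AEStronglyMeasurable G mu) {C : ℝ} (hC : ∀ t, ‖G t‖ ≤ C)
    (hc : ∀ n : ℤ, n < 0 → fourierCoeff G n = 0) (f : Lp ℂ 2 mu) (n : ℤ) (hn : n < 0) :
    fourierCoeff (mulOp 2 G hG C hC (P f)) n = 0 := by
  set L : Lp ℂ 2 mu →L[ℂ] ℂ := (coeffL 2 n).comp ((mulOp 2 G hG C hC).comp P) with hL
  have hK : LinearMap.ker (L : Lp ℂ 2 mu →ₗ[ℂ] ℂ) = ⊤ := by
    apply closed_eq_top (by simp) L.isClosed_ker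
    intro k
    rw [LinearMap.mem_ker]
    show coeffL 2 n (mulOp 2 G hG C hC (P (fourierLp 2 k))) = 0
    rcases le_or_gt 0 k with hk | hk
    · have h1 : P (fourierLp 2 k) = fourierLp 2 k := by
        apply hP.eq_self le_rfl
        intro n hn
        rw [coeff_fourierLp, if_neg (by omega)]
      rw [h1, coeffL_apply]
      have h2 : fourierCoeff (mulOp 2 G hG C hC (fourierLp 2 k)) n = fourierCoeff G (n - k) := by
        unfold fourierCoeff
        refine integral_congr_ae ?_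
        filter_upwards [coeFn_mulOp G hG C hC (fourierLp 2 k),
          coeFn_fourierLp (T := (1 : ℝ)) 2 k] with t ht ht2
        rw [ht, ht2, show -(n - k) = -n + k by ring, fourier_add, smul_eq_mul, smul_eq_mul]
        ring
      rw [h2, hc _ (by omega)]
    · have h1 : P (fourierLp 2 k) = 0 := by
        apply coeff_ext le_rfl
        intro n
        rw [hP]
        split_ifs with hn
        · rw [coeff_fourierLp, if_neg (by omega), ← coeffL_apply, map_zero]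
        · rw [← coeffL_apply, map_zero]
      rw [h1, map_zero, map_zero]
  have hu : f ∈ LinearMap.ker (L : Lp ℂ 2 mu →ₗ[ℂ] ℂ) := by rw [hK]; trivial
  rw [LinearMap.mem_ker] at hu
  rw [← coeffL_apply]
  exact hu

section sym

variable {w : Circ → ℝ} {F : Circ → ℂ}

/-- multiplication by the symbol, on `L^p` -/
noncomputable def mul1 (p : ℝ≥0∞) [Fact (1 ≤ p)] (hs : IsSym w F) {C : ℝ} (hC : ∀ t, w t ≤ C) :
    Lp ℂ p mu →L[ℂ] Lp ℂ p mu :=
  mulOp p (Ex w F 1) (aesm_Ex hs.meas_w hs.meas_F _) (Real.exp (1 * C))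
    (norm_Ex_le hC zero_le_one)

lemma coeFn_mul1 {p : ℝ≥0∞} [Fact (1 ≤ p)] (hs : IsSym w F) {C : ℝ} (hC : ∀ t, w t ≤ C)
    (f : Lp ℂ p mu) : mul1 p hs hC f =ᵐ[mu] fun t => Ex w F 1 t * f t :=
  coeFn_mulOp (p := p) (Ex w F 1) (aesm_Ex hs.meas_w hs.meas_F _) (Real.exp (1 * C))
    (norm_Ex_le hC zero_le_one) f

lemma mul1_mem {P : Lp ℂ 2 mu →L[ℂ] Lp ℂ 2 mu} (hP : IsRiesz P) (hs : IsSym w F) {C : ℝ}
    (hC : ∀ t, w t ≤ C) (x : hardy 2) : mul1 2 hs hC (x : Lp ℂ 2 mu) ∈ hardy 2 := by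
  intro n hn
  have h1 := mul_hardy hP (aesm_Ex hs.meas_w hs.meas_F 1) (norm_Ex_le hC zero_le_one)
    (hs.coeff 1) (x : Lp ℂ 2 mu) n hn
  rw [P_hardy hP le_rfl x] at h1
  exact h1

/-- the analytic Toeplitz operator -/
noncomputable def mulH {P : Lp ℂ 2 mu →L[ℂ] Lp ℂ 2 mu} (hP : IsRiesz P) (hs : IsSym w F) {C : ℝ}
    (hC : ∀ t, w t ≤ C) : hardy 2 →L[ℂ] hardy 2 :=
  ((mul1 2 hs hC).comp (hardy 2).subtypeL).codRestrict (hardy 2) (mul1_mem hP hs hC)

lemma coe_mulH {P : Lp ℂ 2 mu →L[ℂ] Lp ℂ 2 mu} (hP : IsRiesz P) (hs : IsSym w F) {C : ℝ}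
    (hC : ∀ t, w t ≤ C) (x : hardy 2) : (mulH hP hs hC x : Lp ℂ 2 mu) = mul1 2 hs hC x := rfl

lemma coeFn_mulH {P : Lp ℂ 2 mu →L[ℂ] Lp ℂ 2 mu} (hP : IsRiesz P) (hs : IsSym w F) {C : ℝ}
    (hC : ∀ t, w t ≤ C) (x : hardy 2) :
    (mulH hP hs hC x : Lp ℂ 2 mu) =ᵐ[mu] fun t => Ex w F 1 t * (x : Lp ℂ 2 mu) t := by
  rw [coe_mulH]
  exact coeFn_mul1 hs hC (x : Lp ℂ 2 mu)

lemma adj_aux {P : Lp ℂ 2 mu →L[ℂ] Lp ℂ 2 mu} (hP : IsRiesz P) (hs : IsSym w F) {C : ℝ}
    (hC : ∀ t, w t ≤ C) (f h : hardy 2) :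
    ∫ t, (toep hP hs hC f : Lp ℂ 2 mu) t * conj ((h : Lp ℂ 2 mu) t) ∂mu =
      ∫ t, (f : Lp ℂ 2 mu) t * conj ((mulH hP hs hC h : Lp ℂ 2 mu) t) ∂mu := by
  have h1 : ⟪(h : Lp ℂ 2 mu), P (op1 2 hs hC (f : Lp ℂ 2 mu))⟫_ℂ =
      ⟪(h : Lp ℂ 2 mu), op1 2 hs hC (f : Lp ℂ 2 mu)⟫_ℂ := inner_riesz hP h.2 _
  rw [L2.inner_def, L2.inner_def] at h1
  have h2 : (toep hP hs hC f : Lp ℂ 2 mu) = P (op1 2 hs hC (f : Lp ℂ 2 mu)) := rfl
  rw [h2]
  have h3 : ∫ t, (P (op1 2 hs hC (f : Lp ℂ 2 mu))) t * conj ((h : Lp ℂ 2 mu) t) ∂mu =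
      ∫ t, ⟪(h : Lp ℂ 2 mu) t, (P (op1 2 hs hC (f : Lp ℂ 2 mu))) t⟫_ℂ ∂mu := by
    refine integral_congr_ae (Eventually.of_forall fun t => ?_)
    simp only [RCLike.inner_apply]
  rw [h3, h1]
  refine integral_congr_ae ?_
  filter_upwards [coeFn_op1 hs hC (f : Lp ℂ 2 mu), coeFn_mulH hP hs hC h] with t a1 a2
  rw [a1, a2, RCLike.inner_apply', map_mul]
  ring

end sym

/-! ### non-integrability -/

lemma disjoint_Aset : Pairwise (Function.onFun Disjoint Aset) := by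
  intro i j hij
  rw [Function.onFun, Set.disjoint_left]
  intro t h1 h2
  have h1' : jj t = i := h1
  have h2' : jj t = j := h2
  exact hij (h1'.symm.trans h2')

lemma not_int {l : ℕ → ℝ} (hl : ∀ k, l k ≠ 0) :
    ¬ Integrable (fun t => Real.log (Real.exp (ww l t) - 1)) mu := by
  intro hint
  have h0 := (hasSum_integral_iUnion measurable_Aset disjoint_Aset
    (hint.abs.integrableOn)).summable.tendsto_atTop_zero
  have hk : ∀ k : ℕ, 2 ≤ k → 1 - Real.log 2 ≤
      ∫ t in Aset k, |Real.log (Real.exp (ww l t) - 1)| ∂mu := by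
    intro k hk
    set m : ℝ := mu.real (Aset k) with hm
    have hm0 : 0 < m := ENNReal.toReal_pos (Aset_pos hk) (measure_ne_top _ _)
    have hm1 : m ≤ 1 := measureReal_le_one
    have hlog : Real.log 2 < 1 := by
      have := Real.log_two_lt_d9; linarith
    have h1 : ∀ t ∈ Aset k, (1 - Real.log 2) / m ≤ |Real.log (Real.exp (ww l t) - 1)| := by
      intro t ht
      have hj : jj t = k := ht
      have hw : 0 < ww l t := by
        rw [ww]; exact lt_min (abs_pos.2 (hl _)) (cc_pos _)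
      have hw2 : ww l t ≤ Real.exp (-(1 / m)) := by
        rw [ww, hj]
        exact (min_le_right _ _).trans (min_le_right _ _)
      have h2 : Real.exp (ww l t) - 1 ≤ 2 * Real.exp (-(1 / m)) := by
        have h3 := Real.abs_exp_sub_one_le (abs_ww l t)
        rw [abs_of_pos hw] at h3
        have := (le_abs_self _).trans h3
        linarith
      have h3 : 0 < Real.exp (ww l t) - 1 := by
        have := Real.one_lt_exp_iff.2 hw
        linarith
      have h4 : Real.log (Real.exp (ww l t) - 1) ≤ Real.log 2 - 1 / m := by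
        refine (Real.log_le_log h3 h2).trans ?_
        rw [Real.log_mul (by norm_num) (Real.exp_pos _).ne', Real.log_exp]
        linarith
      have h5 : (1 - Real.log 2) / m ≤ 1 / m - Real.log 2 := by
        rw [div_le_iff₀ hm0, sub_mul, one_div, inv_mul_cancel₀ hm0.ne']
        have h6 : 0 < Real.log 2 := Real.log_pos (by norm_num)
        nlinarith
      refine h5.trans ?_
      refine le_trans ?_ (neg_le_abs _)
      linarith
    have h2 : ∫ _ in Aset k, (1 - Real.log 2) / m ∂mu = 1 - Real.log 2 := by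
      rw [setIntegral_const, smul_eq_mul, ← hm, mul_div_cancel₀ _ hm0.ne']
    rw [← h2]
    apply setIntegral_mono_on (integrableOn_const (measure_ne_top _ _)) hint.abs.integrableOn
      (measurable_Aset k) h1
  have hlog : Real.log 2 < 1 := by
    have := Real.log_two_lt_d9; linarith
  have h1 := h0.eventually_lt_const (show (0 : ℝ) < 1 - Real.log 2 by linarith)
  obtain ⟨k, hk1, hk2⟩ := (h1.and (eventually_ge_atTop 2)).exists
  exact absurd (hk k hk2) (not_le.2 hk1)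

end Pool.Agent.R949.WH
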