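import Pool.Agent.R949.WH.Adj
set_option autoImplicit false

/-! # Admissible symbols and the main theorem -/

open MeasureTheory AddCircle Filter Topology Complex
open scoped ComplexConjugate ENNReal

namespace Pool.Agent.R949.WH

/-- `g` is bounded and holomorphic on the open unit disc `𝔻` with boundary function `G`,
`g(𝔻)` does not meet `𝔻`, `|G| > 1` almost everywhere and `log (|G| - 1)` is not integrable. -/
structure Admissible (g : ℂ → ℂ) (G : Circ → ℂ) : Prop where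
  hInf : IsHInf g G
  image : ∀ z ∈ Metric.ball (0 : ℂ) 1, g z ∉ Metric.ball (0 : ℂ) 1
  modulus : ∀ᵐ t ∂mu, 1 < ‖G t‖
  log : ¬ Integrable (fun t => Real.log (‖G t‖ - 1)) mu

/-- `M` is the analytic Toeplitz operator `f ↦ G f` on `H²`. -/
def AnalyticToeplitz (G : Circ → ℂ) (M : Hardy 2 →L[ℂ] Hardy 2) : Prop :=
  ∀ f : Hardy 2, (M f).fn =ᵐ[mu] fun t => G t * f.fn t

/-- `T` is the adjoint of `M` for the inner product `∫ f conj(h)` of `H²`. -/
def IsAdjoint (M T : Hardy 2 →L[ℂ] Hardy 2) : Prop :=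
  ∀ f h : Hardy 2, ∫ t, (T f).fn t * conj (h.fn t) ∂mu = ∫ t, f.fn t * conj ((M h).fn t) ∂mu

/-- for some `x`, every nonzero continuous linear functional maps the orbit of `x` to a dense
subset of the plane -/
def OneWeaklyHypercyclic {X : Type*} [NormedAddCommGroup X] [NormedSpace ℂ X] (T : X →L[ℂ] X) :
    Prop :=
  ∃ x : X, ∀ φ : X →L[ℂ] ℂ, φ ≠ 0 → Dense (Set.range fun n : ℕ => φ ((T ^ n) x))

/-- the properties of `M` and `T` in the internal formulation -/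
def GoodPair (G : Circ → ℂ) (M T : hardy 2 →L[ℂ] hardy 2) : Prop :=
  (∀ f : hardy 2, (M f : Lp ℂ 2 mu) =ᵐ[mu] fun t => G t * (f : Lp ℂ 2 mu) t) ∧
  (∀ f h : hardy 2, ∫ t, (T f : Lp ℂ 2 mu) t * conj ((h : Lp ℂ 2 mu) t) ∂mu =
    ∫ t, (f : Lp ℂ 2 mu) t * conj ((M h : Lp ℂ 2 mu) t) ∂mu) ∧
  WeaklyHypercyclic T ∧ OneWeaklyHypercyclic T

theorem show_pair {G : Circ → ℂ} (h : ∃ M T : hardy 2 →L[ℂ] hardy 2, GoodPair G M T) :
    ∃ M T : Hardy 2 →L[ℂ] Hardy 2, AnalyticToeplitz G M ∧ IsAdjoint M T ∧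
      WeaklyHypercyclic T ∧ OneWeaklyHypercyclic T := h

lemma hits_toep {P : Lp ℂ 2 mu →L[ℂ] Lp ℂ 2 mu} (hP : IsRiesz P) {l : ℕ → ℝ} {x : hardy 2}
    (h : Hits (fun n => TT hP n (l, x))) :
    WeaklyHypercyclic (toep hP (symL hP l) (ww_le_one l)) ∧
      OneWeaklyHypercyclic (toep hP (symL hP l) (ww_le_one l)) := by
  have h1 : ∀ n : ℕ, ((toep hP (symL hP l) (ww_le_one l)) ^ n) x = TT hP n (l, x) := fun n =>
    toep_pow hP le_rfl (by simp) (symL hP l) (ww_le_one l) n x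
  refine ⟨⟨x, ?_⟩, ⟨x, fun φ hφ => ?_⟩⟩
  · have h2 := Hits.weak_dense h
    have h3 : (fun n : ℕ => toWeakSpace ℂ (hardy 2)
        (((toep hP (symL hP l) (ww_le_one l)) ^ n) x)) =
        fun n : ℕ => toWeakSpace ℂ (hardy 2) (TT hP n (l, x)) := by
      funext n
      rw [h1 n]
    rw [h3]
    exact h2
  · have h2 := Hits.one_weak h φ hφ
    have h3 : (fun n : ℕ => φ (((toep hP (symL hP l) (ww_le_one l)) ^ n) x)) =
        fun n : ℕ => φ (TT hP n (l, x)) := by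
      funext n
      rw [h1 n]
    rw [h3]
    exact h2

lemma admissible_par {P : Lp ℂ 2 mu →L[ℂ] Lp ℂ 2 mu} (hP : IsRiesz P) {l : ℕ → ℝ}
    (hl : ∀ k, l k ≠ 0) :
    Admissible (fun z => ev z (Ex (ww l) (opM P (wL l)) 1)) (Ex (ww l) (opM P (wL l)) 1) where
  hInf := isHInf_Ex (symL hP l) (ww_nonneg l) (ww_le_one l)
  image := by
    intro z hz
    rw [mem_ball_zero_iff] at hz
    rw [mem_ball_zero_iff, not_lt]
    exact one_le_norm_ev (symL hP l) (ww_nonneg l) (ww_le_one l) hz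
  modulus := by
    refine Eventually.of_forall fun t => ?_
    rw [norm_Ex, one_mul, Real.one_lt_exp_iff, ww]
    exact lt_min (abs_pos.2 (hl _)) (cc_pos _)
  log := by
    have h1 := not_int hl
    intro h2
    apply h1
    refine h2.congr (Eventually.of_forall fun t => ?_)
    simp only [norm_Ex, one_mul]

theorem main_adm : ∃ (g : ℂ → ℂ) (G : Circ → ℂ), Admissible g G ∧
    ∃ M T : hardy 2 →L[ℂ] hardy 2, GoodPair G M T := by
  obtain ⟨P, hP⟩ := exists_riesz2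
  obtain ⟨l, x, hl, hx⟩ := exists_par hP
  refine ⟨_, _, admissible_par hP hl, mulH hP (symL hP l) (ww_le_one l),
    toep hP (symL hP l) (ww_le_one l), coeFn_mulH hP (symL hP l) (ww_le_one l),
    adj_aux hP (symL hP l) (ww_le_one l), hits_toep hP hx⟩

theorem main_show : ∃ (g : ℂ → ℂ) (G : Circ → ℂ), Admissible g G ∧
    ∃ M T : Hardy 2 →L[ℂ] Hardy 2, AnalyticToeplitz G M ∧ IsAdjoint M T ∧
      WeaklyHypercyclic T ∧ OneWeaklyHypercyclic T := by
  obtain ⟨g, G, h1, h2⟩ := main_adm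
  exact ⟨g, G, h1, show_pair h2⟩

end Pool.Agent.R949.WH
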