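import Mathlib
set_option autoImplicit false

/-! # Generic weak hypercyclicity -/

open Filter Topology Finset TopologicalSpace

namespace Pool.Agent.R949.WH

variable {H : Type*} [NormedAddCommGroup H] [NormedSpace ℂ H]

/-- the sequence `x` meets every weakly open set -/
def Hits (x : ℕ → H) : Prop :=
  ∀ (z : H) (m : ℕ) (φ : Fin m → (H →L[ℂ] ℂ)) (ε : ℝ), 0 < ε → ∃ n, ∀ i, ‖φ i (x n - z)‖ < ε

theorem Hits.weak_dense {x : ℕ → H} (h : Hits x) :
    Dense (Set.range fun n => toWeakSpace ℂ H (x n)) := by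
  intro z
  rw [mem_closure_iff_nhds]
  intro U hU
  have hW := LinearMap.weakBilin_withSeminorms (topDualPairing ℂ H).flip
  obtain ⟨s, r, hr, hsr⟩ := (hW.mem_nhds_iff z U).1 hU
  obtain ⟨n, hn⟩ := h ((toWeakSpace ℂ H).symm z) s.card (fun i => (s.equivFin.symm i : H →L[ℂ] ℂ))
    r hr
  refine ⟨toWeakSpace ℂ H (x n), hsr ?_, ⟨n, rfl⟩⟩
  show (s.sup (topDualPairing ℂ H).flip.toSeminormFamily) ((toWeakSpace ℂ H (x n)) - z) < r
  apply Seminorm.finset_sup_apply_lt hr
  intro φ hφ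
  have h1 := hn (s.equivFin ⟨φ, hφ⟩)
  simp only [Equiv.symm_apply_apply] at h1
  exact h1

theorem Hits.one_weak {x : ℕ → H} (h : Hits x) (φ : H →L[ℂ] ℂ) (hφ : φ ≠ 0) :
    Dense (Set.range fun n => φ (x n)) := by
  intro c
  rw [Metric.mem_closure_range_iff]
  intro ε hε
  have hne : ∃ v, φ v ≠ 0 := by
    by_contra hcon
    push Not at hcon
    exact hφ (ContinuousLinearMap.ext hcon)
  obtain ⟨v, hv⟩ := hne
  obtain ⟨n, hn⟩ := h ((c / φ v) • v) 1 (fun _ => φ) ε hε
  refine ⟨n, ?_⟩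
  have h1 := hn 0
  rw [map_sub, map_smul, smul_eq_mul, div_mul_cancel₀ _ hv] at h1
  rw [dist_comm, dist_eq_norm]
  exact h1

/-- the condition at one stage -/
def StageAt (x : ℕ → H) (z : H) (R ε : ℝ) (N : ℕ) : Prop :=
  ∀ (m : ℕ) (φ : Fin m → (H →L[ℂ] ℂ)), ∑ i, ‖φ i‖ ^ 2 ≤ R → ∃ n ≤ N, ∀ i, ‖φ i (x n - z)‖ ≤ ε

/-- **Baire category**: if the stage condition is attained near every point of the parameter
space, the orbit of a generic point is weakly dense. -/
theorem generic_hits {Λ : Type*} [TopologicalSpace Λ] [BaireSpace Λ]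
    [SeparableSpace H] (T : ℕ → Λ → H) (hT : ∀ n, Continuous (T n))
    (hst : ∀ U : Set Λ, IsOpen U → U.Nonempty → ∀ (z : H) (R ε : ℝ), 0 < ε →
      ∃ y ∈ U, ∃ N, StageAt (fun n => T n y) z R ε N) :
    ∀ᶠ y in residual Λ, Hits (fun n => T n y) := by
  set O : ℕ → ℕ → Set Λ := fun i r =>
    interior {y | ∃ N, StageAt (fun n => T n y) (denseSeq H i) r (1 / ((r : ℝ) + 1)) N} with hO
  have hOo : ∀ i r, IsOpen (O i r) := fun i r => isOpen_interior
  have hOd : ∀ i r, Dense (O i r) := by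
    intro i r
    rw [dense_iff_inter_open]
    intro U hU hne
    obtain ⟨y, hyU, N, hN⟩ := hst U hU hne (denseSeq H i) r (1 / (2 * ((r : ℝ) + 1)))
      (by positivity)
    refine ⟨y, hyU, ?_⟩
    rw [hO, mem_interior_iff_mem_nhds]
    set δ : ℝ := 1 / (2 * ((r : ℝ) + 1) * (√(r : ℝ) + 1)) with hδ
    have hδ0 : 0 < δ := by positivity
    have hδr : √(r : ℝ) * δ ≤ 1 / (2 * ((r : ℝ) + 1)) := by
      rw [hδ, mul_one_div, div_le_div_iff₀ (by positivity) (by positivity)]
      have := Real.sqrt_nonneg (r : ℝ)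
      have h2 : (0 : ℝ) ≤ r := Nat.cast_nonneg r
      nlinarith
    have hev : ∀ᶠ y' in 𝓝 y, ∀ n ∈ range (N + 1), ‖T n y' - T n y‖ < δ := by
      rw [eventually_all_finset]
      intro n _
      have := (((hT n).tendsto y).sub_const (T n y)).norm
      rw [sub_self, norm_zero] at this
      exact this.eventually_lt_const hδ0
    filter_upwards [hev] with y' hy'
    refine ⟨N, ?_⟩
    intro m φ hφ
    obtain ⟨n, hn, hn2⟩ := hN m φ hφ
    refine ⟨n, hn, fun j => ?_⟩
    have h1 : ‖φ j‖ ≤ √(r : ℝ) := by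
      apply Real.le_sqrt_of_sq_le
      exact (Finset.single_le_sum (f := fun i => ‖φ i‖ ^ 2) (fun i _ => by positivity)
        (Finset.mem_univ j)).trans hφ
    have h2 : T n y' - denseSeq H i = (T n y' - T n y) + (T n y - denseSeq H i) := by abel
    have h3 : ‖φ j (T n y' - T n y)‖ ≤ 1 / (2 * ((r : ℝ) + 1)) := by
      refine ((φ j).le_opNorm _).trans (le_trans ?_ hδr)
      exact mul_le_mul h1 (hy' n (Finset.mem_range.2 (by omega))).le (norm_nonneg _)
        (Real.sqrt_nonneg _)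
    have h4 := hn2 j
    show ‖φ j (T n y' - denseSeq H i)‖ ≤ _
    rw [h2, map_add]
    refine (norm_add_le _ _).trans ((add_le_add h3 h4).trans (le_of_eq ?_))
    field_simp
    norm_num
  have hres : ∀ᶠ y in residual Λ, ∀ i r, y ∈ O i r := by
    rw [eventually_countable_forall]
    intro i
    rw [eventually_countable_forall]
    intro r
    exact residual_of_dense_open (hOo i r) (hOd i r)
  filter_upwards [hres] with y hy
  intro z m φ ε hε
  set M : ℝ := ∑ i, ‖φ i‖ ^ 2 with hM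
  have hM0 : 0 ≤ M := Finset.sum_nonneg fun i _ => by positivity
  obtain ⟨r, hr⟩ := exists_nat_gt (max M (2 / ε))
  have hr1 : M ≤ r := (le_max_left _ _).trans hr.le
  have hr2 : 1 / ((r : ℝ) + 1) < ε / 2 := by
    have h1 : 2 / ε < r := (le_max_right _ _).trans_lt hr
    rw [div_lt_iff₀ hε] at h1
    rw [div_lt_div_iff₀ (by positivity) (by norm_num)]
    nlinarith
  obtain ⟨i, hi⟩ : ∃ i, ‖denseSeq H i - z‖ < ε / (2 * (√M + 1)) := by
    obtain ⟨i, hi⟩ := Metric.mem_closure_range_iff.1 ((denseRange_denseSeq H) z)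
      (ε / (2 * (√M + 1))) (by positivity)
    refine ⟨i, ?_⟩
    rw [dist_comm, dist_eq_norm] at hi
    exact hi
  obtain ⟨N, hN⟩ := interior_subset (hy i r)
  obtain ⟨n, -, hn⟩ := hN m φ hr1
  refine ⟨n, fun j => ?_⟩
  have h1 : ‖φ j‖ ≤ √M := by
    apply Real.le_sqrt_of_sq_le
    exact Finset.single_le_sum (f := fun i => ‖φ i‖ ^ 2) (fun i _ => by positivity)
      (Finset.mem_univ j)
  have h2 : T n y - z = (T n y - denseSeq H i) + (denseSeq H i - z) := by abel
  have h3 : ‖φ j (denseSeq H i - z)‖ ≤ ε / 2 := by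
    refine ((φ j).le_opNorm _).trans ?_
    have hs : 0 ≤ √M := Real.sqrt_nonneg _
    calc ‖φ j‖ * ‖denseSeq H i - z‖ ≤ √M * (ε / (2 * (√M + 1))) :=
          mul_le_mul h1 hi.le (norm_nonneg _) hs
      _ ≤ ε / 2 := by
          rw [mul_div_assoc', div_le_div_iff₀ (by positivity) (by norm_num)]
          nlinarith
  show ‖φ j (T n y - z)‖ < ε
  rw [h2, map_add]
  have h4 := hn j
  exact (norm_add_le _ _).trans_lt (by linarith)

end Pool.Agent.R949.WH
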