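import Pool.Agent.R949.WH.Hardy
import Pool.Agent.Helper203.Fatou
set_option autoImplicit false

/-! # Bounded analytic functions and their radial boundary values -/

open MeasureTheory AddCircle Filter Topology Complex
open scoped ComplexConjugate ENNReal InnerProductSpace

namespace Pool.Agent.R949.WH

/-- `g` is a bounded holomorphic function on the open unit disc and `G` is its boundary
function: `G(t)` is the radial limit of `g` at `exp (2 π i t)` for almost every `t`. -/
structure IsHInf (g : ℂ → ℂ) (G : Circ → ℂ) : Prop where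
  holo : DifferentiableOn ℂ g (Metric.ball 0 1)
  bdd : ∃ C : ℝ, ∀ z ∈ Metric.ball (0 : ℂ) 1, ‖g z‖ ≤ C
  boundary : ∀ᵐ t ∂mu, Tendsto (fun r : ℝ => g (r * (fourier 1 t : ℂ))) (𝓝[<] 1) (𝓝 (G t))

lemma ev_differentiable {G : Circ → ℂ} (hG : AEStronglyMeasurable G mu) {C : ℝ}
    (hC : ∀ t, ‖G t‖ ≤ C) : DifferentiableOn ℂ (fun z => ev z G) (Metric.ball 0 1) := by
  have hC0 : 0 ≤ C := (norm_nonneg _).trans (hC 0)
  have hcoef : ∀ k : ℤ, ‖fourierCoeff G k‖ ≤ C := by
    intro k
    unfold fourierCoeff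
    have : ‖∫ t, (fourier (-k) t : ℂ) • G t ∂mu‖ ≤ ∫ t, C ∂mu := by
      apply norm_integral_le_of_norm_le (integrable_const _)
      refine Eventually.of_forall fun t => ?_
      rw [norm_smul, norm_fourier_apply, one_mul]
      exact hC t
    simpa using this
  intro z hz
  rw [mem_ball_zero_iff] at hz
  obtain ⟨r, hr1, hr2⟩ := exists_between hz
  have hr0 : 0 ≤ r := (norm_nonneg z).trans hr1.le
  have h1 : DifferentiableOn ℂ (fun z : ℂ => ∑' k : ℕ, fourierCoeff G (k : ℤ) * z ^ k)
      (Metric.ball 0 r) := by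
    apply differentiableOn_tsum_of_summable_norm (u := fun k => C * r ^ k)
    · exact (summable_geometric_of_lt_one hr0 hr2).mul_left _
    · intro k
      exact (differentiable_const _).mul (differentiable_pow k) |>.differentiableOn
    · exact Metric.isOpen_ball
    · intro k x hx
      rw [mem_ball_zero_iff] at hx
      rw [norm_mul, norm_pow]
      exact mul_le_mul (hcoef k) (pow_le_pow_left₀ (norm_nonneg _) hx.le k) (by positivity) hC0
  have h2 : DifferentiableOn ℂ (fun z => ev z G) (Metric.ball 0 r) := by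
    refine h1.congr fun x hx => ?_
    rw [mem_ball_zero_iff] at hx
    exact ((hasSum_ev (hx.trans hr2) (integrable_bdd hG hC)).tsum_eq).symm
  exact (h2.differentiableAt (Metric.isOpen_ball.mem_nhds (by
    rw [mem_ball_zero_iff]; exact hr1))).differentiableWithinAt

lemma ae_mu_of_ae {Q : ℂ → Prop} (h : ∀ᵐ θ : ℝ, Q (exp (θ * I))) :
    ∀ᵐ t ∂mu, Q (fourier 1 t) := by
  have h1 : ∀ᵐ x : ℝ, Q (exp ((2 * Real.pi * x : ℝ) * I)) := by
    rw [ae_iff] at h ⊢
    have h2 : {x : ℝ | ¬ Q (exp ((2 * Real.pi * x : ℝ) * I))} =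
        (fun x => 2 * Real.pi * x) ⁻¹' {θ : ℝ | ¬ Q (exp (θ * I))} := rfl
    rw [h2, Real.volume_preimage_mul_left (by positivity), h, mul_zero]
  have h3 : ∀ᵐ x : ℝ ∂(volume.restrict (Set.Ioc (0 : ℝ) (0 + 1))),
    Q (exp ((2 * Real.pi * x : ℝ) * I)) := ae_restrict_of_ae h1
  have h4 : MeasurePreserving (fun t : Circ => ((equivIoc (1 : ℝ) 0 t : Set.Ioc (0 : ℝ) (0 + 1)) : ℝ))
      volume (volume.restrict (Set.Ioc (0 : ℝ) (0 + 1))) :=
    (measurePreserving_subtype_coe measurableSet_Ioc).comp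
      (AddCircle.measurePreserving_equivIoc (1 : ℝ) (a := 0))
  have h5 := h4.quasiMeasurePreserving.ae h3
  have h6 : ∀ᵐ t : Circ ∂volume, Q (fourier 1 t) := by
    filter_upwards [h5] with t ht
    have h7 : (fourier 1 t : ℂ) =
        exp ((2 * Real.pi * ((equivIoc (1 : ℝ) 0 t : Set.Ioc (0 : ℝ) (0 + 1)) : ℝ) : ℝ) * I) := by
      conv_lhs => rw [← AddCircle.coe_equivIoc (p := (1 : ℝ)) (a := 0) (y := t)]
      rw [fourier_coe_apply]
      congr 1
      push_cast
      ring
    rw [h7]
    exact ht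
  rw [volume_eq_smul_haarAddCircle, ENNReal.ofReal_one, one_smul] at h6
  exact h6

lemma radial_ex {g : ℂ → ℂ} (hg : DifferentiableOn ℂ g (Metric.ball 0 1)) {M : ℝ}
    (hM : ∀ z ∈ Metric.ball (0 : ℂ) 1, ‖g z‖ ≤ M) :
    ∀ᵐ t ∂mu, ∃ l : ℂ, Tendsto (fun r : ℝ => g (r * (fourier 1 t : ℂ))) (𝓝[<] 1) (𝓝 l) := by
  have h := Pool.Agent.Helper203.Hardy.fatou hg hM
  apply ae_mu_of_ae (Q := fun ζ => ∃ l : ℂ, Tendsto (fun r : ℝ => g (r * ζ)) (𝓝[<] 1) (𝓝 l))
  filter_upwards [h] with θ hθ
  obtain ⟨l, hl⟩ := hθ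
  refine ⟨l, hl.congr fun r => ?_⟩
  rw [circleMap, zero_add]

theorem isHInf_of {G : Circ → ℂ} (hG : AEStronglyMeasurable G mu) {C : ℝ}
    (hC : ∀ t, ‖G t‖ ≤ C) (hneg : ∀ n < 0, fourierCoeff G n = 0) {M : ℝ}
    (hM : ∀ z ∈ Metric.ball (0 : ℂ) 1, ‖ev z G‖ ≤ M) : IsHInf (fun z => ev z G) G := by
  have hC0 : 0 ≤ C := (norm_nonneg _).trans (hC 0)
  have hd := ev_differentiable hG hC
  refine ⟨hd, ⟨M, hM⟩, ?_⟩
  have hrad := radial_ex hd hM
  classical
  set L : Circ → ℂ := fun t => if h : ∃ l : ℂ, Tendsto (fun r : ℝ =>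
    ev (r * (fourier 1 t : ℂ)) G) (𝓝[<] 1) (𝓝 l) then h.choose else 0 with hL
  have hLlim : ∀ᵐ t ∂mu, Tendsto (fun r : ℝ => ev (r * (fourier 1 t : ℂ)) G) (𝓝[<] 1)
      (𝓝 (L t)) := by
    filter_upwards [hrad] with t ht
    rw [hL]
    simp only
    rw [dif_pos ht]
    exact ht.choose_spec
  -- a sequence of radii
  set ρ : ℕ → ℝ := fun m => 1 - 1 / ((m : ℝ) + 1) with hρ
  have hρ0 : ∀ m, 0 ≤ ρ m := by
    intro m
    rw [hρ]
    simp only
    rw [sub_nonneg, div_le_one (by positivity)]
    have : (0 : ℝ) ≤ m := Nat.cast_nonneg m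
    linarith
  have hρ1 : ∀ m, ρ m < 1 := by
    intro m
    rw [hρ]
    simp only
    have : 0 < 1 / ((m : ℝ) + 1) := by positivity
    linarith
  have hρlim : Tendsto ρ atTop (𝓝 1) := by
    have := (tendsto_one_div_add_atTop_nhds_zero_nat (𝕜 := ℝ)).const_sub 1
    rw [sub_zero] at this
    exact this
  have hρlim' : Tendsto ρ atTop (𝓝[<] 1) :=
    tendsto_nhdsWithin_iff.2 ⟨hρlim, Eventually.of_forall hρ1⟩
  have hnorm : ∀ m (t : Circ), ‖(ρ m : ℂ) * (fourier 1 t : ℂ)‖ = ρ m := by
    intro m t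
    rw [norm_mul, norm_fourier_apply, mul_one, Complex.norm_real, Real.norm_of_nonneg (hρ0 m)]
  set u : ℕ → Circ → ℂ := fun m t => ev ((ρ m : ℂ) * (fourier 1 t : ℂ)) G with hu
  have hucont : ∀ m, Continuous (u m) := by
    intro m
    have h1 : ContinuousOn (fun z => ev z G) (Metric.ball 0 1) := hd.continuousOn
    apply h1.comp_continuous (continuous_const.mul (fourier 1 : C(Circ, ℂ)).continuous)
    intro t
    show (ρ m : ℂ) * (fourier 1 t : ℂ) ∈ Metric.ball (0 : ℂ) 1
    rw [mem_ball_zero_iff, hnorm]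
    exact hρ1 m
  have hulim : ∀ᵐ t ∂mu, Tendsto (fun m => u m t) atTop (𝓝 (L t)) := by
    filter_upwards [hLlim] with t ht
    exact ht.comp hρlim'
  have huM : ∀ m t, ‖u m t‖ ≤ M := by
    intro m t
    apply hM
    rw [mem_ball_zero_iff, hnorm]
    exact hρ1 m
  have hLm : AEStronglyMeasurable L mu :=
    aestronglyMeasurable_of_tendsto_ae atTop (fun m => (hucont m).aestronglyMeasurable) hulim
  -- the coefficients of u
  have hGi := integrable_bdd hG hC
  have hcoefC : ∀ k : ℤ, ‖fourierCoeff G k‖ ≤ C := by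
    intro k
    unfold fourierCoeff
    have : ‖∫ t, (fourier (-k) t : ℂ) • G t ∂mu‖ ≤ ∫ t, C ∂mu := by
      apply norm_integral_le_of_norm_le (integrable_const _)
      refine Eventually.of_forall fun t => ?_
      rw [norm_smul, norm_fourier_apply, one_mul]
      exact hC t
    simpa using this
  have hcu : ∀ m (n : ℤ), fourierCoeff (u m) n =
      if 0 ≤ n then fourierCoeff G n * (ρ m : ℂ) ^ n.toNat else 0 := by
    intro m n
    have hs : HasSum (fun k : ℕ => ∫ t, fourierCoeff G (k : ℤ) * (ρ m : ℂ) ^ k *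
        ((fourier (-n) t : ℂ) * fourier (k : ℤ) t) ∂mu) (fourierCoeff (u m) n) := by
      show HasSum _ (∫ t, (fourier (-n) t : ℂ) • u m t ∂mu)
      apply hasSum_integral_of_dominated_convergence (bound := fun k _ => C * ρ m ^ k)
      · intro k
        exact (continuous_const.mul ((fourier (-n) : C(Circ, ℂ)).continuous.mul
          (fourier (k : ℤ) : C(Circ, ℂ)).continuous)).aestronglyMeasurable
      · intro k
        refine Eventually.of_forall fun t => ?_
        rw [norm_mul, norm_mul, norm_mul, norm_fourier_apply, norm_fourier_apply, mul_one, mul_one,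
          norm_pow, Complex.norm_real, Real.norm_of_nonneg (hρ0 m)]
        exact mul_le_mul_of_nonneg_right (hcoefC k) (by have := hρ0 m; positivity)
      · refine Eventually.of_forall fun t => ?_
        exact (summable_geometric_of_lt_one (hρ0 m) (hρ1 m)).mul_left _
      · exact integrable_const _
      · refine Eventually.of_forall fun t => ?_
        have h1 := hasSum_ev (z := (ρ m : ℂ) * (fourier 1 t : ℂ)) (by rw [hnorm]; exact hρ1 m) hGi
        have h2 := h1.mul_left (fourier (-n) t : ℂ)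
        rw [smul_eq_mul]
        have h6 : (fun k : ℕ => fourierCoeff G (k : ℤ) * (ρ m : ℂ) ^ k *
            ((fourier (-n) t : ℂ) * fourier (k : ℤ) t)) = fun k : ℕ => (fourier (-n) t : ℂ) *
              (fourierCoeff G (k : ℤ) * ((ρ m : ℂ) * (fourier 1 t : ℂ)) ^ k) := by
          funext k
          rw [mul_pow, ← fourier_natCast]
          ring
        rw [h6]
        exact h2
    have hs2 : HasSum (fun k : ℕ => if (k : ℤ) = n then fourierCoeff G (k : ℤ) * (ρ m : ℂ) ^ k
        else 0) (fourierCoeff (u m) n) := by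
      convert hs using 2 with k
      rw [integral_const_mul]
      have h3 : ∫ t, ((fourier (-n) t : ℂ) * fourier (k : ℤ) t) ∂mu = if n = (k : ℤ) then 1 else 0 := by
        have := coeff_fourier (k : ℤ) n
        unfold fourierCoeff at this
        simpa only [smul_eq_mul] using this
      rw [h3]
      by_cases hkn : (k : ℤ) = n
      · rw [if_pos hkn, if_pos hkn.symm, mul_one]
      · rw [if_neg hkn, if_neg (Ne.symm hkn), mul_zero]
    by_cases hn : 0 ≤ n
    · obtain ⟨j, rfl⟩ := Int.eq_ofNat_of_zero_le hn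
      rw [if_pos hn]
      refine hs2.unique ?_
      have h4 := hasSum_ite_eq j (fourierCoeff G (j : ℤ) * (ρ m : ℂ) ^ ((j : ℤ).toNat))
      convert h4 using 2 with k
      by_cases hkj : k = j
      · subst hkj
        rw [if_pos rfl, if_pos rfl, Int.toNat_natCast]
      · rw [if_neg (by exact_mod_cast hkj), if_neg hkj]
    · rw [if_neg hn]
      refine hs2.unique ?_
      have h5 : (fun k : ℕ => if (k : ℤ) = n then fourierCoeff G (k : ℤ) * (ρ m : ℂ) ^ k
        else 0) = fun _ => 0 := by
        funext k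
        rw [if_neg (by omega)]
      rw [h5]
      exact hasSum_zero
  -- the coefficients of L
  have hcL : ∀ n : ℤ, fourierCoeff L n = fourierCoeff G n := by
    intro n
    have h1 : Tendsto (fun m => fourierCoeff (u m) n) atTop (𝓝 (fourierCoeff L n)) := by
      unfold fourierCoeff
      apply tendsto_integral_of_dominated_convergence (bound := fun _ => M)
      · intro m
        exact ((fourier (-n) : C(Circ, ℂ)).continuous.smul (hucont m)).aestronglyMeasurable
      · exact integrable_const _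
      · intro m
        refine Eventually.of_forall fun t => ?_
        rw [norm_smul, norm_fourier_apply, one_mul]
        exact huM m t
      · filter_upwards [hulim] with t ht
        exact ht.const_smul _
    by_cases hn : 0 ≤ n
    · have h2 : Tendsto (fun m => fourierCoeff (u m) n) atTop (𝓝 (fourierCoeff G n)) := by
        simp only [hcu, if_pos hn]
        have h3 : Tendsto (fun m => ((ρ m : ℝ) : ℂ)) atTop (𝓝 1) := by
          have := (Complex.continuous_ofReal.tendsto (1 : ℝ)).comp hρlim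
          rw [Complex.ofReal_one] at this
          exact this
        have := (h3.pow n.toNat).const_mul (fourierCoeff G n)
        rw [one_pow, mul_one] at this
        exact this
      exact tendsto_nhds_unique h1 h2
    · simp only [hcu, if_neg hn] at h1
      rw [tendsto_nhds_unique h1 tendsto_const_nhds, hneg n (not_le.1 hn)]
  have hLM : ∀ᵐ t ∂mu, ‖L t‖ ≤ M := by
    filter_upwards [hulim] with t ht
    exact le_of_tendsto ht.norm (Eventually.of_forall fun m => huM m t)
  have hLmem : MemLp L 2 mu := MemLp.of_bound hLm M hLM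
  have hGmem : MemLp G 2 mu := MemLp.of_bound hG C (Eventually.of_forall hC)
  have heq : hLmem.toLp = hGmem.toLp := by
    apply coeff_ext le_rfl
    intro n
    rw [fourierCoeff_congr_ae hLmem.coeFn_toLp, fourierCoeff_congr_ae hGmem.coeFn_toLp, hcL]
  have hLG : L =ᵐ[mu] G := (MemLp.toLp_eq_toLp_iff hLmem hGmem).1 heq
  filter_upwards [hLlim, hLG] with t h1 h2
  rw [← h2]
  exact h1

end Pool.Agent.R949.WH
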