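import Mathlib
set_option autoImplicit false

/-! # Fourier coefficients and the Cauchy transform on the circle -/

open MeasureTheory AddCircle Filter Topology Complex
open scoped ComplexConjugate ENNReal

namespace Pool.Agent.R949.WH

instance factOne : Fact ((0 : ℝ) < 1) := ⟨zero_lt_one⟩

/-- The unit circle, parametrised as `ℝ/ℤ`: `t` stands for `exp (2 π i t) = fourier 1 t`. -/
abbrev Circ : Type := AddCircle (1 : ℝ)

/-- Normalised Lebesgue measure on the circle. -/
noncomputable abbrev mu : Measure Circ := haarAddCircle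

/-- The value at `z` of the analytic part of `f`. -/
noncomputable def ev (z : ℂ) (f : Circ → ℂ) : ℂ :=
  ∫ t, f t * (1 - z * fourier (-1) t)⁻¹ ∂mu

lemma norm_fourier_apply (n : ℤ) (t : Circ) : ‖(fourier n t : ℂ)‖ = 1 := by
  rw [fourier_apply]; exact Circle.norm_coe _

lemma fourier_natCast (n : ℕ) (t : Circ) : (fourier (n : ℤ) t : ℂ) = (fourier 1 t) ^ n := by
  induction n with
  | zero => simp
  | succ n ih => rw [pow_succ, ← ih, Nat.cast_succ, fourier_add]

lemma fourier_neg_natCast (n : ℕ) (t : Circ) :
    (fourier (-(n : ℤ)) t : ℂ) = (fourier (-1) t) ^ n := by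
  rw [fourier_neg, fourier_natCast, fourier_neg, map_pow]

lemma norm_zf_lt {z : ℂ} (hz : ‖z‖ < 1) (t : Circ) : ‖z * (fourier (-1) t : ℂ)‖ < 1 := by
  rw [norm_mul, norm_fourier_apply, mul_one]; exact hz

lemma one_sub_ne {z : ℂ} (hz : ‖z‖ < 1) (t : Circ) : (1 : ℂ) - z * fourier (-1) t ≠ 0 := by
  intro h
  have h1 := norm_zf_lt hz t
  rw [← sub_eq_zero.1 h] at h1
  simp at h1

lemma norm_kernel_le {z : ℂ} (hz : ‖z‖ < 1) (t : Circ) :
    ‖((1 : ℂ) - z * fourier (-1) t)⁻¹‖ ≤ (1 - ‖z‖)⁻¹ := by
  rw [norm_inv]
  apply inv_anti₀ (by linarith)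
  have := norm_sub_norm_le (1 : ℂ) (z * fourier (-1) t)
  rw [norm_one, norm_mul, norm_fourier_apply, mul_one] at this
  exact this

lemma continuous_kernel {z : ℂ} (hz : ‖z‖ < 1) :
    Continuous fun t : Circ => ((1 : ℂ) - z * fourier (-1) t)⁻¹ :=
  (continuous_const.sub (continuous_const.mul (fourier (-1)).continuous)).inv₀ (one_sub_ne hz)

lemma integrable_mul_bdd {f k : Circ → ℂ} (hf : Integrable f mu) (hk : AEStronglyMeasurable k mu)
    {C : ℝ} (hC : ∀ t, ‖k t‖ ≤ C) : Integrable (fun t => f t * k t) mu :=
  hf.mul_bdd (c := C) hk (Eventually.of_forall hC)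

lemma hasSum_ev {z : ℂ} (hz : ‖z‖ < 1) {f : Circ → ℂ} (hf : Integrable f mu) :
    HasSum (fun k : ℕ => fourierCoeff f (k : ℤ) * z ^ k) (ev z f) := by
  have h : HasSum (fun k : ℕ => ∫ t, f t * (z * fourier (-1) t) ^ k ∂mu) (ev z f) := by
    apply hasSum_integral_of_dominated_convergence (bound := fun k t => ‖f t‖ * ‖z‖ ^ k)
    · intro k
      exact hf.1.mul ((continuous_const.mul
        (fourier (-1)).continuous).pow k).aestronglyMeasurable
    · intro k
      refine Eventually.of_forall fun t => ?_
      rw [norm_mul, norm_pow, norm_mul, norm_fourier_apply, mul_one]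
    · refine Eventually.of_forall fun t => ?_
      exact (summable_geometric_of_lt_one (norm_nonneg _) hz).mul_left _
    · simp_rw [tsum_mul_left]
      exact hf.norm.mul_const _
    · refine Eventually.of_forall fun t => ?_
      exact (hasSum_geometric_of_norm_lt_one (norm_zf_lt hz t)).mul_left _
  convert h using 2 with k
  unfold fourierCoeff
  rw [← integral_mul_const]
  refine integral_congr_ae (Eventually.of_forall fun t => ?_)
  simp only [smul_eq_mul]
  rw [fourier_neg_natCast, mul_pow]
  ring

lemma integrable_cont {f : Circ → ℂ} (hf : Continuous f) : Integrable f mu :=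
  (ContinuousMap.mk f hf).continuous.integrable_of_hasCompactSupport
    (HasCompactSupport.of_compactSpace _)

lemma ev_add {z : ℂ} (hz : ‖z‖ < 1) {f g : Circ → ℂ} (hf : Integrable f mu)
    (hg : Integrable g mu) : ev z (fun t => f t + g t) = ev z f + ev z g := by
  unfold ev
  rw [← integral_add]
  · refine integral_congr_ae (Eventually.of_forall fun t => ?_)
    simp only; ring
  · exact integrable_mul_bdd hf (continuous_kernel hz).aestronglyMeasurable (norm_kernel_le hz)
  · exact integrable_mul_bdd hg (continuous_kernel hz).aestronglyMeasurable (norm_kernel_le hz)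

lemma ev_const_mul (z c : ℂ) (f : Circ → ℂ) : ev z (fun t => c * f t) = c * ev z f := by
  unfold ev
  rw [← integral_const_mul]
  refine integral_congr_ae (Eventually.of_forall fun t => ?_)
  simp only; ring

lemma ev_congr {z : ℂ} {f g : Circ → ℂ} (h : f =ᵐ[mu] g) : ev z f = ev z g := by
  unfold ev
  refine integral_congr_ae ?_
  filter_upwards [h] with t ht
  rw [ht]

lemma coeff_fourier (k n : ℤ) : fourierCoeff (fun t : Circ => (fourier k t : ℂ)) n =
    if n = k then 1 else 0 := by
  have := congrFun (fourierCoeff_fourier (T := (1 : ℝ)) k) n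
  rw [show (fun t : Circ => (fourier k t : ℂ)) = ⇑(fourier k : C(Circ, ℂ)) from rfl, this,
    Pi.single_apply]

lemma ev_fourier {z : ℂ} (hz : ‖z‖ < 1) (k : ℕ) :
    ev z (fun t : Circ => (fourier (k : ℤ) t : ℂ)) = z ^ k := by
  have h := hasSum_ev hz (integrable_cont (fourier (k : ℤ) : C(Circ, ℂ)).continuous)
  refine h.unique ?_
  have h2 := hasSum_ite_eq k (z ^ k)
  convert h2 using 2 with j
  have h3 := coeff_fourier (k : ℤ) (j : ℤ)
  by_cases hjk : j = k
  · subst hjk
    rw [if_pos rfl] at h3 ⊢
    rw [show fourierCoeff (⇑(fourier (j : ℤ) : C(Circ, ℂ))) (j : ℤ) = 1 from h3, one_mul]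
  · rw [if_neg (by exact_mod_cast hjk)] at h3
    rw [if_neg hjk, show fourierCoeff (⇑(fourier (k : ℤ) : C(Circ, ℂ))) (j : ℤ) = 0 from h3,
      zero_mul]

lemma coeff_add {f g : Circ → ℂ} (hf : Integrable f mu) (hg : Integrable g mu) (n : ℤ) :
    fourierCoeff (fun t => f t + g t) n = fourierCoeff f n + fourierCoeff g n := by
  have := fourierCoeff.add hf hg
  exact congrFun this n

lemma coeff_const_mul (c : ℂ) (f : Circ → ℂ) (n : ℤ) :
    fourierCoeff (fun t => c * f t) n = c * fourierCoeff f n :=
  fourierCoeff.const_mul f c n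

/-! ### analytic polynomials -/

/-- the polynomial `q` on the circle -/
noncomputable def pc (q : Polynomial ℂ) (t : Circ) : ℂ := q.eval (fourier 1 t : ℂ)

lemma continuous_pc (q : Polynomial ℂ) : Continuous (pc q) :=
  q.continuous.comp (fourier 1).continuous

lemma pc_add (p q : Polynomial ℂ) (t : Circ) : pc (p + q) t = pc p t + pc q t := by simp [pc]

lemma pc_pow (p : Polynomial ℂ) (n : ℕ) (t : Circ) : pc (p ^ n) t = (pc p t) ^ n := by simp [pc]

lemma pc_monomial (n : ℕ) (a : ℂ) (t : Circ) :
    pc (Polynomial.monomial n a) t = a * fourier (n : ℤ) t := by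
  rw [pc, Polynomial.eval_monomial, fourier_natCast]

lemma coeff_pc (q : Polynomial ℂ) {n : ℤ} (hn : n < 0) : fourierCoeff (pc q) n = 0 := by
  induction q using Polynomial.induction_on' with
  | add p q hp hq =>
    have : pc (p + q) = fun t => pc p t + pc q t := funext fun t => pc_add p q t
    rw [this, coeff_add (integrable_cont (continuous_pc p)) (integrable_cont (continuous_pc q)),
      hp, hq, add_zero]
  | monomial k a =>
    have : pc (Polynomial.monomial k a) = fun t => a * fourier (k : ℤ) t :=
      funext fun t => pc_monomial k a t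
    rw [this, coeff_const_mul, coeff_fourier, if_neg (by omega), mul_zero]

lemma ev_pc {z : ℂ} (hz : ‖z‖ < 1) (q : Polynomial ℂ) : ev z (pc q) = q.eval z := by
  induction q using Polynomial.induction_on' with
  | add p q hp hq =>
    have : pc (p + q) = fun t => pc p t + pc q t := funext fun t => pc_add p q t
    rw [this, ev_add hz (integrable_cont (continuous_pc p)) (integrable_cont (continuous_pc q)),
      hp, hq, Polynomial.eval_add]
  | monomial k a =>
    have : pc (Polynomial.monomial k a) = fun t => a * fourier (k : ℤ) t :=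
      funext fun t => pc_monomial k a t
    rw [this, ev_const_mul, ev_fourier hz, Polynomial.eval_monomial]

lemma bdd_cont {f : Circ → ℂ} (hf : Continuous f) : ∃ C, ∀ t, ‖f t‖ ≤ C := by
  obtain ⟨C, hC⟩ := (isCompact_range hf).isBounded.exists_norm_le
  exact ⟨C, fun t => hC _ ⟨t, rfl⟩⟩

/-- integration of the exponential series -/
lemma hasSum_exp (q : Polynomial ℂ) {k : Circ → ℂ} (hk : Continuous k) :
    HasSum (fun m : ℕ => ((m.factorial : ℂ))⁻¹ * ∫ t, pc (q ^ m) t * k t ∂mu)
      (∫ t, exp (pc q t) * k t ∂mu) := by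
  obtain ⟨B, hB⟩ := bdd_cont (continuous_pc q)
  obtain ⟨K, hK⟩ := bdd_cont hk
  have hB0 : 0 ≤ B := (norm_nonneg _).trans (hB 0)
  have hK0 : 0 ≤ K := (norm_nonneg _).trans (hK 0)
  have h : HasSum (fun m : ℕ => ∫ t, ((m.factorial : ℂ))⁻¹ * (pc q t) ^ m * k t ∂mu)
      (∫ t, exp (pc q t) * k t ∂mu) := by
    apply hasSum_integral_of_dominated_convergence
      (bound := fun m _ => ((m.factorial : ℝ))⁻¹ * B ^ m * K)
    · intro m
      exact ((continuous_const.mul ((continuous_pc q).pow m)).mul hk).aestronglyMeasurable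
    · intro m
      refine Eventually.of_forall fun t => ?_
      rw [norm_mul, norm_mul, norm_inv, norm_pow, Complex.norm_natCast]
      have := hB t
      have := hK t
      gcongr
    · refine Eventually.of_forall fun t => ?_
      have := (Real.summable_pow_div_factorial B).mul_right K
      refine this.congr fun m => ?_
      ring
    · exact integrable_const _
    · refine Eventually.of_forall fun t => ?_
      apply HasSum.mul_right
      have := NormedSpace.expSeries_div_hasSum_exp (𝔸 := ℂ) (pc q t)
      rw [← Complex.exp_eq_exp_ℂ] at this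
      simp only [div_eq_inv_mul] at this
      exact this
  convert h using 2 with m
  rw [← integral_const_mul]
  refine integral_congr_ae (Eventually.of_forall fun t => ?_)
  simp only [pc_pow]
  ring

lemma continuous_exp_pc (q : Polynomial ℂ) : Continuous fun t => exp (pc q t) :=
  Complex.continuous_exp.comp (continuous_pc q)

lemma coeff_exp_pc (q : Polynomial ℂ) {n : ℤ} (hn : n < 0) :
    fourierCoeff (fun t => exp (pc q t)) n = 0 := by
  have h := hasSum_exp q (fourier (-n) : C(Circ, ℂ)).continuous
  have h0 : ∀ m : ℕ, ∫ t, pc (q ^ m) t * fourier (-n) t ∂mu = 0 := by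
    intro m
    have := coeff_pc (q ^ m) hn
    unfold fourierCoeff at this
    rw [← this]
    refine integral_congr_ae (Eventually.of_forall fun t => ?_)
    simp only [smul_eq_mul]; ring
  simp only [h0, mul_zero] at h
  have := h.unique hasSum_zero
  unfold fourierCoeff
  rw [← this]
  refine integral_congr_ae (Eventually.of_forall fun t => ?_)
  simp only [smul_eq_mul]; ring

lemma ev_exp_pc {z : ℂ} (hz : ‖z‖ < 1) (q : Polynomial ℂ) :
    ev z (fun t => exp (pc q t)) = exp (q.eval z) := by
  have h := hasSum_exp q (continuous_kernel hz)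
  have h0 : ∀ m : ℕ, ∫ t, pc (q ^ m) t * ((1 : ℂ) - z * fourier (-1) t)⁻¹ ∂mu =
      (q.eval z) ^ m := by
    intro m
    have := ev_pc hz (q ^ m)
    rw [Polynomial.eval_pow] at this
    exact this
  simp only [h0] at h
  have h2 := NormedSpace.expSeries_div_hasSum_exp (𝔸 := ℂ) (q.eval z)
  rw [← Complex.exp_eq_exp_ℂ] at h2
  simp only [div_eq_inv_mul] at h2
  exact h.unique h2

end Pool.Agent.R949.WH
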