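import Pool.Agent.R949.WH.Gen
set_option autoImplicit false

/-! # Analytic completion of a bounded real function and its exponential -/

open MeasureTheory AddCircle Filter Topology Complex
open scoped ComplexConjugate ENNReal

namespace Pool.Agent.R949.WH

lemma ev_zero (f : Circ → ℂ) : ev 0 f = fourierCoeff f 0 := by
  unfold ev fourierCoeff
  refine integral_congr_ae (Eventually.of_forall fun t => ?_)
  simp

lemma ev_congr_coeff {z : ℂ} (hz : ‖z‖ < 1) {f g : Circ → ℂ} (hf : Integrable f mu)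
    (hg : Integrable g mu) (h : ∀ k : ℕ, fourierCoeff f (k : ℤ) = fourierCoeff g (k : ℤ)) :
    ev z f = ev z g := by
  have h1 := hasSum_ev hz hf
  have h2 := hasSum_ev hz hg
  simp only [h] at h1
  exact h1.unique h2

lemma coeff_conj (f : Circ → ℂ) (n : ℤ) :
    fourierCoeff (fun t => conj (f t)) n = conj (fourierCoeff f (-n)) := by
  unfold fourierCoeff
  rw [← integral_conj]
  refine integral_congr_ae (Eventually.of_forall fun t => ?_)
  simp only [smul_eq_mul, map_mul, neg_neg]
  rw [← fourier_neg]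

/-- the operator sending a real function to its analytic completion -/
noncomputable def opM (P : Lp ℂ 2 mu →L[ℂ] Lp ℂ 2 mu) : Lp ℂ 2 mu →L[ℂ] Lp ℂ 2 mu :=
  (2 : ℂ) • P - (coeffL 2 0).smulRight (fourierLp (T := (1 : ℝ)) 2 0)

lemma coeff_opM {P : Lp ℂ 2 mu →L[ℂ] Lp ℂ 2 mu} (hP : IsRiesz P) (f : Lp ℂ 2 mu) (n : ℤ) :
    fourierCoeff (opM P f) n = 2 * (if 0 ≤ n then fourierCoeff f n else 0) -
      fourierCoeff f 0 * (if n = 0 then 1 else 0) := by
  rw [← coeffL_apply, opM, sub_apply, map_sub,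
    smul_apply, map_smul, coeffL_apply, hP,
    ContinuousLinearMap.smulRight_apply, map_smul, coeffL_apply, coeffL_apply, coeff_fourierLp,
    smul_eq_mul, smul_eq_mul]

lemma ev_opM {P : Lp ℂ 2 mu →L[ℂ] Lp ℂ 2 mu} (hP : IsRiesz P) (f : Lp ℂ 2 mu) {z : ℂ}
    (hz : ‖z‖ < 1) : ev z (opM P f) = 2 * ev z f - ev 0 f := by
  have h1 : ev z (P f) = ev z f :=
    ev_congr_coeff hz (Lp_integrable _) (Lp_integrable _) fun k => by
      rw [hP, if_pos (by positivity)]
  have h2 : ev z (fourierLp (T := (1 : ℝ)) 2 0) = 1 := by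
    rw [ev_congr (coeFn_fourierLp 2 0)]
    have := ev_fourier hz 0
    simpa only [Nat.cast_zero, pow_zero] using this
  rw [← evL_apply hz, opM, sub_apply, map_sub,
    smul_apply, map_smul, evL_apply, h1,
    ContinuousLinearMap.smulRight_apply, map_smul, evL_apply, h2, coeffL_apply, ev_zero,
    smul_eq_mul, smul_eq_mul, mul_one]

/-- the real part of an analytic polynomial -/
noncomputable def reC (q : Polynomial ℂ) : C(Circ, ℂ) :=
  ⟨fun t => ((pc q t).re : ℂ), Complex.continuous_ofReal.comp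
    (Complex.continuous_re.comp (continuous_pc q))⟩

lemma coeff_reC (q : Polynomial ℂ) (n : ℤ) : fourierCoeff (reC q) n =
    2⁻¹ * (fourierCoeff (pc q) n + conj (fourierCoeff (pc q) (-n))) := by
  have h : (reC q : Circ → ℂ) = fun t => 2⁻¹ * (pc q t + conj (pc q t)) := by
    funext t
    show ((pc q t).re : ℂ) = _
    rw [Complex.re_eq_add_conj]; ring
  have hc : Integrable (fun t => conj (pc q t)) mu :=
    integrable_cont (continuous_conj.comp (continuous_pc q))
  rw [h, coeff_const_mul, coeff_add (integrable_cont (continuous_pc q)) hc, coeff_conj]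

lemma opM_reC {P : Lp ℂ 2 mu →L[ℂ] Lp ℂ 2 mu} (hP : IsRiesz P) (q : Polynomial ℂ)
    (hq : (q.eval 0).im = 0) :
    opM P (ContinuousMap.toLp (E := ℂ) 2 mu ℂ (reC q)) =
      ContinuousMap.toLp (E := ℂ) 2 mu ℂ (pcC q) := by
  apply coeff_ext le_rfl
  intro n
  have h0 : fourierCoeff (pc q) 0 = q.eval 0 := by rw [← ev_zero, ev_pc (by simp)]
  have h0' : conj (q.eval 0) = q.eval 0 := Complex.conj_eq_iff_im.2 hq
  rw [coeff_opM hP, fourierCoeff_congr_ae (ContinuousMap.coeFn_toLp mu (reC q)),
    fourierCoeff_congr_ae (ContinuousMap.coeFn_toLp mu (pcC q)), coeff_reC, coeff_reC]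
  show _ = fourierCoeff (pc q) n
  rcases lt_trichotomy n 0 with h | h | h
  · rw [if_neg (not_le.2 h), if_neg h.ne, coeff_pc q h]; ring
  · subst h
    rw [if_pos le_rfl, if_pos rfl, neg_zero, h0, h0']; ring
  · rw [if_pos h.le, if_neg h.ne', coeff_pc q (show -n < 0 by omega), map_zero]; ring

/-- real trigonometric polynomials -/
lemma re_span {x : C(Circ, ℂ)} (hx : x ∈ Submodule.span ℂ (Set.range (@fourier (1 : ℝ)))) :
    ∀ c : ℂ, ∃ q : Polynomial ℂ, (q.eval 0).im = 0 ∧ ∀ t, (c * x t).re = (pc q t).re := by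
  induction hx using Submodule.span_induction with
  | mem x hx =>
    obtain ⟨n, rfl⟩ := hx
    intro c
    rcases lt_trichotomy n 0 with h | h | h
    · obtain ⟨k, hk⟩ := Int.eq_ofNat_of_zero_le (show 0 ≤ -n - 1 by omega)
      refine ⟨Polynomial.C (conj c) * Polynomial.X ^ (k + 1), by simp, fun t => ?_⟩
      have h1 : (fourier n t : ℂ) = conj (fourier ((k + 1 : ℕ) : ℤ) t) := by
        rw [← fourier_neg]; congr 2; push_cast; omega
      rw [h1, pc, Polynomial.eval_mul, Polynomial.eval_C, Polynomial.eval_pow,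
        Polynomial.eval_X, ← fourier_natCast, ← Complex.conj_re (c * _), map_mul,
        Complex.conj_conj]
    · subst h
      refine ⟨Polynomial.C (c.re : ℂ), by simp, fun t => ?_⟩
      simp [pc]
    · obtain ⟨k, hk⟩ := Int.eq_ofNat_of_zero_le (show 0 ≤ n - 1 by omega)
      refine ⟨Polynomial.C c * Polynomial.X ^ (k + 1), by simp, fun t => ?_⟩
      have h1 : (fourier n t : ℂ) = (fourier ((k + 1 : ℕ) : ℤ) t) := by
        congr 2; push_cast; omega
      rw [h1, pc, Polynomial.eval_mul, Polynomial.eval_C, Polynomial.eval_pow,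
        Polynomial.eval_X, ← fourier_natCast]
  | zero => intro c; exact ⟨0, by simp, fun t => by simp [pc]⟩
  | add x y _ _ hx hy =>
    intro c
    obtain ⟨q, h1, h2⟩ := hx c
    obtain ⟨r, h3, h4⟩ := hy c
    refine ⟨q + r, by simp [h1, h3], fun t => ?_⟩
    rw [pc_add, Complex.add_re, ← h2, ← h4, ContinuousMap.add_apply, mul_add, Complex.add_re]
  | smul a x _ hx =>
    intro c
    obtain ⟨q, h1, h2⟩ := hx (c * a)
    refine ⟨q, h1, fun t => ?_⟩
    rw [← h2, ContinuousMap.smul_apply, smul_eq_mul, mul_assoc]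

lemma approx_cont (f : Circ → ℝ) (hf : Continuous f) {δ : ℝ} (hδ : 0 < δ) :
    ∃ q : Polynomial ℂ, (q.eval 0).im = 0 ∧ ∀ t, |f t - (pc q t).re| ≤ δ := by
  set F : C(Circ, ℂ) := ⟨fun t => (f t : ℂ), Complex.continuous_ofReal.comp hf⟩ with hF
  have h1 : F ∈ (Submodule.span ℂ (Set.range (@fourier (1 : ℝ)))).topologicalClosure := by
    rw [span_fourier_closure_eq_top]; trivial
  rw [← SetLike.mem_coe, Submodule.topologicalClosure_coe, Metric.mem_closure_iff] at h1
  obtain ⟨x, hx, hd⟩ := h1 δ hδ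
  obtain ⟨q, h2, h3⟩ := re_span hx 1
  refine ⟨q, h2, fun t => ?_⟩
  rw [← h3 t, one_mul]
  have h4 : ‖F t - x t‖ ≤ δ := by
    have := (F - x).norm_coe_le_norm t
    rw [dist_eq_norm] at hd
    exact this.trans hd.le
  have h5 : f t - (x t).re = (F t - x t).re := by
    rw [Complex.sub_re]; rfl
  rw [h5]
  exact (Complex.abs_re_le_norm _).trans h4

lemma memLp_real {w : Circ → ℝ} (hw : Measurable w) {C : ℝ} (hC : ∀ t, |w t| ≤ C) :
    MemLp (fun t => (w t : ℂ)) 2 mu :=
  MemLp.of_bound (Complex.measurable_ofReal.comp hw).aestronglyMeasurable C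
    (Eventually.of_forall fun t => by rw [Complex.norm_real]; exact hC t)

lemma approx_bdd {w : Circ → ℝ} (hw : Measurable w) {C : ℝ} (hC : ∀ t, |w t| ≤ C) {ε : ℝ}
    (hε : 0 < ε) : ∃ q : Polynomial ℂ, (q.eval 0).im = 0 ∧ (∀ t, |(pc q t).re| ≤ C + 1) ∧
      eLpNorm (fun t => (w t : ℂ) - reC q t) 2 mu ≤ ENNReal.ofReal ε := by
  have hC0 : 0 ≤ C := (abs_nonneg _).trans (hC 0)
  have hwm : MemLp w 2 mu := MemLp.of_bound hw.aestronglyMeasurable C
    (Eventually.of_forall fun t => by rw [Real.norm_eq_abs]; exact hC t)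
  obtain ⟨g0, hg0, -⟩ := hwm.exists_boundedContinuous_eLpNorm_sub_le (by simp)
    (show ENNReal.ofReal (ε / 2) ≠ 0 by simp [hε])
  set g : Circ → ℝ := fun t => max (-C) (min C (g0 t)) with hg
  have hgc : Continuous g := continuous_const.max (continuous_const.min g0.continuous)
  have hgC : ∀ t, |g t| ≤ C := fun t => by
    rw [hg, abs_le]
    exact ⟨le_max_left _ _, max_le (by linarith) (min_le_left _ _)⟩
  have hwg : ∀ t, |w t - g t| ≤ |w t - g0 t| := by
    intro t
    have h1 := abs_le.1 (hC t)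
    rw [hg]
    simp only
    rcases le_total C (g0 t) with h | h
    · rw [min_eq_left h, max_eq_right (by linarith), abs_sub_comm, abs_of_nonneg (by linarith),
        abs_sub_comm, abs_of_nonneg (by linarith)]
      linarith
    · rw [min_eq_right h]
      rcases le_total (-C) (g0 t) with h' | h'
      · rw [max_eq_right h']
      · rw [max_eq_left h', abs_of_nonneg (by linarith), abs_of_nonneg (by linarith)]
        linarith
  obtain ⟨q, hq1, hq2⟩ := approx_cont g hgc (δ := min 1 (ε / 2)) (lt_min one_pos (by positivity))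
  refine ⟨q, hq1, fun t => ?_, ?_⟩
  · have h1 := hq2 t
    have h2 : |g t - (pc q t).re| ≤ 1 := h1.trans (min_le_left _ _)
    have h3 := hgC t
    have h4 : |(pc q t).re| ≤ |g t| + |g t - (pc q t).re| := by
      have := abs_sub_abs_le_abs_sub ((pc q t).re) (g t)
      rw [abs_sub_comm] at this
      linarith
    linarith
  · have h1 : eLpNorm (fun t => (w t : ℂ) - reC q t) 2 mu =
        eLpNorm (fun t => w t - (pc q t).re) 2 mu := by
      apply eLpNorm_congr_norm_ae
      refine Eventually.of_forall fun t => ?_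
      show ‖(w t : ℂ) - ((pc q t).re : ℂ)‖ = _
      rw [← Complex.ofReal_sub, Complex.norm_real]
    rw [h1]
    have h2 : (fun t => w t - (pc q t).re) = (fun t => w t - g t) + fun t => g t - (pc q t).re := by
      funext t; simp
    rw [h2]
    have h3 : eLpNorm (fun t => w t - g t) 2 mu ≤ ENNReal.ofReal (ε / 2) := by
      refine (eLpNorm_mono fun t => ?_).trans hg0
      rw [Real.norm_eq_abs, Real.norm_eq_abs]
      exact hwg t
    have h4 : eLpNorm (fun t => g t - (pc q t).re) 2 mu ≤ ENNReal.ofReal (ε / 2) := by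
      refine (eLpNorm_le_of_ae_bound (C := ε / 2) (Eventually.of_forall fun t => ?_)).trans ?_
      · rw [Real.norm_eq_abs]
        exact (hq2 t).trans (min_le_right _ _)
      · simp
    refine (eLpNorm_add_le (hw.sub hgc.measurable).aestronglyMeasurable
      ((hgc.sub (Complex.continuous_re.comp (continuous_pc q))).aestronglyMeasurable)
      (by norm_num)).trans ?_
    calc _ ≤ ENNReal.ofReal (ε / 2) + ENNReal.ofReal (ε / 2) := add_le_add h3 h4
      _ = ENNReal.ofReal ε := by
        rw [← ENNReal.ofReal_add (by positivity) (by positivity)]; congr 1; ring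

/-- the exponential of `s` times the completion -/
noncomputable def Ex (w : Circ → ℝ) (F : Circ → ℂ) (s : ℝ) (t : Circ) : ℂ :=
  exp (s * (w t + I * (F t).im))

lemma norm_Ex (w : Circ → ℝ) (F : Circ → ℂ) (s : ℝ) (t : Circ) :
    ‖Ex w F s t‖ = Real.exp (s * w t) := by
  rw [Ex, Complex.norm_exp]
  congr 1
  simp

lemma Ex_mul (w : Circ → ℝ) (F : Circ → ℂ) (s s' : ℝ) (t : Circ) :
    Ex w F s t * Ex w F s' t = Ex w F (s + s') t := by
  rw [Ex, Ex, Ex, ← Complex.exp_add]
  congr 1
  push_cast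
  ring

lemma aesm_Ex {w : Circ → ℝ} (hw : Measurable w) {F : Circ → ℂ}
    (hF : AEStronglyMeasurable F mu) (s : ℝ) : AEStronglyMeasurable (Ex w F s) mu := by
  unfold Ex
  apply Complex.continuous_exp.comp_aestronglyMeasurable
  apply AEStronglyMeasurable.const_mul
  apply AEStronglyMeasurable.add
  · exact (Complex.measurable_ofReal.comp hw).aestronglyMeasurable
  · apply AEStronglyMeasurable.const_mul
    exact Complex.continuous_ofReal.comp_aestronglyMeasurable
      (Complex.continuous_im.comp_aestronglyMeasurable hF)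

/-- the facts on the completion which are used later -/
structure IsSym (w : Circ → ℝ) (F : Circ → ℂ) : Prop where
  meas_w : Measurable w
  meas_F : AEStronglyMeasurable F mu
  coeff : ∀ s : ℝ, ∀ n : ℤ, n < 0 → fourierCoeff (Ex w F s) n = 0
  ev : ∀ s : ℝ, ∀ z : ℂ, ‖z‖ < 1 → ev z (Ex w F s) =
    exp (s * (2 * ev z (fun t => (w t : ℂ)) - ev 0 (fun t => (w t : ℂ))))

theorem isSym {P : Lp ℂ 2 mu →L[ℂ] Lp ℂ 2 mu} (hP : IsRiesz P) {w : Circ → ℝ}
    (hw : Measurable w) {C : ℝ} (hC : ∀ t, |w t| ≤ C) (hm : MemLp (fun t => (w t : ℂ)) 2 mu) :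
    IsSym w (opM P hm.toLp) := by
  set F : Lp ℂ 2 mu := opM P hm.toLp with hF
  -- approximation
  have happ : ∀ n : ℕ, ∃ q : Polynomial ℂ, (q.eval 0).im = 0 ∧ (∀ t, |(pc q t).re| ≤ C + 1) ∧
      eLpNorm (fun t => (w t : ℂ) - reC q t) 2 mu ≤ ENNReal.ofReal (1 / ((n : ℝ) + 1)) :=
    fun n => approx_bdd hw hC (by positivity)
  choose q hq1 hq2 hq3 using happ
  have ht1 : Tendsto (fun n => ContinuousMap.toLp (E := ℂ) 2 mu ℂ (reC (q n))) atTop
      (𝓝 hm.toLp) := by
    rw [tendsto_iff_edist_tendsto_0]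
    have h0 : Tendsto (fun n : ℕ => ENNReal.ofReal (1 / ((n : ℝ) + 1))) atTop (𝓝 0) := by
      have := ENNReal.tendsto_ofReal (tendsto_one_div_add_atTop_nhds_zero_nat (𝕜 := ℝ))
      simpa using this
    refine tendsto_of_tendsto_of_tendsto_of_le_of_le tendsto_const_nhds h0 (fun _ => bot_le)
      fun n => ?_
    refine le_trans (le_of_eq ?_) (hq3 n)
    rw [edist_comm, Lp.edist_def]
    apply eLpNorm_congr_ae
    filter_upwards [hm.coeFn_toLp, ContinuousMap.coeFn_toLp (p := 2) (𝕜 := ℂ) mu (reC (q n))]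
      with t h1 h2
    rw [Pi.sub_apply, h1, h2]
  have ht2 : Tendsto (fun n => ContinuousMap.toLp (E := ℂ) 2 mu ℂ (pcC (q n))) atTop (𝓝 F) := by
    have := ((opM P).continuous.tendsto _).comp ht1
    refine this.congr fun n => ?_
    exact opM_reC hP (q n) (hq1 n)
  obtain ⟨ns, hns, hae⟩ := (tendstoInMeasure_of_tendsto_Lp ht2).exists_seq_tendsto_ae
  have ht1' := ht1.comp hns.tendsto_atTop
  obtain ⟨ms, hms, hae'⟩ := (tendstoInMeasure_of_tendsto_Lp ht1').exists_seq_tendsto_ae
  have hall1 : ∀ᵐ t ∂mu, ∀ n, (ContinuousMap.toLp (E := ℂ) 2 mu ℂ (pcC (q n)) : Circ → ℂ) t =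
      pc (q n) t := by
    rw [ae_all_iff]
    intro n
    exact ContinuousMap.coeFn_toLp mu (pcC (q n))
  have hall2 : ∀ᵐ t ∂mu, ∀ n, (ContinuousMap.toLp (E := ℂ) 2 mu ℂ (reC (q n)) : Circ → ℂ) t =
      ((pc (q n) t).re : ℂ) := by
    rw [ae_all_iff]
    intro n
    exact ContinuousMap.coeFn_toLp mu (reC (q n))
  -- pointwise convergence
  have hpt : ∀ᵐ t ∂mu, Tendsto (fun i => pc (q (ns (ms i))) t) atTop (𝓝 (F t)) := by
    filter_upwards [hae, hall1] with t h1 h2
    have := h1.comp hms.tendsto_atTop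
    refine this.congr fun i => ?_
    exact h2 _
  have hre : ∀ᵐ t ∂mu, (F t).re = w t := by
    filter_upwards [hpt, hae', hall2, hm.coeFn_toLp] with t h1 h2 h3 h4
    have h5 : Tendsto (fun i => ((pc (q (ns (ms i))) t).re : ℂ)) atTop (𝓝 ((w t : ℂ))) := by
      rw [← h4]
      refine h2.congr fun i => ?_
      exact h3 _
    have h6 : Tendsto (fun i => ((pc (q (ns (ms i))) t).re : ℂ)) atTop (𝓝 (((F t).re : ℝ) : ℂ)) :=
      (Complex.continuous_ofReal.tendsto _).comp ((Complex.continuous_re.tendsto _).comp h1)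
    exact_mod_cast tendsto_nhds_unique h6 h5
  -- convergence of integrals
  have hint : ∀ (s : ℝ) (k : Circ → ℂ), Continuous k →
      Tendsto (fun i => ∫ t, exp (pc (Polynomial.C (s : ℂ) * q (ns (ms i))) t) * k t ∂mu) atTop
        (𝓝 (∫ t, Ex w F s t * k t ∂mu)) := by
    intro s k hk
    obtain ⟨K, hK⟩ := bdd_cont hk
    apply tendsto_integral_of_dominated_convergence
      (bound := fun _ => Real.exp (|s| * (C + 1)) * K)
    · intro i
      exact ((continuous_exp_pc _).mul hk).aestronglyMeasurable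
    · exact integrable_const _
    · intro i
      refine Eventually.of_forall fun t => ?_
      rw [norm_mul, Complex.norm_exp]
      refine mul_le_mul ?_ (hK t) (norm_nonneg _) (Real.exp_nonneg _)
      apply Real.exp_le_exp.2
      have h1 : (pc (Polynomial.C (s : ℂ) * q (ns (ms i))) t).re =
          s * (pc (q (ns (ms i))) t).re := by
        simp [pc]
      rw [h1]
      refine (le_abs_self _).trans ?_
      rw [abs_mul]
      exact mul_le_mul_of_nonneg_left (hq2 _ _) (abs_nonneg _)
    · filter_upwards [hpt, hre] with t h1 h2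
      apply Tendsto.mul_const
      have h3 : Ex w F s t = exp (s * F t) := by
        rw [Ex, ← h2]
        congr 2
        conv_rhs => rw [← Complex.re_add_im (F t)]
        ring
      rw [h3]
      apply (Complex.continuous_exp.tendsto _).comp
      have := h1.const_mul (s : ℂ)
      refine this.congr fun i => ?_
      simp [pc]
  refine ⟨hw, (Lp.aestronglyMeasurable F), ?_, ?_⟩
  · intro s n hn
    have h1 := hint s _ (fourier (-n) : C(Circ, ℂ)).continuous
    have h2 : ∀ i, ∫ t, exp (pc (Polynomial.C (s : ℂ) * q (ns (ms i))) t) *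
        (fourier (-n) : C(Circ, ℂ)) t ∂mu = 0 := by
      intro i
      have := coeff_exp_pc (Polynomial.C (s : ℂ) * q (ns (ms i))) hn
      unfold fourierCoeff at this
      rw [← this]
      refine integral_congr_ae (Eventually.of_forall fun t => ?_)
      simp only [smul_eq_mul]; ring
    simp only [h2] at h1
    have h3 := tendsto_nhds_unique h1 tendsto_const_nhds
    unfold fourierCoeff
    rw [← h3]
    refine integral_congr_ae (Eventually.of_forall fun t => ?_)
    simp only [smul_eq_mul]; ring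
  · intro s z hz
    have h1 := hint s _ (continuous_kernel hz)
    have h2 : ∀ i, ∫ t, exp (pc (Polynomial.C (s : ℂ) * q (ns (ms i))) t) *
        ((1 : ℂ) - z * fourier (-1) t)⁻¹ ∂mu = exp (s * (q (ns (ms i))).eval z) := by
      intro i
      have := ev_exp_pc hz (Polynomial.C (s : ℂ) * q (ns (ms i)))
      rw [Polynomial.eval_mul, Polynomial.eval_C] at this
      exact this
    simp only [h2] at h1
    have h3 : Tendsto (fun i => (q (ns (ms i))).eval z) atTop (𝓝 (ev z F)) := by
      have := ((evL 2 hz).continuous.tendsto _).comp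
        (ht2.comp (hns.tendsto_atTop.comp hms.tendsto_atTop))
      rw [evL_apply] at this
      refine this.congr fun i => ?_
      show ev z _ = _
      rw [← ev_pc hz]
      exact ev_congr (ContinuousMap.coeFn_toLp mu (pcC (q (ns (ms i)))))
    have h4 : Tendsto (fun i => exp (s * (q (ns (ms i))).eval z)) atTop
        (𝓝 (exp (s * ev z F))) :=
      (Complex.continuous_exp.tendsto _).comp (h3.const_mul _)
    have h5 := tendsto_nhds_unique h1 h4
    rw [hF, ev_opM hP _ hz, ev_congr hm.coeFn_toLp, ev_congr (z := 0) hm.coeFn_toLp] at h5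
    exact h5

end Pool.Agent.R949.WH
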