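import Pool.Agent.R949.WH.Par
set_option autoImplicit false

/-! # Joint continuity, density and non-integrability for the family of symbols -/

open MeasureTheory AddCircle Filter Topology Complex
open scoped ComplexConjugate ENNReal InnerProductSpace

namespace Pool.Agent.R949.WH

/-- vectors killed along a filter -/
def nullF {ι E F : Type*} [NormedAddCommGroup E] [NormedSpace ℂ E] [NormedAddCommGroup F]
    [NormedSpace ℂ F] (𝓕 : Filter ι) (L : ι → E →L[ℂ] F) : Submodule ℂ E where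
  carrier := {x | Tendsto (fun n => L n x) 𝓕 (𝓝 0)}
  add_mem' := by
    intro x y hx hy
    have := Tendsto.add (show Tendsto (fun n => L n x) 𝓕 (𝓝 0) from hx)
      (show Tendsto (fun n => L n y) 𝓕 (𝓝 0) from hy)
    rw [add_zero] at this
    exact this.congr fun n => (map_add (L n) x y).symm
  zero_mem' := by
    show Tendsto (fun n => L n 0) 𝓕 (𝓝 0)
    simp only [map_zero]
    exact tendsto_const_nhds
  smul_mem' := by
    intro c x hx
    have := Tendsto.const_smul (show Tendsto (fun n => L n x) 𝓕 (𝓝 0) from hx) c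
    rw [smul_zero] at this
    exact this.congr fun n => (map_smul (L n) c x).symm

lemma nullF_closed {ι E F : Type*} [NormedAddCommGroup E] [NormedSpace ℂ E]
    [NormedAddCommGroup F] [NormedSpace ℂ F] {𝓕 : Filter ι} (L : ι → E →L[ℂ] F) {C : ℝ}
    (hC0 : 0 ≤ C) (hC : ∀ n x, ‖L n x‖ ≤ C * ‖x‖) : IsClosed (nullF 𝓕 L : Set E) := by
  rw [← closure_subset_iff_isClosed]
  intro x hx
  show Tendsto (fun n => L n x) 𝓕 (𝓝 0)
  rw [Metric.tendsto_nhds]
  intro ε hε
  rw [Metric.mem_closure_iff] at hx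
  obtain ⟨y, hy, hxy⟩ := hx (ε / (2 * (C + 1))) (by positivity)
  have hy' : Tendsto (fun n => L n y) 𝓕 (𝓝 0) := hy
  rw [Metric.tendsto_nhds] at hy'
  filter_upwards [hy' (ε / 2) (by positivity)] with n h1
  rw [dist_zero_right] at h1 ⊢
  have h2 : L n x = L n y + L n (x - y) := by rw [← map_add]; congr 1; abel
  rw [h2]
  have h3 := hC n (x - y)
  rw [dist_eq_norm] at hxy
  have h4 : C * ‖x - y‖ ≤ ε / 2 := by
    have h5 : (C + 1) * ‖x - y‖ ≤ (C + 1) * (ε / (2 * (C + 1))) := by gcongr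
    have h6 : (C + 1) * (ε / (2 * (C + 1))) = ε / 2 := by field_simp
    have h7 : C * ‖x - y‖ ≤ (C + 1) * ‖x - y‖ := by gcongr; linarith
    linarith
  exact (norm_add_le _ _).trans_lt (by linarith)

lemma cont_aux {Λ : Type*} [TopologicalSpace Λ] {p : ℝ≥0∞} [Fact (1 ≤ p)]
    (A : Λ × Lp ℂ p mu → Lp ℂ p mu) (hA : Continuous A) (Q : Lp ℂ p mu →L[ℂ] hardy p) :
    Continuous (fun q : Λ × hardy p => Q (A (q.1, (q.2 : Lp ℂ p mu)))) := by
  have h1 : Continuous (fun q : Λ × hardy p => (q.1, (q.2 : Lp ℂ p mu))) :=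
    continuous_fst.prodMk (continuous_subtype_val.comp continuous_snd)
  exact Q.continuous.comp (hA.comp h1)

section fam

variable {P : Lp ℂ 2 mu →L[ℂ] Lp ℂ 2 mu} (hP : IsRiesz P)

lemma aL_tendsto (n : ℕ) (l0 : ℕ → ℝ) (f : Lp ℂ 2 mu) :
    Tendsto (fun l => aL hP n l f) (𝓝 l0) (𝓝 (aL hP n l0 f)) := by
  set L : (ℕ → ℝ) → Lp ℂ 2 mu →L[ℂ] Lp ℂ 2 mu := fun l => aL hP n l - aL hP n l0 with hL
  have hbd : ∀ l x, ‖L l x‖ ≤ (2 * Real.exp (n * 1)) * ‖x‖ := by
    intro l x
    have h1 := norm_aL_le hP n l x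
    have h2 := norm_aL_le hP n l0 x
    have h3 : L l x = aL hP n l x - aL hP n l0 x := rfl
    rw [h3]
    refine (norm_sub_le _ _).trans ?_
    linarith
  have hcl := nullF_closed (𝓕 := 𝓝 l0) L (by positivity) hbd
  have htop : nullF (𝓝 l0) L = ⊤ := by
    apply closed_eq_top (by simp) hcl
    intro k
    have h1 := (aL_fourier hP n l0 k).sub_const (aL hP n l0 (fourierLp 2 k))
    rw [sub_self] at h1
    exact h1
  have hf : f ∈ nullF (𝓝 l0) L := by rw [htop]; trivial
  have hf' : Tendsto (fun l => aL hP n l f - aL hP n l0 f) (𝓝 l0) (𝓝 0) := hf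
  exact tendsto_sub_nhds_zero_iff.1 hf'

lemma continuous_aL (n : ℕ) :
    Continuous (fun q : (ℕ → ℝ) × Lp ℂ 2 mu => aL hP n q.1 q.2) := by
  rw [continuous_iff_continuousAt]
  rintro ⟨l0, x0⟩
  have h1 : Tendsto (fun q : (ℕ → ℝ) × Lp ℂ 2 mu => aL hP n q.1 x0) (𝓝 (l0, x0))
      (𝓝 (aL hP n l0 x0)) :=
    (aL_tendsto hP n l0 x0).comp (continuous_fst.tendsto (l0, x0))
  have h2 : Tendsto (fun q : (ℕ → ℝ) × Lp ℂ 2 mu => aL hP n q.1 (q.2 - x0)) (𝓝 (l0, x0))
      (𝓝 0) := by
    apply squeeze_zero_norm (a := fun q : (ℕ → ℝ) × Lp ℂ 2 mu =>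
      Real.exp (n * 1) * ‖q.2 - x0‖)
    · intro q
      exact norm_aL_le hP n q.1 (q.2 - x0)
    · have h3 : Continuous (fun q : (ℕ → ℝ) × Lp ℂ 2 mu => Real.exp (n * 1) * ‖q.2 - x0‖) := by
        fun_prop
      have h4 := h3.tendsto (l0, x0)
      simpa using h4
  have h5 := h1.add h2
  rw [add_zero] at h5
  refine h5.congr fun q => ?_
  rw [map_sub]
  abel

/-- the operator applied to a parameter and a vector -/
noncomputable def TT (n : ℕ) (q : (ℕ → ℝ) × hardy 2) : hardy 2 := PH hP (aL hP n q.1 q.2)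

lemma continuous_TT (n : ℕ) : Continuous (TT hP n) :=
  cont_aux (p := 2) (fun q : (ℕ → ℝ) × Lp ℂ 2 mu => aL hP n q.1 q.2) (continuous_aL hP n) (PH hP)

/-- the good parameters -/
def goodP : Set (ℕ → ℝ) := {l | l 2 ≠ 0 ∧ ∃ J : ℕ, ∀ k, J ≤ k → l k = 0}

omit hP in
lemma dense_goodP : Dense goodP := by
  intro l0
  have h : Tendsto (fun m : ℕ => fun k : ℕ => if k = 2 then (if l0 2 = 0 then 1 / ((m : ℝ) + 1)
      else l0 2) else if k < m then l0 k else 0) atTop (𝓝 l0) := by
    rw [tendsto_pi_nhds]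
    intro k
    by_cases hk : k = 2
    · subst hk
      simp only [if_true]
      by_cases h0 : l0 2 = 0
      · simp only [h0, if_true]
        exact tendsto_one_div_add_atTop_nhds_zero_nat
      · simp only [h0, if_false]
        exact tendsto_const_nhds
    · simp only [hk, if_false]
      apply tendsto_const_nhds.congr'
      filter_upwards [eventually_gt_atTop k] with m hm
      rw [if_pos hm]
  refine mem_closure_of_tendsto h (Eventually.of_forall fun m => ?_)
  refine ⟨?_, m + 3, fun k hk => ?_⟩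
  · simp only [if_true]
    split_ifs with h0
    · positivity
    · exact h0
  · show (if k = 2 then _ else if k < m then l0 k else 0) = 0
    rw [if_neg (by omega), if_neg (by omega)]

include hP in
lemma stage_good {l : ℕ → ℝ} (hl : l ∈ goodP) (x z : hardy 2) (R : ℝ) {ε r : ℝ} (hε : 0 < ε)
    (hr : 0 < r) : ∃ x' : hardy 2, ‖x' - x‖ < r ∧ ∃ N, StageAt (fun n => TT hP n (l, x')) z R ε N := by
  obtain ⟨h2, J, hJ⟩ := hl
  set J' := max J 3 with hJ'
  set E : Set Circ := {t | J' ≤ jj t} with hE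
  have hEm : MeasurableSet E := measurable_jj (measurableSet_Ici (a := J'))
  have hE0 : mu E ≠ 0 := by
    have h1 : Aset J' ⊆ E := by
      intro t ht
      have : jj t = J' := ht
      show J' ≤ jj t
      exact this.ge
    have h3 := Aset_pos (k := J') (by omega)
    exact fun h => h3 (measure_mono_null h1 h)
  have hwE : ∀ t ∈ E, ww l t = 0 := by
    intro t ht
    have h1 : J' ≤ jj t := ht
    have h3 : l (jj t) = 0 := hJ _ (by omega)
    rw [ww, h3, abs_zero, min_eq_left (cc_pos _).le]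
  have hpos : 0 < ∫ t, ww l t ∂mu := by
    have hint : Integrable (ww l) mu := by
      refine (integrable_const (1 : ℝ)).mono' (measurable_ww l).aestronglyMeasurable ?_
      exact Eventually.of_forall fun t => by rw [Real.norm_eq_abs]; exact abs_ww l t
    rw [integral_pos_iff_support_of_nonneg (ww_nonneg l) hint]
    have h1 : Aset 2 ⊆ Function.support (ww l) := by
      intro t ht
      have h3 : jj t = 2 := ht
      rw [Function.mem_support, ww, h3]
      exact (lt_min (abs_pos.2 h2) (cc_pos 2)).ne'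
    exact (pos_iff_ne_zero.2 (Aset_pos le_rfl)).trans_le (measure_mono h1)
  exact stage_H hP le_rfl (sys_two hP (symL hP l) (ww_nonneg l) (ww_le_one l) hpos hEm hE0 hwE)
    x z R hε hr

theorem generic_par : ∀ᶠ q in residual ((ℕ → ℝ) × hardy 2), Hits (fun n => TT hP n q) := by
  apply generic_hits (TT hP) (continuous_TT hP)
  intro U hU hne z R ε hε
  obtain ⟨⟨l0, x0⟩, hq⟩ := hne
  obtain ⟨V, hV, W, hW, hVW⟩ := mem_nhds_prod_iff.1 (hU.mem_nhds hq)
  obtain ⟨V', hV'V, hV'o, hlV'⟩ := mem_nhds_iff.1 hV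
  obtain ⟨l, hl1, hl2⟩ := dense_goodP.inter_open_nonempty V' hV'o ⟨l0, hlV'⟩
  obtain ⟨r, hr, hball⟩ := Metric.mem_nhds_iff.1 hW
  obtain ⟨x', hx', N, hN⟩ := stage_good hP hl2 x0 z R hε hr
  refine ⟨(l, x'), hVW ⟨hV'V hl1, hball ?_⟩, N, hN⟩
  rw [Metric.mem_ball, dist_eq_norm]
  exact hx'

omit hP in
lemma residual_ne (k : ℕ) : ∀ᶠ q in residual ((ℕ → ℝ) × hardy 2), q.1 k ≠ 0 := by
  have hmap : IsOpenMap (fun q : (ℕ → ℝ) × hardy 2 => q.1 k) :=
    (isOpenMap_eval (X := fun _ : ℕ => ℝ) k).comp isOpenMap_fst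
  have hcont : Continuous (fun q : (ℕ → ℝ) × hardy 2 => q.1 k) :=
    (continuous_apply k).comp continuous_fst
  have h1 : Dense ({0}ᶜ : Set ℝ) := dense_compl_singleton 0
  exact residual_of_dense_open (isOpen_compl_singleton.preimage hcont) (h1.preimage hmap)

theorem exists_par : ∃ (l : ℕ → ℝ) (x : hardy 2), (∀ k, l k ≠ 0) ∧ Hits (fun n => TT hP n (l, x)) := by
  have h1 : ∀ᶠ q in residual ((ℕ → ℝ) × hardy 2), ∀ k, q.1 k ≠ 0 := by
    rw [eventually_countable_forall]
    exact residual_ne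
  obtain ⟨⟨l, x⟩, h2, h3⟩ := (dense_of_mem_residual (h1.and (generic_par hP))).nonempty
  exact ⟨l, x, h2, h3⟩

end fam

end Pool.Agent.R949.WH
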