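import Pool.Agent.R949.WH.Hardy
set_option autoImplicit false

/-! # The case `p = 4` -/

open MeasureTheory AddCircle Filter Topology Complex
open scoped ComplexConjugate ENNReal InnerProductSpace

namespace Pool.Agent.R949.WH

instance : Fact ((1 : ℝ≥0∞) ≤ 4) := ⟨by norm_num⟩

lemma norm_four (f : Lp ℂ 4 mu) : ‖f‖ ^ 4 = ∫ t, ‖f t‖ ^ 4 ∂mu := by
  have h := (Lp.memLp f).eLpNorm_eq_integral_rpow_norm (by norm_num) (by simp)
  rw [Lp.norm_def, h]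
  have h4 : (4 : ℝ≥0∞).toReal = 4 := by simp
  have h0 : 0 ≤ ∫ t, ‖f t‖ ^ (4 : ℝ≥0∞).toReal ∂mu := integral_nonneg fun t => by positivity
  rw [ENNReal.toReal_ofReal (by positivity), h4]
  rw [h4] at h0
  rw [← Real.rpow_natCast, ← Real.rpow_mul h0]
  norm_num

lemma int_four (f : Lp ℂ 4 mu) : Integrable (fun t => ‖f t‖ ^ 4) mu := by
  have := (Lp.memLp f).integrable_norm_pow (by norm_num : (4 : ℕ) ≠ 0)
  exact this

/-- pointwise inequality -/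
lemma pt_ineq (p n : ℂ) : ‖p ^ 2 - n ^ 2‖ ^ 2 ≤
    (1 / 2) * (‖p‖ ^ 4 + ‖n‖ ^ 4) + 4 * ‖p + n‖ ^ 4 := by
  have h1 : ‖p ^ 2 - n ^ 2‖ = ‖p - n‖ * ‖p + n‖ := by
    rw [← norm_mul]; congr 1; ring
  have h2 : ‖p - n‖ ≤ ‖p‖ + ‖n‖ := norm_sub_le _ _
  have hf : ∀ x y : ℝ, (x + y) ^ 4 ≤ 8 * (x ^ 4 + y ^ 4) := fun x y => by
    nlinarith [sq_nonneg (x - y), sq_nonneg (x + y), sq_nonneg (x ^ 2 - y ^ 2),
      sq_nonneg ((x - y) ^ 2), sq_nonneg (x ^ 2 + y ^ 2 - 2 * x * y),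
      mul_nonneg (sq_nonneg (x - y)) (sq_nonneg (x + y)),
      mul_nonneg (sq_nonneg (x - y)) (add_nonneg (sq_nonneg x) (sq_nonneg y))]
  have h3 : ‖p - n‖ ^ 4 ≤ 8 * (‖p‖ ^ 4 + ‖n‖ ^ 4) := by
    have h4 : ‖p - n‖ ^ 4 ≤ (‖p‖ + ‖n‖) ^ 4 := pow_le_pow_left₀ (norm_nonneg _) h2 4
    exact h4.trans (hf _ _)
  rw [h1, mul_pow]
  nlinarith [sq_nonneg (‖p - n‖ ^ 2 / 4 - 2 * ‖p + n‖ ^ 2)]

lemma norm_sub_sq' (x y : ℂ) : ‖x - y‖ ^ 2 = ‖x‖ ^ 2 + ‖y‖ ^ 2 - 2 * (conj x * y).re := by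
  rw [← Complex.normSq_eq_norm_sq, ← Complex.normSq_eq_norm_sq, ← Complex.normSq_eq_norm_sq,
    Complex.normSq_apply, Complex.normSq_apply, Complex.normSq_apply]
  simp
  ring

lemma int_cont_real {f : Circ → ℝ} (hf : Continuous f) : Integrable f mu :=
  hf.integrable_of_hasCompactSupport (HasCompactSupport.of_compactSpace _)

lemma riesz_four_ineq (a b : Polynomial ℂ) :
    ∫ t, ‖pc a t‖ ^ 4 ∂mu ≤ 8 * ∫ t, ‖pc a t + ncC b t‖ ^ 4 ∂mu := by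
  have hx := continuous_pc a
  have hy := (ncC b).continuous
  have horth : ∫ t, conj (pc a t ^ 2) * (ncC b t) ^ 2 ∂mu = 0 := by
    rw [← int_conj_pc_ncC (a ^ 2) (Polynomial.X * b ^ 2)]
    refine integral_congr_ae (Eventually.of_forall fun t => ?_)
    simp only [pc_pow]
    congr 1
    simp only [ncC, ContinuousMap.coe_mk, Polynomial.eval_mul, Polynomial.eval_X,
      Polynomial.eval_pow]
    ring
  have i1 : Integrable (fun t => ‖pc a t‖ ^ 4) mu := int_cont_real (hx.norm.pow 4)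
  have i2 : Integrable (fun t => ‖ncC b t‖ ^ 4) mu := int_cont_real (hy.norm.pow 4)
  have i3 : Integrable (fun t => ‖pc a t + ncC b t‖ ^ 4) mu :=
    int_cont_real ((hx.add hy).norm.pow 4)
  have i4 : Integrable (fun t => conj (pc a t ^ 2) * (ncC b t) ^ 2) mu :=
    integrable_cont ((continuous_conj.comp (hx.pow 2)).mul (hy.pow 2))
  have i5 : Integrable (fun t => ‖(pc a t) ^ 2 - (ncC b t) ^ 2‖ ^ 2) mu :=
    int_cont_real (((hx.pow 2).sub (hy.pow 2)).norm.pow 2)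
  have h1 : ∫ t, ‖(pc a t) ^ 2 - (ncC b t) ^ 2‖ ^ 2 ∂mu =
      (∫ t, ‖pc a t‖ ^ 4 ∂mu) + ∫ t, ‖ncC b t‖ ^ 4 ∂mu := by
    have h2 : ∀ t, ‖(pc a t) ^ 2 - (ncC b t) ^ 2‖ ^ 2 = (‖pc a t‖ ^ 4 + ‖ncC b t‖ ^ 4) -
        2 * (conj (pc a t ^ 2) * (ncC b t) ^ 2).re := by
      intro t
      rw [norm_sub_sq', norm_pow, norm_pow]; ring
    simp_rw [h2]
    have h3 : ∫ t, (conj (pc a t ^ 2) * (ncC b t) ^ 2).re ∂mu = 0 := by
      have := integral_re i4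
      rw [horth] at this
      simpa using this
    have i12 : Integrable (fun t => ‖pc a t‖ ^ 4 + ‖ncC b t‖ ^ 4) mu := i1.add i2
    have i4r : Integrable (fun t => (conj (pc a t ^ 2) * (ncC b t) ^ 2).re) mu := i4.re
    rw [integral_sub i12 (i4r.const_mul 2), integral_add i1 i2, integral_const_mul, h3]
    ring
  have h5 : ∫ t, ‖(pc a t) ^ 2 - (ncC b t) ^ 2‖ ^ 2 ∂mu ≤
      (1 / 2) * ((∫ t, ‖pc a t‖ ^ 4 ∂mu) + ∫ t, ‖ncC b t‖ ^ 4 ∂mu) +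
        4 * ∫ t, ‖pc a t + ncC b t‖ ^ 4 ∂mu := by
    calc ∫ t, ‖(pc a t) ^ 2 - (ncC b t) ^ 2‖ ^ 2 ∂mu ≤
        ∫ t, ((1 / 2) * (‖pc a t‖ ^ 4 + ‖ncC b t‖ ^ 4) + 4 * ‖pc a t + ncC b t‖ ^ 4) ∂mu := by
          apply integral_mono i5 (((i1.add i2).const_mul _).add (i3.const_mul _))
          intro t
          exact pt_ineq _ _
      _ = _ := by
          have i12 : Integrable (fun t => ‖pc a t‖ ^ 4 + ‖ncC b t‖ ^ 4) mu := i1.add i2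
          rw [integral_add (i12.const_mul (1 / 2)) (i3.const_mul 4), integral_const_mul,
            integral_const_mul, integral_add i1 i2]
  have h6 : 0 ≤ ∫ t, ‖ncC b t‖ ^ 4 ∂mu := integral_nonneg fun t => by positivity
  linarith

theorem exists_riesz4 : ∃ P : Lp ℂ 4 mu →L[ℂ] Lp ℂ 4 mu, IsRiesz P := by
  apply exists_riesz (by simp) 2
  intro a b
  have h1 := riesz_four_ineq a b
  have e1 : ‖ContinuousMap.toLp (E := ℂ) 4 mu ℂ (pcC a)‖ ^ 4 = ∫ t, ‖pc a t‖ ^ 4 ∂mu := by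
    rw [norm_four]
    refine integral_congr_ae ?_
    filter_upwards [ContinuousMap.coeFn_toLp (p := 4) (𝕜 := ℂ) mu (pcC a)] with t ht
    rw [ht]; rfl
  have e2 : ‖ContinuousMap.toLp (E := ℂ) 4 mu ℂ (pcC a + ncC b)‖ ^ 4 =
      ∫ t, ‖pc a t + ncC b t‖ ^ 4 ∂mu := by
    rw [norm_four]
    refine integral_congr_ae ?_
    filter_upwards [ContinuousMap.coeFn_toLp (p := 4) (𝕜 := ℂ) mu (pcC a + ncC b)] with t ht
    rw [ht]; rfl
  rw [← e1, ← e2] at h1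
  apply le_of_pow_le_pow_left₀ (n := 4) (by norm_num) (by positivity)
  rw [mul_pow]
  have : 0 ≤ ‖ContinuousMap.toLp (E := ℂ) 4 mu ℂ (pcC a + ncC b)‖ ^ 4 := by positivity
  linarith

lemma pt_four (a b : ℂ) : ‖a + b‖ ^ 4 ≤ ‖a‖ ^ 4 + ‖b‖ ^ 4 + 6 * (‖a‖ ^ 2 * ‖b‖ ^ 2) +
    4 * ((conj a * b).re * (‖a‖ ^ 2 + ‖b‖ ^ 2)) := by
  set ρ := (conj a * b).re with hρ
  have h1 : ‖a + b‖ ^ 2 = ‖a‖ ^ 2 + ‖b‖ ^ 2 + 2 * ρ := by
    have := norm_sub_sq' a (-b)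
    rw [sub_neg_eq_add, norm_neg, mul_neg, Complex.neg_re] at this
    rw [this]; ring
  have h2 : ρ ^ 2 ≤ ‖a‖ ^ 2 * ‖b‖ ^ 2 := by
    have h3 : |ρ| ≤ ‖a‖ * ‖b‖ := by
      refine (Complex.abs_re_le_norm _).trans ?_
      rw [norm_mul, RCLike.norm_conj]
    have h4 := pow_le_pow_left₀ (abs_nonneg _) h3 2
    rw [sq_abs, mul_pow] at h4
    exact h4
  have h5 : ‖a + b‖ ^ 4 = (‖a + b‖ ^ 2) ^ 2 := by ring
  rw [h5, h1]
  nlinarith

lemma four_aux (a f : Lp ℂ 4 mu) (b : ℕ → Lp ℂ 4 mu) (hb : ∀ n, ∀ᵐ t ∂mu, ‖b n t‖ = ‖f t‖)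
    (hlim : Tendsto (fun n => ∫ t, conj (a t) * ((‖a t‖ ^ 2 + ‖f t‖ ^ 2 : ℝ) : ℂ) * b n t ∂mu)
      atTop (𝓝 0)) {ε : ℝ} (hε : 0 < ε) :
    ∀ᶠ n in atTop, ‖a + b n‖ ^ 2 ≤ ‖a‖ ^ 2 + 3 * ‖f‖ ^ 2 + ε := by
  have hre := (Complex.continuous_re.tendsto (0 : ℂ)).comp hlim
  rw [Complex.zero_re] at hre
  filter_upwards [hre.eventually_lt_const (show (0 : ℝ) < ε ^ 2 / 4 by positivity)] with n hn
  have ia := int_four a
  have ifn := int_four f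
  have iab := int_four (a + b n)
  have haf : Integrable (fun t => ‖a t‖ ^ 2 * ‖f t‖ ^ 2) mu := by
    refine (ia.add ifn).mono' (((Lp.aestronglyMeasurable a).norm.pow 2).mul
      ((Lp.aestronglyMeasurable f).norm.pow 2)) (Eventually.of_forall fun t => ?_)
    rw [Real.norm_of_nonneg (by positivity), Pi.add_apply]
    nlinarith [sq_nonneg (‖a t‖ ^ 2 - ‖f t‖ ^ 2), sq_nonneg (‖a t‖ ^ 2), sq_nonneg (‖f t‖ ^ 2)]
  have hφ : Integrable (fun t => conj (a t) * ((‖a t‖ ^ 2 + ‖f t‖ ^ 2 : ℝ) : ℂ) * b n t) mu := by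
    refine ((ia.add ifn).const_mul 2).mono' ?_ ?_
    · refine ((continuous_conj.comp_aestronglyMeasurable (Lp.aestronglyMeasurable a)).mul ?_).mul
        (Lp.aestronglyMeasurable (b n))
      exact Complex.continuous_ofReal.comp_aestronglyMeasurable
        (((Lp.aestronglyMeasurable a).norm.pow 2).add ((Lp.aestronglyMeasurable f).norm.pow 2))
    · filter_upwards [hb n] with t ht
      rw [norm_mul, norm_mul, RCLike.norm_conj, Complex.norm_real,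
        Real.norm_of_nonneg (by positivity), ht, Pi.add_apply]
      nlinarith [sq_nonneg (‖a t‖ ^ 2 - ‖f t‖ ^ 2), sq_nonneg (‖a t‖ - ‖f t‖),
        mul_nonneg (norm_nonneg (a t)) (norm_nonneg (f t)),
        mul_nonneg (mul_nonneg (norm_nonneg (a t)) (norm_nonneg (f t)))
          (sq_nonneg (‖a t‖ - ‖f t‖)), sq_nonneg (‖a t‖ ^ 2), sq_nonneg (‖f t‖ ^ 2),
        mul_nonneg (sq_nonneg (‖a t‖ - ‖f t‖)) (sq_nonneg (‖a t‖ + ‖f t‖))]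
  -- integral inequality
  have h1 : ‖a + b n‖ ^ 4 ≤ ‖a‖ ^ 4 + ‖f‖ ^ 4 + 6 * ∫ t, ‖a t‖ ^ 2 * ‖f t‖ ^ 2 ∂mu +
      4 * (∫ t, conj (a t) * ((‖a t‖ ^ 2 + ‖f t‖ ^ 2 : ℝ) : ℂ) * b n t ∂mu).re := by
    rw [norm_four, norm_four, norm_four]
    have h2 : (∫ t, conj (a t) * ((‖a t‖ ^ 2 + ‖f t‖ ^ 2 : ℝ) : ℂ) * b n t ∂mu).re =
        ∫ t, (conj (a t) * ((‖a t‖ ^ 2 + ‖f t‖ ^ 2 : ℝ) : ℂ) * b n t).re ∂mu :=
      (integral_re hφ).symm
    have hφr : Integrable (fun t => (conj (a t) * ((‖a t‖ ^ 2 + ‖f t‖ ^ 2 : ℝ) : ℂ) * b n t).re)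
      mu := hφ.re
    have j1 : Integrable (fun t => ‖a t‖ ^ 4 + ‖f t‖ ^ 4) mu := ia.add ifn
    have j2 : Integrable (fun t => ‖a t‖ ^ 4 + ‖f t‖ ^ 4 + 6 * (‖a t‖ ^ 2 * ‖f t‖ ^ 2)) mu :=
      j1.add (haf.const_mul 6)
    have j3 : Integrable (fun t => ‖a t‖ ^ 4 + ‖f t‖ ^ 4 + 6 * (‖a t‖ ^ 2 * ‖f t‖ ^ 2) +
        4 * (conj (a t) * ((‖a t‖ ^ 2 + ‖f t‖ ^ 2 : ℝ) : ℂ) * b n t).re) mu :=
      j2.add (hφr.const_mul 4)
    rw [h2, ← integral_const_mul, ← integral_const_mul, ← integral_add ia ifn,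
      ← integral_add j1 (haf.const_mul 6), ← integral_add j2 (hφr.const_mul 4)]
    apply integral_mono_ae iab j3
    filter_upwards [Lp.coeFn_add a (b n), hb n] with t ht hbt
    rw [ht, Pi.add_apply]
    have h3 := pt_four (a t) (b n t)
    rw [hbt] at h3
    have h4 : (conj (a t) * ((‖a t‖ ^ 2 + ‖f t‖ ^ 2 : ℝ) : ℂ) * b n t).re =
        (conj (a t) * b n t).re * (‖a t‖ ^ 2 + ‖f t‖ ^ 2) := by
      have : conj (a t) * ((‖a t‖ ^ 2 + ‖f t‖ ^ 2 : ℝ) : ℂ) * b n t =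
        ((‖a t‖ ^ 2 + ‖f t‖ ^ 2 : ℝ) : ℂ) * (conj (a t) * b n t) := by ring
      rw [this, Complex.re_ofReal_mul]; ring
    rw [h4]
    exact h3
  -- Cauchy-Schwarz
  have hcs : ∫ t, ‖a t‖ ^ 2 * ‖f t‖ ^ 2 ∂mu ≤ ‖a‖ ^ 2 * ‖f‖ ^ 2 := by
    have hA := norm_four a
    have hF := norm_four f
    rcases (norm_nonneg a).eq_or_lt with h0 | h0
    · have ha0 : a = 0 := norm_eq_zero.1 h0.symm
      have : ∫ t, ‖a t‖ ^ 2 * ‖f t‖ ^ 2 ∂mu = 0 := by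
        apply integral_eq_zero_of_ae
        rw [ha0]
        filter_upwards [Lp.coeFn_zero ℂ 4 mu] with t ht
        rw [ht]; simp
      rw [this]; positivity
    rcases (norm_nonneg f).eq_or_lt with h0' | h0'
    · have ha0 : f = 0 := norm_eq_zero.1 h0'.symm
      have : ∫ t, ‖a t‖ ^ 2 * ‖f t‖ ^ 2 ∂mu = 0 := by
        apply integral_eq_zero_of_ae
        rw [ha0]
        filter_upwards [Lp.coeFn_zero ℂ 4 mu] with t ht
        rw [ht]; simp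
      rw [this]; positivity
    set κ : ℝ := ‖f‖ ^ 2 / ‖a‖ ^ 2 with hκ
    have hκ0 : 0 < κ := by positivity
    calc ∫ t, ‖a t‖ ^ 2 * ‖f t‖ ^ 2 ∂mu ≤
        ∫ t, (κ / 2 * ‖a t‖ ^ 4 + κ⁻¹ / 2 * ‖f t‖ ^ 4) ∂mu := by
          apply integral_mono haf ((ia.const_mul _).add (ifn.const_mul _))
          intro t
          simp only [Pi.add_apply]
          have h5 : 0 ≤ κ⁻¹ * (κ * ‖a t‖ ^ 2 - ‖f t‖ ^ 2) ^ 2 := by positivity
          have h6 : κ⁻¹ * (κ * ‖a t‖ ^ 2 - ‖f t‖ ^ 2) ^ 2 =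
              κ * ‖a t‖ ^ 4 + κ⁻¹ * ‖f t‖ ^ 4 - 2 * (‖a t‖ ^ 2 * ‖f t‖ ^ 2) := by
            field_simp
            ring
          rw [h6] at h5
          linarith
      _ = κ / 2 * ‖a‖ ^ 4 + κ⁻¹ / 2 * ‖f‖ ^ 4 := by
          rw [integral_add (ia.const_mul _) (ifn.const_mul _), integral_const_mul,
            integral_const_mul, hA, hF]
      _ = ‖a‖ ^ 2 * ‖f‖ ^ 2 := by
          rw [hκ]
          field_simp
          ring
  have h7 : ‖a + b n‖ ^ 4 ≤ (‖a‖ ^ 2 + 3 * ‖f‖ ^ 2 + ε) ^ 2 := by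
    have h8 : (∫ t, conj (a t) * ((‖a t‖ ^ 2 + ‖f t‖ ^ 2 : ℝ) : ℂ) * b n t ∂mu).re < ε ^ 2 / 4 := hn
    have h9 : 0 ≤ ‖a‖ ^ 2 := by positivity
    have h10 : 0 ≤ ‖f‖ ^ 2 := by positivity
    nlinarith [mul_nonneg h9 h10, mul_nonneg h9 hε.le, mul_nonneg h10 hε.le]
  have h11 : (‖a + b n‖ ^ 2) ^ 2 ≤ (‖a‖ ^ 2 + 3 * ‖f‖ ^ 2 + ε) ^ 2 := by
    calc (‖a + b n‖ ^ 2) ^ 2 = ‖a + b n‖ ^ 4 := by ring
      _ ≤ _ := h7
  exact le_of_sq_le_sq h11 (by positivity)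

variable {w : Circ → ℝ} {F : Circ → ℂ}

lemma int_phi (a f : Lp ℂ 4 mu) :
    Integrable (fun t => conj (a t) * ((‖a t‖ ^ 2 + ‖f t‖ ^ 2 : ℝ) : ℂ) * f t) mu := by
  have ia := int_four a
  have ifn := int_four f
  refine ((ia.add ifn).const_mul 2).mono' ?_ ?_
  · refine ((continuous_conj.comp_aestronglyMeasurable (Lp.aestronglyMeasurable a)).mul ?_).mul
      (Lp.aestronglyMeasurable f)
    exact Complex.continuous_ofReal.comp_aestronglyMeasurable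
      (((Lp.aestronglyMeasurable a).norm.pow 2).add ((Lp.aestronglyMeasurable f).norm.pow 2))
  · refine Eventually.of_forall fun t => ?_
    rw [norm_mul, norm_mul, RCLike.norm_conj, Complex.norm_real,
      Real.norm_of_nonneg (by positivity), Pi.add_apply]
    nlinarith [sq_nonneg (‖a t‖ ^ 2 - ‖f t‖ ^ 2), sq_nonneg (‖a t‖ - ‖f t‖),
      mul_nonneg (norm_nonneg (a t)) (norm_nonneg (f t)),
      mul_nonneg (mul_nonneg (norm_nonneg (a t)) (norm_nonneg (f t)))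
        (sq_nonneg (‖a t‖ - ‖f t‖)), sq_nonneg (‖a t‖ ^ 2), sq_nonneg (‖f t‖ ^ 2),
      mul_nonneg (sq_nonneg (‖a t‖ - ‖f t‖)) (sq_nonneg (‖a t‖ + ‖f t‖))]

theorem sys_four {P : Lp ℂ 4 mu →L[ℂ] Lp ℂ 4 mu} (hP : IsRiesz P)
    {P2 : Lp ℂ 2 mu →L[ℂ] Lp ℂ 2 mu} (hP2 : IsRiesz P2)
    (hs : IsSym w F) {C : ℝ} (hw0 : ∀ t, 0 ≤ w t) (hC : ∀ t, w t ≤ C)
    (hpos : 0 < ∫ t, w t ∂mu) {E : Set Circ} (hE : MeasurableSet E) (hE0 : mu E ≠ 0)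
    (hwE : ∀ t ∈ E, w t = 0) :
    Sys (offSub 4 E) (opA 4 hs hC) (opB 4 hs hw0) P 3 := by
  apply mkSys hP (by norm_num) (by simp) hP2 hs hw0 hC hpos hE hE0 hwE (by norm_num)
  · intro G _ h hh ε hε
    have hh' : ∀ᵐ t ∂mu, t ∉ E → h t = 0 := hh
    apply four_aux G h _ _ _ hε
    · intro n
      filter_upwards [coeFn_opB hs hw0 n h, hh'] with t h1 h2
      rw [h1, norm_mul, RCLike.norm_conj, norm_Ex]
      by_cases ht : t ∈ E
      · rw [hwE t ht, mul_zero, Real.exp_zero, one_mul]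
      · rw [h2 ht, norm_zero, mul_zero]
    · refine (RL_conj hs hw0 hC hpos (int_phi G h)).congr fun n => ?_
      refine integral_congr_ae ?_
      filter_upwards [coeFn_opB hs hw0 n h] with t h1
      rw [h1]; ring
  · intro S _ G hG ε hε
    have hG' : ∀ᵐ t ∂mu, t ∉ E → G t = 0 := hG
    apply four_aux S G _ _ _ hε
    · intro n
      filter_upwards [coeFn_opA hs hC n G, hG'] with t h1 h2
      rw [h1, norm_mul, RCLike.norm_conj, norm_Ex]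
      by_cases ht : t ∈ E
      · rw [hwE t ht, mul_zero, Real.exp_zero, one_mul]
      · rw [h2 ht, norm_zero, mul_zero]
    · refine (RL hs hw0 hC hpos (int_phi S G)).congr fun n => ?_
      refine integral_congr_ae ?_
      filter_upwards [coeFn_opA hs hC n G, hG'] with t h1 h2
      rw [h1]
      by_cases ht : t ∈ E
      · rw [conj_Ex_of_zero (hwE t ht)]; ring
      · rw [h2 ht]; ring

end Pool.Agent.R949.WH
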