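import Pool.Agent.R949.WH.Circ
set_option autoImplicit false

/-! # Multiplication operators, coefficients and the Riesz projection on `L^p` of the circle -/

open MeasureTheory AddCircle Filter Topology Complex
open scoped ComplexConjugate ENNReal

namespace Pool.Agent.R949.WH

variable {p : ℝ≥0∞} [Fact (1 ≤ p)]

lemma Lp_integrable (f : Lp ℂ p mu) : Integrable f mu :=
  (Lp.memLp f).integrable (Fact.out : 1 ≤ p)

lemma int_norm_le (f : Lp ℂ p mu) : ∫ t, ‖f t‖ ∂mu ≤ ‖f‖ := by
  have h1 : eLpNorm f 1 mu ≤ eLpNorm f p mu :=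
    eLpNorm_le_eLpNorm_of_exponent_le Fact.out (Lp.aestronglyMeasurable f)
  have h2 : ∫ t, ‖f t‖ ∂mu = (eLpNorm f 1 mu).toReal := by
    rw [integral_norm_eq_lintegral_enorm (Lp.aestronglyMeasurable f),
      eLpNorm_one_eq_lintegral_enorm]
  rw [h2, Lp.norm_def]
  exact ENNReal.toReal_mono (Lp.eLpNorm_ne_top f) h1

/-- integration against a bounded function -/
noncomputable def intL (p : ℝ≥0∞) [Fact (1 ≤ p)] (k : Circ → ℂ) (hk : AEStronglyMeasurable k mu)
    (K : ℝ) (hK : ∀ t, ‖k t‖ ≤ K) : Lp ℂ p mu →L[ℂ] ℂ :=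
  LinearMap.mkContinuous
    { toFun := fun f => ∫ t, f t * k t ∂mu
      map_add' := by
        intro f g
        rw [← integral_add (integrable_mul_bdd (Lp_integrable f) hk hK)
          (integrable_mul_bdd (Lp_integrable g) hk hK)]
        refine integral_congr_ae ?_
        filter_upwards [Lp.coeFn_add f g] with t ht
        rw [ht, Pi.add_apply]; ring
      map_smul' := by
        intro c f
        rw [RingHom.id_apply, smul_eq_mul, ← integral_const_mul]
        refine integral_congr_ae ?_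
        filter_upwards [Lp.coeFn_smul c f] with t ht
        rw [ht, Pi.smul_apply, smul_eq_mul]; ring }
    K (by
      intro f
      have hK0 : 0 ≤ K := (norm_nonneg _).trans (hK 0)
      simp only [LinearMap.coe_mk, AddHom.coe_mk]
      calc ‖∫ t, f t * k t ∂mu‖ ≤ ∫ t, K * ‖f t‖ ∂mu := by
            refine norm_integral_le_of_norm_le ((Lp_integrable f).norm.const_mul K)
              (Eventually.of_forall fun t => ?_)
            rw [norm_mul, mul_comm]
            exact mul_le_mul_of_nonneg_right (hK t) (norm_nonneg _)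
        _ = K * ∫ t, ‖f t‖ ∂mu := integral_const_mul _ _
        _ ≤ K * ‖f‖ := by gcongr; exact int_norm_le f)

@[simp] lemma intL_apply (k : Circ → ℂ) (hk : AEStronglyMeasurable k mu)
    (K : ℝ) (hK : ∀ t, ‖k t‖ ≤ K) (f : Lp ℂ p mu) :
    intL p k hk K hK f = ∫ t, f t * k t ∂mu := rfl

/-- the Fourier coefficients as functionals -/
noncomputable def coeffL (p : ℝ≥0∞) [Fact (1 ≤ p)] (n : ℤ) : Lp ℂ p mu →L[ℂ] ℂ :=
  intL p (fun t => (fourier (-n) t : ℂ)) (fourier (-n) : C(Circ, ℂ)).continuous.aestronglyMeasurable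
    1 (fun t => (norm_fourier_apply _ t).le)

lemma coeffL_apply (n : ℤ) (f : Lp ℂ p mu) : coeffL p n f = fourierCoeff f n := by
  unfold coeffL fourierCoeff
  rw [intL_apply]
  refine integral_congr_ae (Eventually.of_forall fun t => ?_)
  simp only [smul_eq_mul]; ring

/-- the Cauchy transform as a functional -/
noncomputable def evL (p : ℝ≥0∞) [Fact (1 ≤ p)] {z : ℂ} (hz : ‖z‖ < 1) : Lp ℂ p mu →L[ℂ] ℂ :=
  intL p (fun t => ((1 : ℂ) - z * fourier (-1) t)⁻¹) (continuous_kernel hz).aestronglyMeasurable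
    _ (norm_kernel_le hz)

lemma evL_apply {z : ℂ} (hz : ‖z‖ < 1) (f : Lp ℂ p mu) : evL p hz f = ev z f := rfl

omit [Fact (1 ≤ p)] in
lemma memLp_mul {G : Circ → ℂ} (hG : AEStronglyMeasurable G mu) {C : ℝ} (hC : ∀ t, ‖G t‖ ≤ C)
    {f : Circ → ℂ} (hf : MemLp f p mu) : MemLp (fun t => G t * f t) p mu :=
  hf.of_le_mul (c := C) (hG.mul hf.1) (Eventually.of_forall fun t => by
    rw [norm_mul]
    exact mul_le_mul_of_nonneg_right (hC t) (norm_nonneg _))

/-- multiplication by a bounded function -/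
noncomputable def mulOp (p : ℝ≥0∞) [Fact (1 ≤ p)] (G : Circ → ℂ) (hG : AEStronglyMeasurable G mu)
    (C : ℝ) (hC : ∀ t, ‖G t‖ ≤ C) : Lp ℂ p mu →L[ℂ] Lp ℂ p mu :=
  LinearMap.mkContinuous
    { toFun := fun f => (memLp_mul hG hC (Lp.memLp f)).toLp
      map_add' := by
        intro f g
        apply Lp.ext
        filter_upwards [Lp.coeFn_add f g, MemLp.coeFn_toLp (memLp_mul hG hC (Lp.memLp f)),
          MemLp.coeFn_toLp (memLp_mul hG hC (Lp.memLp g)),
          MemLp.coeFn_toLp (memLp_mul hG hC (Lp.memLp (f + g))),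
          Lp.coeFn_add (memLp_mul hG hC (Lp.memLp f)).toLp
            (memLp_mul hG hC (Lp.memLp g)).toLp] with t h1 h2 h3 h4 h5
        rw [h4, h5, Pi.add_apply, h2, h3, h1, Pi.add_apply]; ring
      map_smul' := by
        intro c f
        apply Lp.ext
        filter_upwards [Lp.coeFn_smul c f, MemLp.coeFn_toLp (memLp_mul hG hC (Lp.memLp f)),
          MemLp.coeFn_toLp (memLp_mul hG hC (Lp.memLp (c • f))),
          Lp.coeFn_smul c (memLp_mul hG hC (Lp.memLp f)).toLp] with t h1 h2 h4 h5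
        rw [h4, RingHom.id_apply, h5, Pi.smul_apply, h2, h1, Pi.smul_apply]
        simp only [smul_eq_mul]; ring }
    C (by
      intro f
      apply Lp.norm_le_mul_norm_of_ae_le_mul
      filter_upwards [MemLp.coeFn_toLp (memLp_mul hG hC (Lp.memLp f))] with t h2
      simp only [LinearMap.coe_mk, AddHom.coe_mk]
      rw [h2, norm_mul]
      exact mul_le_mul_of_nonneg_right (hC t) (norm_nonneg _))

lemma coeFn_mulOp (G : Circ → ℂ) (hG : AEStronglyMeasurable G mu)
    (C : ℝ) (hC : ∀ t, ‖G t‖ ≤ C) (f : Lp ℂ p mu) :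
    mulOp p G hG C hC f =ᵐ[mu] fun t => G t * f t :=
  MemLp.coeFn_toLp (memLp_mul hG hC (Lp.memLp f))

lemma norm_mulOp_le (G : Circ → ℂ) (hG : AEStronglyMeasurable G mu)
    (C : ℝ) (hC : ∀ t, ‖G t‖ ≤ C) (f : Lp ℂ p mu) : ‖mulOp p G hG C hC f‖ ≤ C * ‖f‖ := by
  apply Lp.norm_le_mul_norm_of_ae_le_mul
  filter_upwards [coeFn_mulOp G hG C hC f] with t h2
  rw [h2, norm_mul]
  exact mul_le_mul_of_nonneg_right (hC t) (norm_nonneg _)

lemma closed_eq_top (hpt : p ≠ ∞) {K : Submodule ℂ (Lp ℂ p mu)}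
    (hK : IsClosed (K : Set (Lp ℂ p mu))) (h : ∀ n, fourierLp p n ∈ K) : K = ⊤ := by
  rw [eq_top_iff, ← span_fourierLp_closure_eq_top (T := (1 : ℝ)) hpt]
  apply Submodule.topologicalClosure_minimal _ _ hK
  rw [Submodule.span_le]
  rintro _ ⟨n, rfl⟩
  exact h n

lemma coeff_inj2 {f : Lp ℂ 2 mu} (h : ∀ n, fourierCoeff f n = 0) : f = 0 := by
  have h1 : (fourierBasis (T := (1 : ℝ))).repr f = 0 := by
    ext n
    rw [fourierBasis_repr, h n]; rfl
  exact (LinearIsometryEquiv.map_eq_zero_iff _).1 h1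

omit [Fact (1 ≤ p)] in
lemma coeff_inj (hp : 2 ≤ p) {f : Lp ℂ p mu} (h : ∀ n, fourierCoeff f n = 0) : f = 0 := by
  have hm : MemLp f 2 mu := (Lp.memLp f).mono_exponent hp
  have h1 : hm.toLp = 0 := by
    apply coeff_inj2
    intro n
    rw [fourierCoeff_congr_ae hm.coeFn_toLp, h n]
  apply Lp.ext
  have h2 := hm.coeFn_toLp
  rw [h1] at h2
  exact h2.symm.trans ((Lp.coeFn_zero ℂ 2 mu).trans (Lp.coeFn_zero ℂ p mu).symm)

lemma coeff_ext (hp : 2 ≤ p) {f g : Lp ℂ p mu} (h : ∀ n, fourierCoeff f n = fourierCoeff g n) :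
    f = g := by
  rw [← sub_eq_zero]
  apply coeff_inj hp
  intro n
  rw [← coeffL_apply, map_sub, coeffL_apply, coeffL_apply, h n, sub_self]

lemma coeff_fourierLp (k n : ℤ) : fourierCoeff (fourierLp (T := (1 : ℝ)) p k) n =
    if n = k then 1 else 0 := by
  rw [fourierCoeff_congr_ae (coeFn_fourierLp p k)]
  exact coeff_fourier k n

/-- `P` is the Riesz projection -/
def IsRiesz (P : Lp ℂ p mu →L[ℂ] Lp ℂ p mu) : Prop :=
  ∀ (f : Lp ℂ p mu) (n : ℤ), fourierCoeff (P f) n = if 0 ≤ n then fourierCoeff f n else 0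

lemma IsRiesz.eq_self {P : Lp ℂ p mu →L[ℂ] Lp ℂ p mu} (hP : IsRiesz P) (hp : 2 ≤ p)
    {f : Lp ℂ p mu} (hf : ∀ n < 0, fourierCoeff f n = 0) : P f = f := by
  apply coeff_ext hp
  intro n
  rw [hP]
  split_ifs with h
  · rfl
  · rw [hf n (not_le.1 h)]

lemma IsRiesz.eq_zero {P : Lp ℂ p mu →L[ℂ] Lp ℂ p mu} (hP : IsRiesz P) (hp : 2 ≤ p)
    {f : Lp ℂ p mu} (hf : ∀ n, 0 ≤ n → fourierCoeff f n = 0) : P f = 0 := by
  apply coeff_inj hp
  intro n
  rw [hP]
  split_ifs with h
  · exact hf n h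
  · rfl

lemma IsRiesz.idem {P : Lp ℂ p mu →L[ℂ] Lp ℂ p mu} (hP : IsRiesz P) (hp : 2 ≤ p)
    (f : Lp ℂ p mu) : P (P f) = P f := by
  apply hP.eq_self hp
  intro n hn
  rw [hP, if_neg (not_le.2 hn)]

lemma IsRiesz.fourier_nat {P : Lp ℂ p mu →L[ℂ] Lp ℂ p mu} (hP : IsRiesz P) (hp : 2 ≤ p)
    {k : ℤ} (hk : 0 ≤ k) : P (fourierLp p k) = fourierLp p k := by
  apply hP.eq_self hp
  intro n hn
  rw [coeff_fourierLp, if_neg (by omega)]

lemma IsRiesz.fourier_neg {P : Lp ℂ p mu →L[ℂ] Lp ℂ p mu} (hP : IsRiesz P) (hp : 2 ≤ p)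
    {k : ℤ} (hk : k < 0) : P (fourierLp p k) = 0 := by
  apply hP.eq_zero hp
  intro n hn
  rw [coeff_fourierLp, if_neg (by omega)]

/-- analytic polynomials as functions in `L^p` -/
noncomputable def pcC (q : Polynomial ℂ) : C(Circ, ℂ) := ⟨pc q, continuous_pc q⟩

/-- the anti-analytic polynomial `(X b)(e_{-1})` -/
noncomputable def ncC (b : Polynomial ℂ) : C(Circ, ℂ) :=
  ⟨fun t => (Polynomial.X * b).eval (fourier (-1) t : ℂ),
    (Polynomial.X * b).continuous.comp (fourier (-1)).continuous⟩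

/-- trigonometric polynomials -/
noncomputable def iotaC : (Polynomial ℂ × Polynomial ℂ) →ₗ[ℂ] C(Circ, ℂ) where
  toFun ab := pcC ab.1 + ncC ab.2
  map_add' := by
    intro x y
    ext t
    simp [pcC, ncC, pc, mul_add]
    ring
  map_smul' := by
    intro c x
    ext t
    simp [pcC, ncC, pc]

/-- analytic part of trigonometric polynomials -/
noncomputable def rhoC : (Polynomial ℂ × Polynomial ℂ) →ₗ[ℂ] C(Circ, ℂ) where
  toFun ab := pcC ab.1
  map_add' := by
    intro x y
    ext t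
    simp [pcC, pc]
  map_smul' := by
    intro c x
    ext t
    simp [pcC, pc]

lemma fourier_mem_range (n : ℤ) : ∃ ab, iotaC ab = fourier n := by
  rcases le_or_gt 0 n with hn | hn
  · obtain ⟨k, rfl⟩ := Int.eq_ofNat_of_zero_le hn
    refine ⟨(Polynomial.X ^ k, 0), ?_⟩
    ext t
    simp only [iotaC, LinearMap.coe_mk, AddHom.coe_mk, ContinuousMap.add_apply, pcC, ncC,
      ContinuousMap.coe_mk, pc, mul_zero, Polynomial.eval_zero, add_zero, Polynomial.eval_pow,
      Polynomial.eval_X]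
    exact (fourier_natCast k t).symm
  · obtain ⟨k, hk⟩ := Int.eq_ofNat_of_zero_le (show 0 ≤ -n - 1 by omega)
    refine ⟨(0, Polynomial.X ^ k), ?_⟩
    ext t
    simp only [iotaC, LinearMap.coe_mk, AddHom.coe_mk, ContinuousMap.add_apply, pcC, ncC,
      ContinuousMap.coe_mk, pc, Polynomial.eval_zero, zero_add]
    rw [← pow_succ', Polynomial.eval_pow, Polynomial.eval_X]
    rw [← fourier_neg_natCast]
    congr 2
    push_cast
    omega

lemma dense_iota (hpt : p ≠ ∞) :
    DenseRange ((ContinuousMap.toLp (E := ℂ) p mu ℂ).toLinearMap.comp iotaC) := by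
  have h := closed_eq_top hpt (K := (LinearMap.range
    ((ContinuousMap.toLp (E := ℂ) p mu ℂ).toLinearMap.comp iotaC)).topologicalClosure)
    (Submodule.isClosed_topologicalClosure _) (fun n => by
      apply Submodule.le_topologicalClosure
      obtain ⟨ab, hab⟩ := fourier_mem_range n
      exact ⟨ab, by rw [LinearMap.comp_apply, hab]; rfl⟩)
  rw [DenseRange, dense_iff_closure_eq]
  have h2 := congrArg (fun K : Submodule ℂ (Lp ℂ p mu) => (K : Set (Lp ℂ p mu))) h
  simp only [Submodule.topologicalClosure_coe, Submodule.top_coe] at h2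
  exact h2

lemma coeff_ncC (b : Polynomial ℂ) {n : ℤ} (hn : 0 ≤ n) : fourierCoeff (ncC b) n = 0 := by
  induction b using Polynomial.induction_on' with
  | add p q hp hq =>
    have : (ncC (p + q) : Circ → ℂ) = fun t => ncC p t + ncC q t := by
      funext t
      simp [ncC, mul_add]
    rw [this, coeff_add (integrable_cont (ncC p).continuous) (integrable_cont (ncC q).continuous),
      hp, hq, add_zero]
  | monomial k a =>
    have : (ncC (Polynomial.monomial k a) : Circ → ℂ) =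
        fun t => a * fourier (-((k + 1 : ℕ) : ℤ)) t := by
      funext t
      rw [fourier_neg_natCast]
      simp [ncC, Polynomial.eval_monomial]
    rw [this, coeff_const_mul, coeff_fourier, if_neg (by omega), mul_zero]

/-- existence of the Riesz projection from an inequality for trigonometric polynomials -/
theorem exists_riesz (hpt : p ≠ ∞) (C : ℝ)
    (h : ∀ a b : Polynomial ℂ, ‖ContinuousMap.toLp (E := ℂ) p mu ℂ (pcC a)‖ ≤
      C * ‖ContinuousMap.toLp (E := ℂ) p mu ℂ (pcC a + ncC b)‖) :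
    ∃ P : Lp ℂ p mu →L[ℂ] Lp ℂ p mu, IsRiesz P := by
  set e := (ContinuousMap.toLp (E := ℂ) p mu ℂ).toLinearMap.comp iotaC with he
  set f := (ContinuousMap.toLp (E := ℂ) p mu ℂ).toLinearMap.comp rhoC with hf
  have hbd : ∃ C : ℝ, ∀ x, ‖f x‖ ≤ C * ‖e x‖ := ⟨C, fun x => h x.1 x.2⟩
  set P : Lp ℂ p mu →L[ℂ] Lp ℂ p mu := f.extendOfNorm e with hPdef
  have hPe : ∀ x, P (e x) = f x := LinearMap.extendOfNorm_eq (dense_iota hpt) hbd
  refine ⟨P, ?_⟩
  intro g n
  have hcl : IsClosed {g : Lp ℂ p mu | fourierCoeff (P g) n =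
      if 0 ≤ n then fourierCoeff g n else 0} := by
    have : {g : Lp ℂ p mu | fourierCoeff (P g) n = if 0 ≤ n then fourierCoeff g n else 0} =
        {g : Lp ℂ p mu | coeffL p n (P g) = if 0 ≤ n then coeffL p n g else 0} := by
      ext g; simp only [coeffL_apply]
    rw [this]
    refine isClosed_eq ((coeffL p n).continuous.comp P.continuous) ?_
    split_ifs
    · exact (coeffL p n).continuous
    · exact continuous_const
  refine (dense_iota hpt).induction_on (p := fun g => fourierCoeff (P g) n =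
      if 0 ≤ n then fourierCoeff g n else 0) g hcl ?_
  rintro ⟨a, b⟩
  have h1 : P (((ContinuousMap.toLp (E := ℂ) p mu ℂ).toLinearMap.comp iotaC) (a, b)) =
      ContinuousMap.toLp (E := ℂ) p mu ℂ (pcC a) := hPe (a, b)
  rw [h1, fourierCoeff_congr_ae (ContinuousMap.coeFn_toLp mu (pcC a))]
  split_ifs with hn
  · have h2 : fourierCoeff (((ContinuousMap.toLp (E := ℂ) p mu ℂ).toLinearMap.comp iotaC)
        (a, b) : Lp ℂ p mu) n = fourierCoeff (fun t => pcC a t + ncC b t) n :=
      congrFun (fourierCoeff_congr_ae (ContinuousMap.coeFn_toLp mu (pcC a + ncC b))) n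
    rw [h2, coeff_add (integrable_cont (pcC a).continuous) (integrable_cont (ncC b).continuous),
      coeff_ncC b hn, add_zero]
  · exact coeff_pc a (not_le.1 hn)

end Pool.Agent.R949.WH
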