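import Pool.Agent.R949.WH.Two
import Pool.Agent.R949.WH.Baire
set_option autoImplicit false

/-! # The Hardy spaces and the stage lemma in them -/

open MeasureTheory AddCircle Filter Topology Complex
open scoped ComplexConjugate ENNReal InnerProductSpace

namespace Pool.Agent.R949.WH

/-- The Hardy space `H^p`, as a subspace of `L^p` of the circle. -/
noncomputable def hardy (p : ℝ≥0∞) [Fact (1 ≤ p)] : Submodule ℂ (Lp ℂ p mu) where
  carrier := {f | ∀ n : ℤ, n < 0 → fourierCoeff f n = 0}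
  add_mem' := by
    intro f g hf hg n hn
    rw [← coeffL_apply, map_add, coeffL_apply, coeffL_apply, hf n hn, hg n hn, add_zero]
  zero_mem' := by
    intro n _
    rw [← coeffL_apply, map_zero]
  smul_mem' := by
    intro c f hf n hn
    rw [← coeffL_apply, map_smul, coeffL_apply, hf n hn, smul_zero]

variable {p : ℝ≥0∞} [Fact (1 ≤ p)]

lemma isClosed_hardy : IsClosed (hardy p : Set (Lp ℂ p mu)) := by
  have : (hardy p : Set (Lp ℂ p mu)) = ⋂ n : ℤ, ⋂ _ : n < 0, {f | coeffL p n f = 0} := by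
    ext f
    simp only [Set.mem_iInter, Set.mem_ofPred_eq, coeffL_apply]
    rfl
  rw [this]
  exact isClosed_iInter fun n => isClosed_iInter fun _ =>
    isClosed_eq (coeffL p n).continuous continuous_const

instance : CompleteSpace (hardy p) := isClosed_hardy.completeSpace_coe

instance : Fact ((2 : ℝ≥0∞) ≠ ∞) := ⟨by simp⟩
instance : Fact ((4 : ℝ≥0∞) ≠ ∞) := ⟨by simp⟩

instance : TopologicalSpace.SeparableSpace (Lp ℂ 2 mu) := inferInstance

lemma riesz_mem {P : Lp ℂ p mu →L[ℂ] Lp ℂ p mu} (hP : IsRiesz P) (f : Lp ℂ p mu) :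
    P f ∈ hardy p := by
  intro n hn
  rw [hP, if_neg (not_le.2 hn)]

/-- the Riesz projection onto the Hardy space -/
noncomputable def PH {P : Lp ℂ p mu →L[ℂ] Lp ℂ p mu} (hP : IsRiesz P) : Lp ℂ p mu →L[ℂ] hardy p :=
  P.codRestrict (hardy p) (riesz_mem hP)

lemma coe_PH {P : Lp ℂ p mu →L[ℂ] Lp ℂ p mu} (hP : IsRiesz P) (f : Lp ℂ p mu) :
    (PH hP f : Lp ℂ p mu) = P f := rfl

lemma P_hardy {P : Lp ℂ p mu →L[ℂ] Lp ℂ p mu} (hP : IsRiesz P) (hp : 2 ≤ p) (x : hardy p) :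
    P x = x := hP.eq_self hp x.2

lemma PH_hardy {P : Lp ℂ p mu →L[ℂ] Lp ℂ p mu} (hP : IsRiesz P) (hp : 2 ≤ p) (x : hardy p) :
    PH hP x = x := Subtype.ext (P_hardy hP hp x)

theorem stage_H {P : Lp ℂ p mu →L[ℂ] Lp ℂ p mu} (hP : IsRiesz P) (hp : 2 ≤ p)
    {Y : Submodule ℂ (Lp ℂ p mu)} {A B : ℕ → Lp ℂ p mu →L[ℂ] Lp ℂ p mu} {c : ℝ}
    (s : Sys Y A B P c) (x z : hardy p) (R : ℝ) {ε r : ℝ} (hε : 0 < ε) (hr : 0 < r) :
    ∃ x' : hardy p, ‖x' - x‖ < r ∧ ∃ N, StageAt (fun n => PH hP (A n x')) z R ε N := by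
  obtain ⟨F0, hF0, h1⟩ := s.d x (P_hardy hP hp x) (r / 3) (by positivity)
  obtain ⟨G, hG, h2, N, h3⟩ := s.stage (P_hardy hP hp z) hF0 (‖PH hP‖ ^ 2 * R)
    (ε := min ε (r / 3)) (lt_min hε (by positivity))
  refine ⟨PH hP G, ?_, N, ?_⟩
  · have h4 : ‖PH hP G - x‖ = ‖(P G - P F0) + (P F0 - x)‖ := by
      show ‖((PH hP G - x : hardy p) : Lp ℂ p mu)‖ = _
      congr 1
      rw [Submodule.coe_sub, coe_PH]
      abel
    rw [h4]
    rw [map_sub] at h2
    have h5 := h2.trans (min_le_right _ _)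
    exact (norm_add_le _ _).trans_lt (by linarith)
  · intro m φ hφ
    have h4 : ∑ i, ‖(φ i).comp (PH hP)‖ ^ 2 ≤ ‖PH hP‖ ^ 2 * R := by
      calc ∑ i, ‖(φ i).comp (PH hP)‖ ^ 2 ≤ ∑ i, ‖PH hP‖ ^ 2 * ‖φ i‖ ^ 2 := by
            refine Finset.sum_le_sum fun i _ => ?_
            have := (φ i).opNorm_comp_le (PH hP)
            have h5 := pow_le_pow_left₀ (norm_nonneg _) this 2
            linarith [mul_pow ‖φ i‖ ‖PH hP‖ 2, mul_comm (‖φ i‖ ^ 2) (‖PH hP‖ ^ 2)]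
        _ = ‖PH hP‖ ^ 2 * ∑ i, ‖φ i‖ ^ 2 := by rw [Finset.mul_sum]
        _ ≤ _ := by gcongr
    obtain ⟨n, hn, h5⟩ := h3 m (fun i => (φ i).comp (PH hP)) h4
    refine ⟨n, hn, fun i => ?_⟩
    have h6 := (h5 i).trans (min_le_left _ _)
    have h7 : PH hP (P (A n G) - z) = PH hP (A n (PH hP G)) - z := by
      apply Subtype.ext
      rw [coe_PH, Submodule.coe_sub, coe_PH, coe_PH, s.PA, map_sub, hP.idem hp, P_hardy hP hp z]
    have h8 : ((φ i).comp (PH hP)) (P (A n G) - z) = φ i (PH hP (A n (PH hP G)) - z) := by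
      rw [ContinuousLinearMap.comp_apply, h7]
    rw [h8] at h6
    exact h6

end Pool.Agent.R949.WH
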