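import Pool.Agent.R949.WH.Toep
set_option autoImplicit false

/-! # A family of symbols depending on a sequence of real parameters -/

open MeasureTheory AddCircle Filter Topology Complex
open scoped ComplexConjugate ENNReal InnerProductSpace

namespace Pool.Agent.R949.WH

/-- the real part of the completion -/
lemma re_opM {P : Lp ℂ 2 mu →L[ℂ] Lp ℂ 2 mu} (hP : IsRiesz P) {w : Circ → ℝ}
    (hm : MemLp (fun t => (w t : ℂ)) 2 mu) : ∀ᵐ t ∂mu, ((opM P hm.toLp) t).re = w t := by
  set f : Lp ℂ 2 mu := hm.toLp with hf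
  set F : Lp ℂ 2 mu := opM P f with hF
  have hreal : ∀ n : ℤ, conj (fourierCoeff f (-n)) = fourierCoeff f n := by
    intro n
    rw [← coeff_conj]
    apply fourierCoeff_congr_ae |> fun h => congrFun (h ?_) n
    filter_upwards [hm.coeFn_toLp] with t ht
    rw [ht, Complex.conj_ofReal]
  have hFi := Lp_integrable F
  have hfi := Lp_integrable f
  have hci : Integrable (fun t => conj (F t)) mu :=
    hFi.norm.mono' (continuous_conj.comp_aestronglyMeasurable hFi.1)
      (Eventually.of_forall fun t => by simp)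
  have hcm : MemLp (fun t => conj (F t)) 2 mu :=
    (Lp.memLp F).of_le (continuous_conj.comp_aestronglyMeasurable hFi.1)
      (Eventually.of_forall fun t => by simp)
  have heq : F + hcm.toLp = (2 : ℂ) • f := by
    apply coeff_ext le_rfl
    intro n
    rw [← coeffL_apply, ← coeffL_apply, map_add, map_smul, coeffL_apply, coeffL_apply,
      coeffL_apply, fourierCoeff_congr_ae hcm.coeFn_toLp, coeff_conj, hF, coeff_opM hP,
      coeff_opM hP, smul_eq_mul]
    rcases lt_trichotomy n 0 with h | h | h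
    · rw [if_neg (not_le.2 h), if_neg h.ne, if_pos (show 0 ≤ -n by omega),
        if_neg (show -n ≠ 0 by omega)]
      simp only [mul_zero, sub_zero, zero_add, map_mul]
      rw [hreal n]
      rw [map_ofNat (starRingEnd ℂ) 2]
    · subst h
      have h0 := hreal 0
      rw [neg_zero] at h0
      rw [if_pos le_rfl, if_pos rfl, neg_zero, if_pos le_rfl, if_pos rfl]
      simp only [mul_one, map_sub, map_mul, h0, map_ofNat]
      ring
    · rw [if_pos h.le, if_neg h.ne', if_neg (show ¬ (0 ≤ -n) by omega),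
        if_neg (show -n ≠ 0 by omega)]
      simp
  have h1 := Lp.coeFn_add F hcm.toLp
  have h2 := Lp.coeFn_smul (2 : ℂ) f
  rw [heq] at h1
  filter_upwards [h1, h2, hcm.coeFn_toLp, hm.coeFn_toLp] with t a1 a2 a3 a4
  have h3 : F t + conj (F t) = 2 * (w t : ℂ) := by
    rw [a1, Pi.add_apply, a3, Pi.smul_apply, a4, smul_eq_mul] at a2
    exact a2
  have h4 := congrArg Complex.re h3
  simp at h4
  linarith

/-! ### the parameter space -/

/-- the level of a point of the circle -/
noncomputable def jj (t : Circ) : ℕ := ⌊‖t‖⁻¹⌋₊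

lemma measurable_jj : Measurable jj := (continuous_norm.measurable.inv).nat_floor

/-- the level sets -/
def Aset (k : ℕ) : Set Circ := jj ⁻¹' {k}

lemma measurable_Aset (k : ℕ) : MeasurableSet (Aset k) := measurable_jj (measurableSet_singleton k)

lemma Aset_pos {k : ℕ} (hk : 2 ≤ k) : mu (Aset k) ≠ 0 := by
  have hk0 : (2 : ℝ) ≤ k := by exact_mod_cast hk
  set U : Set Circ := {t | 1 / ((k : ℝ) + 1) < ‖t‖ ∧ ‖t‖ < 1 / k} with hU
  have hUo : IsOpen U := (isOpen_lt continuous_const continuous_norm).inter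
    (isOpen_lt continuous_norm continuous_const)
  have hsub : U ⊆ Aset k := by
    intro t ht
    have h1 : 1 / ((k : ℝ) + 1) < ‖t‖ := ht.1
    have h2 : ‖t‖ < 1 / k := ht.2
    have h0 : 0 < ‖t‖ := lt_trans (by positivity) h1
    show ⌊‖t‖⁻¹⌋₊ = k
    rw [Nat.floor_eq_iff (by positivity)]
    constructor
    · rw [le_inv_comm₀ (by positivity) h0, ← one_div]
      exact h2.le
    · rw [inv_lt_comm₀ h0 (by positivity), ← one_div]
      exact h1
  have hne : U.Nonempty := by
    set x : ℝ := 1 / ((k : ℝ) + 1 / 2) with hx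
    have hx0 : 0 < x := by positivity
    have hx1 : x ≤ 1 / 2 := by
      rw [hx, div_le_div_iff₀ (by positivity) (by norm_num)]
      linarith
    have hn : ‖(x : Circ)‖ = x := by
      rw [(AddCircle.norm_coe_eq_abs_iff (x := x) (1 : ℝ) one_ne_zero).2 (by
        rw [abs_of_pos hx0]; simpa using hx1), abs_of_pos hx0]
    refine ⟨(x : Circ), ?_, ?_⟩
    · show 1 / ((k : ℝ) + 1) < ‖(x : Circ)‖
      rw [hn, hx]
      apply one_div_lt_one_div_of_lt (by positivity) (by linarith)
    · show ‖(x : Circ)‖ < 1 / k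
      rw [hn, hx]
      apply one_div_lt_one_div_of_lt (by positivity) (by linarith)
  exact ((hUo.measure_pos mu hne).trans_le (measure_mono hsub)).ne'

/-- the upper bound of the parameter at level `k` -/
noncomputable def cc (k : ℕ) : ℝ :=
  min (1 / ((k : ℝ) + 1)) (Real.exp (-(1 / mu.real (Aset k))))

lemma cc_pos (k : ℕ) : 0 < cc k := lt_min (by positivity) (Real.exp_pos _)

lemma cc_le_one (k : ℕ) : cc k ≤ 1 := by
  refine (min_le_left _ _).trans ?_
  rw [div_le_one (by positivity)]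
  have : (0 : ℝ) ≤ k := Nat.cast_nonneg k
  linarith

/-- the logarithm of the modulus of the symbol -/
noncomputable def ww (l : ℕ → ℝ) (t : Circ) : ℝ := min |l (jj t)| (cc (jj t))

lemma measurable_ww (l : ℕ → ℝ) : Measurable (ww l) :=
  (measurable_of_countable (fun k : ℕ => min |l k| (cc k))).comp measurable_jj

lemma ww_nonneg (l : ℕ → ℝ) (t : Circ) : 0 ≤ ww l t := le_min (abs_nonneg _) (cc_pos _).le

lemma ww_le_one (l : ℕ → ℝ) (t : Circ) : ww l t ≤ 1 := (min_le_right _ _).trans (cc_le_one _)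

lemma abs_ww (l : ℕ → ℝ) (t : Circ) : |ww l t| ≤ 1 := by
  rw [abs_of_nonneg (ww_nonneg l t)]; exact ww_le_one l t

lemma ww_cont (l0 : ℕ → ℝ) {ε : ℝ} (hε : 0 < ε) :
    ∀ᶠ l in 𝓝 l0, ∀ t, |ww l t - ww l0 t| ≤ ε := by
  obtain ⟨J, hJ⟩ := exists_nat_one_div_lt hε
  have h1 : ∀ᶠ l in 𝓝 l0, ∀ k ∈ Finset.range J, |l k - l0 k| < ε := by
    rw [eventually_all_finset]
    intro k _
    have h2 : Tendsto (fun l : ℕ → ℝ => |l k - l0 k|) (𝓝 l0) (𝓝 |l0 k - l0 k|) :=
      (((continuous_apply k).sub continuous_const).abs).tendsto l0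
    rw [sub_self, abs_zero] at h2
    exact h2.eventually_lt_const hε
  filter_upwards [h1] with l hl t
  by_cases hk : jj t < J
  · have h3 := hl (jj t) (Finset.mem_range.2 hk)
    refine le_trans ?_ h3.le
    unfold ww
    refine (abs_min_sub_min_le_max _ _ _ _).trans ?_
    rw [sub_self, abs_zero, max_eq_left (abs_nonneg _)]
    exact abs_abs_sub_abs_le _ _
  · have h4 : cc (jj t) ≤ ε := by
      refine (min_le_left _ _).trans (le_trans ?_ hJ.le)
      apply one_div_le_one_div_of_le (by positivity)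
      have : (J : ℝ) ≤ jj t := by exact_mod_cast not_lt.1 hk
      linarith
    have h5 : ww l t ≤ cc (jj t) := min_le_right _ _
    have h6 : ww l0 t ≤ cc (jj t) := min_le_right _ _
    have h7 := ww_nonneg l t
    have h8 := ww_nonneg l0 t
    rw [abs_le]
    constructor <;> linarith

/-- `ww l` as an element of `L²` -/
noncomputable def wL (l : ℕ → ℝ) : Lp ℂ 2 mu := (memLp_real (measurable_ww l) (abs_ww l)).toLp

lemma continuous_wL : Continuous wL := by
  rw [continuous_iff_continuousAt]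
  intro l0
  rw [ContinuousAt, Metric.tendsto_nhds]
  intro ε hε
  filter_upwards [ww_cont l0 (half_pos hε)] with l hl
  rw [dist_eq_norm]
  have h1 : ‖wL l - wL l0‖ ≤ ε / 2 := by
    have h2 := Lp.norm_le_of_ae_bound (f := wL l - wL l0) (C := ε / 2) (by positivity) (by
      filter_upwards [Lp.coeFn_sub (wL l) (wL l0),
        (memLp_real (measurable_ww l) (abs_ww l)).coeFn_toLp,
        (memLp_real (measurable_ww l0) (abs_ww l0)).coeFn_toLp] with t a1 a2 a3
      rw [a1, Pi.sub_apply]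
      have a2' : (wL l) t = (ww l t : ℂ) := a2
      have a3' : (wL l0) t = (ww l0 t : ℂ) := a3
      rw [a2', a3', ← Complex.ofReal_sub, Complex.norm_real]
      exact hl t)
    refine h2.trans (le_of_eq ?_)
    simp [measureUnivNNReal]
  linarith

section fam

variable {P : Lp ℂ 2 mu →L[ℂ] Lp ℂ 2 mu} (hP : IsRiesz P)

include hP in
lemma symL (l : ℕ → ℝ) : IsSym (ww l) (opM P (wL l)) :=
  isSym hP (measurable_ww l) (abs_ww l) (memLp_real (measurable_ww l) (abs_ww l))

/-- multiplication by the power of the conjugate symbol -/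
noncomputable def aL (n : ℕ) (l : ℕ → ℝ) : Lp ℂ 2 mu →L[ℂ] Lp ℂ 2 mu :=
  opA 2 (symL hP l) (ww_le_one l) n

lemma norm_aL_le (n : ℕ) (l : ℕ → ℝ) (f : Lp ℂ 2 mu) : ‖aL hP n l f‖ ≤ Real.exp (n * 1) * ‖f‖ :=
  norm_mulOp_le _ (aesm_conj (aesm_Ex (symL hP l).meas_w (symL hP l).meas_F _)) _
    (norm_conj_le (norm_Ex_le (ww_le_one l) (Nat.cast_nonneg n))) f

omit hP in
lemma exp_lip {M : ℝ} {a b : ℂ} (ha : a.re ≤ M) (hb : b.re ≤ M) :
    ‖exp a - exp b‖ ≤ Real.exp M * ‖a - b‖ := by
  have hconv : Convex ℝ {z : ℂ | z.re ≤ M} := convex_halfSpace_re_le M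
  have h := hconv.norm_image_sub_le_of_norm_deriv_le (f := exp) (C := Real.exp M)
    (fun x _ => Complex.differentiable_exp x) (fun x hx => by
      rw [Complex.deriv_exp, Complex.norm_exp]
      exact Real.exp_le_exp.2 hx) hb ha
  exact h

include hP in
lemma Ex_eq_exp (l : ℕ → ℝ) (s : ℝ) :
    ∀ᵐ t ∂mu, Ex (ww l) (opM P (wL l)) s t = exp (s * (opM P (wL l)) t) := by
  filter_upwards [re_opM hP (memLp_real (measurable_ww l) (abs_ww l))] with t ht
  have ht' : ((opM P (wL l)) t).re = ww l t := ht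
  rw [Ex, ← ht']
  congr 2
  conv_rhs => rw [← Complex.re_add_im ((opM P (wL l)) t)]
  ring

lemma aL_fourier (n : ℕ) (l0 : ℕ → ℝ) (k : ℤ) :
    Tendsto (fun l => aL hP n l (fourierLp 2 k)) (𝓝 l0) (𝓝 (aL hP n l0 (fourierLp 2 k))) := by
  rw [tendsto_iff_norm_sub_tendsto_zero]
  have h1 : Tendsto (fun l => Real.exp n * (n * ‖opM P (wL l) - opM P (wL l0)‖)) (𝓝 l0)
      (𝓝 0) := by
    have h2 : Tendsto (fun l => opM P (wL l)) (𝓝 l0) (𝓝 (opM P (wL l0))) :=
      ((opM P).continuous.comp continuous_wL).tendsto l0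
    have h3 := tendsto_iff_norm_sub_tendsto_zero.1 h2
    have h4 := (h3.const_mul (n : ℝ)).const_mul (Real.exp n)
    simpa using h4
  apply squeeze_zero (fun _ => norm_nonneg _) _ h1
  intro l
  have h5 : ‖aL hP n l (fourierLp 2 k) - aL hP n l0 (fourierLp 2 k)‖ ≤
      (Real.exp n * n) * ‖opM P (wL l) - opM P (wL l0)‖ := by
    apply Lp.norm_le_mul_norm_of_ae_le_mul
    filter_upwards [Lp.coeFn_sub (aL hP n l (fourierLp 2 k)) (aL hP n l0 (fourierLp 2 k)),
      coeFn_opA (p := 2) (symL hP l) (ww_le_one l) n (fourierLp 2 k),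
      coeFn_opA (p := 2) (symL hP l0) (ww_le_one l0) n (fourierLp 2 k),
      coeFn_fourierLp (T := (1 : ℝ)) 2 k, Lp.coeFn_sub (opM P (wL l)) (opM P (wL l0)),
      Ex_eq_exp hP l n, Ex_eq_exp hP l0 n] with t b1 b2 b3 b4 b5 b6 b7
    have b2' : (aL hP n l (fourierLp 2 k)) t = conj (Ex (ww l) (opM P (wL l)) n t) *
      (fourierLp 2 k) t := b2
    have b3' : (aL hP n l0 (fourierLp 2 k)) t = conj (Ex (ww l0) (opM P (wL l0)) n t) *
      (fourierLp 2 k) t := b3
    rw [b1, Pi.sub_apply, b2', b3', ← sub_mul, norm_mul, b4, norm_fourier_apply, mul_one,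
      ← map_sub, RCLike.norm_conj, b5, Pi.sub_apply]
    have hr1 : (((n : ℝ) : ℂ) * (opM P (wL l)) t).re ≤ n := by
      have h6 : Real.exp (((n : ℝ) : ℂ) * (opM P (wL l)) t).re ≤ Real.exp n := by
        rw [← Complex.norm_exp, ← b6, norm_Ex]
        apply Real.exp_le_exp.2
        have := ww_le_one l t
        have h7 : (0 : ℝ) ≤ n := Nat.cast_nonneg n
        nlinarith
      exact Real.exp_le_exp.1 h6
    have hr2 : (((n : ℝ) : ℂ) * (opM P (wL l0)) t).re ≤ n := by
      have h6 : Real.exp (((n : ℝ) : ℂ) * (opM P (wL l0)) t).re ≤ Real.exp n := by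
        rw [← Complex.norm_exp, ← b7, norm_Ex]
        apply Real.exp_le_exp.2
        have := ww_le_one l0 t
        have h7 : (0 : ℝ) ≤ n := Nat.cast_nonneg n
        nlinarith
      exact Real.exp_le_exp.1 h6
    rw [b6, b7]
    refine (exp_lip hr1 hr2).trans ?_
    rw [← mul_sub, norm_mul, Complex.norm_real, Real.norm_of_nonneg (Nat.cast_nonneg n)]
    rw [mul_assoc]
  linarith [h5, mul_assoc (Real.exp n) (n : ℝ) ‖opM P (wL l) - opM P (wL l0)‖]

end fam

end Pool.Agent.R949.WH
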