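import Mathlib
set_option autoImplicit false

/-! # The stage lemma for weak hypercyclicity (abstract form) -/

namespace Pool.Agent.R949.WH

open Filter Topology Finset

variable {Z : Type*} [NormedAddCommGroup Z] [NormedSpace ℂ Z]

/-- the abstract situation: `A n` is the `n`-th power of the symbol, `B n` its inverse on `Y` -/
structure Sys (Y : Submodule ℂ Z) (A B : ℕ → Z →L[ℂ] Z) (P : Z →L[ℂ] Z) (c : ℝ) : Prop where
  c_nonneg : 0 ≤ c
  AY : ∀ n, ∀ f ∈ Y, A n f ∈ Y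
  BY : ∀ n, ∀ f ∈ Y, B n f ∈ Y
  AB : ∀ n, ∀ f ∈ Y, A n (B n f) = f
  An : ∀ n, ∀ f ∈ Y, ‖A n f‖ ≤ ‖f‖
  PA : ∀ n, ∀ f, P (A n (P f)) = P (A n f)
  a : ∀ f ∈ Y, Tendsto (fun n => P (B n f)) atTop (𝓝 0)
  b : ∀ G ∈ Y, ∀ h ∈ Y, ∀ ε > 0, ∀ᶠ n in atTop, ‖G + B n h‖ ^ 2 ≤ ‖G‖ ^ 2 + c * ‖h‖ ^ 2 + ε
  b' : ∀ S ∈ Y, ∀ G ∈ Y, ∀ ε > 0, ∀ᶠ n in atTop, ‖S + A n G‖ ^ 2 ≤ ‖S‖ ^ 2 + c * ‖G‖ ^ 2 + ε
  d : ∀ z, P z = z → ∀ δ > 0, ∃ h ∈ Y, ‖P h - z‖ ≤ δ

variable {Y : Submodule ℂ Z} {A B : ℕ → Z →L[ℂ] Z} {P : Z →L[ℂ] Z} {c : ℝ}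

/-- property `b'` holds uniformly on finite-dimensional subspaces -/
lemma Sys.unif (s : Sys Y A B P c) (W : Submodule ℂ Z) [FiniteDimensional ℂ W] (hW : W ≤ Y)
    {G : Z} (hG : G ∈ Y) {η : ℝ} (hη : 0 < η) :
    ∀ᶠ n in atTop, ∀ S ∈ W, ‖S + A n G‖ ^ 2 ≤ (1 + η) * ‖S‖ ^ 2 + c * ‖G‖ ^ 2 + η := by
  set g := ‖G‖ with hg
  have hg0 : 0 ≤ g := norm_nonneg _
  have hc0 := s.c_nonneg
  set R := (2 * g + g ^ 2) / η + 1 with hR
  have hR1 : 1 ≤ R := by
    rw [hR]; have : 0 ≤ (2 * g + g ^ 2) / η := by positivity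
    linarith
  have hRη : 2 * g + g ^ 2 ≤ η * R := by
    rw [hR, mul_add, mul_div_cancel₀ _ hη.ne']; linarith
  -- the large vectors
  have hlarge : ∀ n, ∀ S ∈ W, R ≤ ‖S‖ →
      ‖S + A n G‖ ^ 2 ≤ (1 + η) * ‖S‖ ^ 2 + c * g ^ 2 + η := by
    intro n S _ hS
    have h1 : ‖S + A n G‖ ≤ ‖S‖ + g := (norm_add_le _ _).trans (by
      have := s.An n G hG
      linarith)
    have h2 : ‖S + A n G‖ ^ 2 ≤ (‖S‖ + g) ^ 2 := pow_le_pow_left₀ (norm_nonneg _) h1 2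
    have h3 : 2 * ‖S‖ * g + g ^ 2 ≤ η * ‖S‖ ^ 2 := by
      have h4 : 1 ≤ ‖S‖ := hR1.trans hS
      have h5 : 2 * ‖S‖ * g + g ^ 2 ≤ ‖S‖ * (2 * g + g ^ 2) := by nlinarith [sq_nonneg g]
      have h6 : ‖S‖ * (2 * g + g ^ 2) ≤ ‖S‖ * (η * R) := by gcongr
      have h7 : ‖S‖ * (η * R) ≤ ‖S‖ * (η * ‖S‖) := by gcongr
      nlinarith
    have h8 : 0 ≤ c * g ^ 2 := by positivity
    nlinarith
  -- the small vectors
  have hcomp : IsCompact ((fun x : W => (x : Z)) '' Metric.closedBall (0 : W) R) :=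
    (isCompact_closedBall (0 : W) R).image continuous_subtype_val
  have hsmall : ∀ᶠ n in atTop, ∀ S ∈ (fun x : W => (x : Z)) '' Metric.closedBall (0 : W) R,
      ‖S + A n G‖ ^ 2 ≤ ‖S‖ ^ 2 + c * g ^ 2 + η := by
    refine hcomp.induction_on (p := fun K => ∀ᶠ n in atTop, ∀ S ∈ K,
      ‖S + A n G‖ ^ 2 ≤ ‖S‖ ^ 2 + c * g ^ 2 + η) ?_ ?_ ?_ ?_
    · simp
    · intro K K' hKK h
      exact h.mono fun n hn S hS => hn S (hKK hS)
    · intro K K' h h'
      filter_upwards [h, h'] with n hn hn' S hS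
      rcases hS with hS | hS
      · exact hn S hS
      · exact hn' S hS
    · rintro S ⟨S0, hS0, rfl⟩
      have hS0n : ‖(S0 : Z)‖ ≤ R := by simpa using hS0
      set ρ := min 1 (η / (8 * (R + g + 1))) with hρ
      have hρ0 : 0 < ρ := lt_min one_pos (by positivity)
      have hρ1 : ρ ≤ 1 := min_le_left _ _
      have hρ2 : ρ * (8 * (R + g + 1)) ≤ η := by
        have := min_le_right 1 (η / (8 * (R + g + 1)))
        rw [← hρ] at this
        exact (le_div_iff₀ (by positivity)).1 this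
      refine ⟨Metric.ball (S0 : Z) ρ, mem_nhdsWithin_of_mem_nhds (Metric.ball_mem_nhds _ hρ0), ?_⟩
      filter_upwards [s.b' (S0 : Z) (hW S0.2) G hG (η / 4) (by positivity)] with n hn S hS
      have hd : ‖S - (S0 : Z)‖ ≤ ρ := by
        have := Metric.mem_ball.1 hS
        rw [dist_eq_norm] at this
        exact this.le
      have h1 : ‖S + A n G‖ ≤ ‖(S0 : Z) + A n G‖ + ρ := by
        have : S + A n G = ((S0 : Z) + A n G) + (S - S0) := by abel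
        rw [this]
        exact (norm_add_le _ _).trans (by linarith)
      have h2 : ‖(S0 : Z)‖ ≤ ‖S‖ + ρ := by
        have : (S0 : Z) = S - (S - S0) := by abel
        rw [this]
        exact (norm_sub_le _ _).trans (by linarith)
      have h3 : ‖(S0 : Z) + A n G‖ ≤ R + g := (norm_add_le _ _).trans (by
        have := s.An n G hG
        linarith)
      have h4 : ‖S + A n G‖ ^ 2 ≤ (‖(S0 : Z) + A n G‖ + ρ) ^ 2 :=
        pow_le_pow_left₀ (norm_nonneg _) h1 2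
      have h5 : ‖(S0 : Z)‖ ^ 2 ≤ (‖S‖ + ρ) ^ 2 := pow_le_pow_left₀ (norm_nonneg _) h2 2
      have h6 : ‖S‖ ≤ R + 1 := by
        have : S = S0 + (S - S0) := by abel
        rw [this]
        exact (norm_add_le _ _).trans (by linarith)
      have h7 : 0 ≤ ‖(S0 : Z) + A n G‖ := norm_nonneg _
      have h8 : 0 ≤ ‖S‖ := norm_nonneg _
      have h9 : 2 * ‖(S0 : Z) + A n G‖ * ρ ≤ 2 * (R + g) * ρ := by gcongr
      have h10 : 2 * ‖S‖ * ρ ≤ 2 * (R + 1) * ρ := by gcongr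
      have h11 : ρ ^ 2 ≤ ρ := by nlinarith
      nlinarith
  filter_upwards [hsmall] with n hn S hS
  rcases le_or_gt R ‖S‖ with h | h
  · exact hlarge n S hS h
  · have h1 := hn S ⟨⟨S, hS⟩, by simpa using h.le, rfl⟩
    have h2 : 0 ≤ η * ‖S‖ ^ 2 := by positivity
    linarith

/-- the induction in the stage lemma -/
lemma Sys.step (s : Sys Y A B P c) {z F0 h : Z} (hF0 : F0 ∈ Y) (hh : h ∈ Y) {δ η : ℝ}
    (hδ : ‖P h - z‖ ≤ δ) (hη : 0 < η) (hη1 : η ≤ 1) (k : ℕ) :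
    ∃ G ∈ Y, ∃ n : ℕ → ℕ, ∃ e : ℕ → Z, (∀ j, e j ∈ Y) ∧
      ‖G‖ ^ 2 ≤ ‖F0‖ ^ 2 + k * (c * ‖h‖ ^ 2 + 1) ∧ ‖P (G - F0)‖ ≤ k * η ∧
      (∀ j < k, ‖P (A (n j) G) - z - P (e j)‖ ≤ δ + k * η) ∧
      ∀ a : ℕ → ℂ, ‖∑ j ∈ range k, a j • e j‖ ^ 2 ≤
        (1 + η) ^ k * ∑ j ∈ range k,
          ‖a j‖ ^ 2 * (c * (‖F0‖ ^ 2 + j * (c * ‖h‖ ^ 2 + 1)) + 1) := by
  have hc0 := s.c_nonneg
  induction k with
  | zero =>
    refine ⟨F0, hF0, fun _ => 0, fun _ => 0, fun _ => Y.zero_mem, by simp, by simp, by simp, ?_⟩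
    intro a; simp
  | succ k ih =>
    obtain ⟨G, hG, n, e, he, h1, h2, h3, h4⟩ := ih
    set W : Submodule ℂ Z := Submodule.span ℂ (e '' (range k : Set ℕ)) with hW
    have hfd : FiniteDimensional ℂ W :=
      FiniteDimensional.span_of_finite ℂ ((Finset.finite_toSet _).image e)
    have hWY : W ≤ Y := by
      rw [hW, Submodule.span_le]
      rintro _ ⟨j, _, rfl⟩
      exact he j
    have e1 := s.unif W hWY hG hη
    have e2 := s.b G hG h hh 1 one_pos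
    have e3 : ∀ᶠ m in atTop, ‖P (B m h)‖ < η := by
      have := (s.a h hh).norm
      rw [norm_zero] at this
      exact this.eventually_lt_const hη
    have e4 : ∀ᶠ m in atTop, ∀ j ∈ range k, ‖P (A (n j) (B m h))‖ < η := by
      rw [eventually_all_finset]
      intro j _
      have h5 : Tendsto (fun m => P (A (n j) (P (B m h)))) atTop (𝓝 (P (A (n j) 0))) :=
        ((P.continuous.comp (A (n j)).continuous).tendsto 0).comp (s.a h hh)
      simp only [map_zero, s.PA] at h5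
      have := h5.norm
      rw [norm_zero] at this
      exact this.eventually_lt_const hη
    obtain ⟨m, m1, m2, m3, m4⟩ := (e1.and (e2.and (e3.and e4))).exists
    have hsum_e : ∀ a : ℕ → ℂ, ∑ j ∈ range k, a j • (Function.update e k (A m G)) j =
        ∑ j ∈ range k, a j • e j := by
      intro a
      refine Finset.sum_congr rfl fun j hj => ?_
      rw [Function.update_of_ne (Finset.mem_range.1 hj).ne]
    refine ⟨G + B m h, Y.add_mem hG (s.BY m h hh), Function.update n k m,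
      Function.update e k (A m G), ?_, ?_, ?_, ?_, ?_⟩
    · intro j
      by_cases hj : j = k
      · subst hj; rw [Function.update_self]; exact s.AY m G hG
      · rw [Function.update_of_ne hj]; exact he j
    · push_cast
      linarith
    · have : P (G + B m h - F0) = P (G - F0) + P (B m h) := by
        rw [← map_add]; congr 1; abel
      rw [this]
      push_cast
      exact (norm_add_le _ _).trans (by linarith)
    · intro j hj
      by_cases hjk : j = k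
      · subst hjk
        rw [Function.update_self, Function.update_self]
        have : P (A m (G + B m h)) - z - P (A m G) = P h - z := by
          rw [map_add, s.AB m h hh, map_add]; abel
        rw [this]
        push_cast
        have : 0 ≤ ((j : ℝ) + 1) * η := by positivity
        linarith
      · rw [Function.update_of_ne hjk, Function.update_of_ne hjk]
        have hjk' : j < k := by omega
        have : P (A (n j) (G + B m h)) - z - P (e j) =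
            (P (A (n j) G) - z - P (e j)) + P (A (n j) (B m h)) := by
          rw [map_add, map_add]; abel
        rw [this]
        push_cast
        have h5 := h3 j hjk'
        have h6 := m4 j (Finset.mem_range.2 hjk')
        exact (norm_add_le _ _).trans (by linarith)
    · intro a
      rw [Finset.sum_range_succ, Finset.sum_range_succ, Function.update_self, hsum_e]
      set S := ∑ j ∈ range k, a j • e j with hS
      have hSW : S ∈ W := by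
        refine Submodule.sum_mem _ fun j hj => Submodule.smul_mem _ _ ?_
        exact Submodule.subset_span ⟨j, by simpa using hj, rfl⟩
      have h4' := h4 a
      set Q := ∑ j ∈ range k, ‖a j‖ ^ 2 * (c * (‖F0‖ ^ 2 + j * (c * ‖h‖ ^ 2 + 1)) + 1) with hQ
      have hQ0 : 0 ≤ Q := Finset.sum_nonneg fun j _ => by positivity
      have hpow : 1 ≤ (1 + η) ^ (k + 1) := one_le_pow₀ (by linarith)
      have hmain : ‖S + a k • A m G‖ ^ 2 ≤ (1 + η) * ‖S‖ ^ 2 +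
          ‖a k‖ ^ 2 * (c * ‖G‖ ^ 2 + η) := by
        by_cases hak : a k = 0
        · rw [hak]; simp
          have : 0 ≤ η * ‖S‖ ^ 2 := by positivity
          linarith
        · have h5 := m1 ((a k)⁻¹ • S) (W.smul_mem _ hSW)
          have h6 : S + a k • A m G = a k • ((a k)⁻¹ • S + A m G) := by
            rw [smul_add, smul_inv_smul₀ hak]
          have h7 : 0 < ‖a k‖ := norm_pos_iff.2 hak
          rw [h6, norm_smul, mul_pow]
          rw [norm_smul, norm_inv, mul_pow] at h5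
          calc ‖a k‖ ^ 2 * ‖(a k)⁻¹ • S + (A m) G‖ ^ 2
              ≤ ‖a k‖ ^ 2 * ((1 + η) * (‖a k‖⁻¹ ^ 2 * ‖S‖ ^ 2) + c * ‖G‖ ^ 2 + η) := by gcongr
            _ = _ := by field_simp; ring
      have h8 : ‖a k‖ ^ 2 * (c * ‖G‖ ^ 2 + η) ≤
          ‖a k‖ ^ 2 * (c * (‖F0‖ ^ 2 + k * (c * ‖h‖ ^ 2 + 1)) + 1) := by gcongr
      have h9 : (1 + η) * ‖S‖ ^ 2 ≤ (1 + η) ^ (k + 1) * Q := by
        rw [pow_succ]
        calc (1 + η) * ‖S‖ ^ 2 ≤ (1 + η) * ((1 + η) ^ k * Q) := by gcongr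
          _ = _ := by ring
      have h10 : ‖a k‖ ^ 2 * (c * (‖F0‖ ^ 2 + k * (c * ‖h‖ ^ 2 + 1)) + 1) ≤
          (1 + η) ^ (k + 1) *
            (‖a k‖ ^ 2 * (c * (‖F0‖ ^ 2 + k * (c * ‖h‖ ^ 2 + 1)) + 1)) :=
        le_mul_of_one_le_left (by positivity) hpow
      rw [mul_add]
      linarith

lemma exists_sum_large {α β K : ℝ} (hα : 0 < α) (hβ : 0 ≤ β) :
    ∃ M : ℕ, K < ∑ j ∈ range M, (α + j * β)⁻¹ := by
  have h : ¬ Summable fun j : ℕ => (α + j * β)⁻¹ := by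
    intro h
    have h1 : Summable fun j : ℕ => ((j : ℝ) + 1)⁻¹ * (α + β)⁻¹ := by
      refine Summable.of_nonneg_of_le (fun j => by positivity) (fun j => ?_) h
      rw [← mul_inv]
      apply inv_anti₀ (by positivity)
      have : 0 ≤ (j : ℝ) := Nat.cast_nonneg j
      nlinarith
    have h2 : Summable fun j : ℕ => ((j : ℝ) + 1)⁻¹ := by
      have := h1.mul_right (α + β)
      refine this.congr fun j => ?_
      rw [mul_assoc, inv_mul_cancel₀ (by positivity), mul_one]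
    have h3 := (summable_nat_add_iff (f := fun j : ℕ => ((j : ℝ))⁻¹) 1).1 (by simpa using h2)
    exact Real.not_summable_natCast_inv h3
  by_contra hcon
  push Not at hcon
  exact h (summable_of_sum_range_le (fun j => by positivity) hcon)

/-- the Bessel type inequality -/
lemma bessel {M : ℕ} {e : ℕ → Z} {b : ℕ → ℝ} (hb : ∀ j, 0 < b j)
    (hq : ∀ a : ℕ → ℂ, ‖∑ j ∈ range M, a j • e j‖ ^ 2 ≤
      2 * ∑ j ∈ range M, ‖a j‖ ^ 2 * b j) (ψ : Z →L[ℂ] ℂ) :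
    ∑ j ∈ range M, (b j)⁻¹ * ‖ψ (e j)‖ ^ 2 ≤ 2 * ‖ψ‖ ^ 2 := by
  set S := ∑ j ∈ range M, (b j)⁻¹ * ‖ψ (e j)‖ ^ 2 with hS
  have hS0 : 0 ≤ S := Finset.sum_nonneg fun j _ => by
    have := (hb j).le
    positivity
  set a : ℕ → ℂ := fun j => ((b j)⁻¹ : ℂ) * (starRingEnd ℂ) (ψ (e j)) with ha
  have h1 : ψ (∑ j ∈ range M, a j • e j) = (S : ℂ) := by
    rw [map_sum, hS]
    push_cast
    refine Finset.sum_congr rfl fun j _ => ?_
    rw [map_smul, smul_eq_mul, ha]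
    simp only
    rw [mul_assoc, ← Complex.normSq_eq_conj_mul_self, Complex.normSq_eq_norm_sq]
    push_cast
    rfl
  have h2 : S ≤ ‖ψ‖ * ‖∑ j ∈ range M, a j • e j‖ := by
    have := ψ.le_opNorm (∑ j ∈ range M, a j • e j)
    rw [h1, Complex.norm_real, Real.norm_of_nonneg hS0] at this
    exact this
  have h3 : ‖∑ j ∈ range M, a j • e j‖ ^ 2 ≤ 2 * S := by
    refine (hq a).trans (le_of_eq ?_)
    rw [hS]
    congr 1
    refine Finset.sum_congr rfl fun j _ => ?_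
    rw [ha]
    simp only
    rw [norm_mul, RCLike.norm_conj, norm_inv, Complex.norm_real, Real.norm_of_nonneg (hb j).le]
    have := (hb j).ne'
    field_simp
  have h4 : S ^ 2 ≤ ‖ψ‖ ^ 2 * (2 * S) := by
    calc S ^ 2 ≤ (‖ψ‖ * ‖∑ j ∈ range M, a j • e j‖) ^ 2 := pow_le_pow_left₀ hS0 h2 2
      _ = ‖ψ‖ ^ 2 * ‖∑ j ∈ range M, a j • e j‖ ^ 2 := by ring
      _ ≤ _ := by gcongr
  rcases hS0.eq_or_lt with h | h
  · rw [← h]; positivity
  · nlinarith

/-- **The stage lemma.** -/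
theorem Sys.stage (s : Sys Y A B P c) {z F0 : Z} (hz : P z = z) (hF0 : F0 ∈ Y) (R : ℝ) {ε : ℝ}
    (hε : 0 < ε) :
    ∃ G ∈ Y, ‖P (G - F0)‖ ≤ ε ∧ ∃ N : ℕ, ∀ (m : ℕ) (φ : Fin m → (Z →L[ℂ] ℂ)),
      ∑ i, ‖φ i‖ ^ 2 ≤ R → ∃ n ≤ N, ∀ i, ‖φ i (P (A n G) - z)‖ ≤ ε := by
  have hc0 := s.c_nonneg
  set ρ := ε / (4 * (√R + 1)) with hρ
  have hsR : 0 ≤ √R := Real.sqrt_nonneg R
  have hρ0 : 0 < ρ := by positivity
  have hρR : √R * (2 * ρ) ≤ ε / 2 := by
    rw [hρ]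
    rw [mul_div_assoc', mul_div_assoc', div_le_div_iff₀ (by positivity) (by positivity)]
    nlinarith
  obtain ⟨h, hh, hhz⟩ := s.d z hz ρ hρ0
  set b : ℕ → ℝ := fun j => c * (‖F0‖ ^ 2 + j * (c * ‖h‖ ^ 2 + 1)) + 1 with hb
  have hb0 : ∀ j, 0 < b j := fun j => by rw [hb]; positivity
  obtain ⟨M, hM⟩ : ∃ M : ℕ, 2 * ‖P‖ ^ 2 * R * (4 / ε ^ 2) < ∑ j ∈ range M, (b j)⁻¹ := by
    obtain ⟨M, hM⟩ := exists_sum_large (K := 2 * ‖P‖ ^ 2 * R * (4 / ε ^ 2))
      (α := c * ‖F0‖ ^ 2 + 1) (β := c * (c * ‖h‖ ^ 2 + 1)) (by positivity) (by positivity)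
    refine ⟨M, hM.trans_eq (Finset.sum_congr rfl fun j _ => ?_)⟩
    rw [hb]
    congr 1
    ring
  -- choice of η
  obtain ⟨η, hη0, hη1, hη2, hη3, hη4⟩ : ∃ η : ℝ, 0 < η ∧ η ≤ 1 ∧ (1 + η) ^ M ≤ 2 ∧ M * η ≤ ρ ∧
      M * η ≤ ε := by
    have t1 : Tendsto (fun η : ℝ => (1 + η) ^ M) (𝓝[>] 0) (𝓝 ((1 + 0) ^ M)) := by
      refine Tendsto.mono_left ?_ nhdsWithin_le_nhds
      exact ((continuous_const.add continuous_id).pow M).tendsto 0
    have t2 : Tendsto (fun η : ℝ => (M : ℝ) * η) (𝓝[>] 0) (𝓝 ((M : ℝ) * 0)) := by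
      refine Tendsto.mono_left ?_ nhdsWithin_le_nhds
      exact (continuous_const.mul continuous_id).tendsto 0
    simp only [add_zero, one_pow, mul_zero] at t1 t2
    have e0 : ∀ᶠ η : ℝ in 𝓝[>] 0, 0 < η := self_mem_nhdsWithin
    have e1 : ∀ᶠ η : ℝ in 𝓝[>] 0, η ≤ 1 :=
      (eventually_le_nhds (zero_lt_one' ℝ)).filter_mono nhdsWithin_le_nhds
    obtain ⟨η, h1, h2, h3, h4, h5⟩ := (e0.and (e1.and ((t1.eventually_le_const
      (by norm_num : (1 : ℝ) < 2)).and ((t2.eventually_le_const hρ0).and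
        (t2.eventually_le_const hε))))).exists
    exact ⟨η, h1, h2, h3, h4, h5⟩
  obtain ⟨G, hG, n, e, he, -, g2, g3, g4⟩ := s.step (z := z) hF0 hh hhz hη0 hη1 M
  refine ⟨G, hG, g2.trans hη4, (range M).sup n, ?_⟩
  intro m φ hφ
  by_contra hcon
  push Not at hcon
  -- bound of the functionals
  have hφi : ∀ i, ‖φ i‖ ≤ √R := by
    intro i
    apply Real.le_sqrt_of_sq_le
    exact (Finset.single_le_sum (f := fun i => ‖φ i‖ ^ 2) (fun i _ => by positivity)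
      (Finset.mem_univ i)).trans hφ
  have hbig : ∀ j ∈ range M, (ε / 2) ^ 2 ≤ ∑ i, ‖φ i (P (e j))‖ ^ 2 := by
    intro j hj
    obtain ⟨i, hi⟩ := hcon (n j) (Finset.le_sup (f := n) hj)
    have h1 := g3 j (Finset.mem_range.1 hj)
    have h2 : ‖φ i (P (A (n j) G) - z - P (e j))‖ ≤ ε / 2 := by
      calc ‖φ i (P (A (n j) G) - z - P (e j))‖ ≤ ‖φ i‖ * ‖P (A (n j) G) - z - P (e j)‖ :=
            (φ i).le_opNorm _
        _ ≤ √R * (2 * ρ) := by
            have h3 : ‖P (A (n j) G) - z - P (e j)‖ ≤ 2 * ρ := h1.trans (by linarith)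
            exact mul_le_mul (hφi i) h3 (norm_nonneg _) hsR
        _ ≤ ε / 2 := hρR
    have h4 : φ i (P (e j)) = φ i (P (A (n j) G) - z) - φ i (P (A (n j) G) - z - P (e j)) := by
      rw [← map_sub]; congr 1; abel
    have h5 : ε / 2 ≤ ‖φ i (P (e j))‖ := by
      rw [h4]
      have := norm_sub_norm_le (φ i (P (A (n j) G) - z)) (φ i (P (A (n j) G) - z - P (e j)))
      linarith
    calc (ε / 2) ^ 2 ≤ ‖φ i (P (e j))‖ ^ 2 := pow_le_pow_left₀ (by positivity) h5 2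
      _ ≤ _ := Finset.single_le_sum (f := fun i => ‖φ i (P (e j))‖ ^ 2)
        (fun i _ => by positivity) (Finset.mem_univ i)
  have hq : ∀ a : ℕ → ℂ, ‖∑ j ∈ range M, a j • e j‖ ^ 2 ≤
      2 * ∑ j ∈ range M, ‖a j‖ ^ 2 * b j := by
    intro a
    refine (g4 a).trans ?_
    have h0 : 0 ≤ ∑ j ∈ range M, ‖a j‖ ^ 2 * b j :=
      Finset.sum_nonneg fun j _ => by have := (hb0 j).le; positivity
    exact mul_le_mul_of_nonneg_right hη2 h0
  have hup : ∑ i, ∑ j ∈ range M, (b j)⁻¹ * ‖φ i (P (e j))‖ ^ 2 ≤ 2 * ‖P‖ ^ 2 * R := by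
    calc ∑ i, ∑ j ∈ range M, (b j)⁻¹ * ‖φ i (P (e j))‖ ^ 2
        ≤ ∑ i, 2 * (‖P‖ ^ 2 * ‖φ i‖ ^ 2) := by
          refine Finset.sum_le_sum fun i _ => ?_
          have h1 := bessel hb0 hq ((φ i).comp P)
          refine h1.trans ?_
          have h2 : ‖(φ i).comp P‖ ≤ ‖φ i‖ * ‖P‖ := (φ i).opNorm_comp_le P
          have h3 : ‖(φ i).comp P‖ ^ 2 ≤ (‖φ i‖ * ‖P‖) ^ 2 :=
            pow_le_pow_left₀ (norm_nonneg _) h2 2
          linarith [h3, mul_pow ‖φ i‖ ‖P‖ 2, mul_comm (‖φ i‖ ^ 2) (‖P‖ ^ 2)]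
      _ = 2 * ‖P‖ ^ 2 * ∑ i, ‖φ i‖ ^ 2 := by
          rw [Finset.mul_sum]
          exact Finset.sum_congr rfl fun i _ => by ring
      _ ≤ _ := by gcongr
  rw [Finset.sum_comm] at hup
  have hlow : (ε / 2) ^ 2 * ∑ j ∈ range M, (b j)⁻¹ ≤
      ∑ j ∈ range M, ∑ i, (b j)⁻¹ * ‖φ i (P (e j))‖ ^ 2 := by
    rw [Finset.mul_sum]
    refine Finset.sum_le_sum fun j hj => ?_
    rw [← Finset.mul_sum, mul_comm]
    exact mul_le_mul_of_nonneg_left (hbig j hj) (inv_nonneg.2 (hb0 j).le)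
  have hfin : (ε / 2) ^ 2 * (2 * ‖P‖ ^ 2 * R * (4 / ε ^ 2)) <
      (ε / 2) ^ 2 * ∑ j ∈ range M, (b j)⁻¹ := by
    apply mul_lt_mul_of_pos_left hM (by positivity)
  have heq : (ε / 2) ^ 2 * (2 * ‖P‖ ^ 2 * R * (4 / ε ^ 2)) = 2 * ‖P‖ ^ 2 * R := by
    field_simp
    ring
  linarith

end Pool.Agent.R949.WH
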