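import Pool.Agent.R949.WH.Comp
import Pool.Agent.R949.WH.Stage
set_option autoImplicit false

/-! # Riemann-Lebesgue type lemmas and density -/

open MeasureTheory AddCircle Filter Topology Complex
open scoped ComplexConjugate ENNReal

namespace Pool.Agent.R949.WH

/-- vectors killed asymptotically -/
def nullSub {E F : Type*} [NormedAddCommGroup E] [NormedSpace ℂ E] [NormedAddCommGroup F]
    [NormedSpace ℂ F] (L : ℕ → E →L[ℂ] F) : Submodule ℂ E where
  carrier := {x | Tendsto (fun n => L n x) atTop (𝓝 0)}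
  add_mem' := by
    intro x y hx hy
    have := Tendsto.add (show Tendsto (fun n => L n x) atTop (𝓝 0) from hx)
      (show Tendsto (fun n => L n y) atTop (𝓝 0) from hy)
    rw [add_zero] at this
    exact this.congr fun n => (map_add (L n) x y).symm
  zero_mem' := by simp
  smul_mem' := by
    intro c x hx
    have := Tendsto.const_smul (show Tendsto (fun n => L n x) atTop (𝓝 0) from hx) c
    rw [smul_zero] at this
    exact this.congr fun n => (map_smul (L n) c x).symm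

lemma nullSub_closed {E F : Type*} [NormedAddCommGroup E] [NormedSpace ℂ E]
    [NormedAddCommGroup F] [NormedSpace ℂ F] (L : ℕ → E →L[ℂ] F) {C : ℝ} (hC0 : 0 ≤ C)
    (hC : ∀ n x, ‖L n x‖ ≤ C * ‖x‖) : IsClosed (nullSub L : Set E) := by
  rw [← closure_subset_iff_isClosed]
  intro x hx
  show Tendsto (fun n => L n x) atTop (𝓝 0)
  rw [Metric.tendsto_atTop]
  intro ε hε
  rw [Metric.mem_closure_iff] at hx
  obtain ⟨y, hy, hxy⟩ := hx (ε / (2 * (C + 1))) (by positivity)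
  have hy' : Tendsto (fun n => L n y) atTop (𝓝 0) := hy
  rw [Metric.tendsto_atTop] at hy'
  obtain ⟨N, hN⟩ := hy' (ε / 2) (by positivity)
  refine ⟨N, fun n hn => ?_⟩
  have h1 := hN n hn
  rw [dist_zero_right] at h1 ⊢
  have h2 : L n x = L n y + L n (x - y) := by rw [← map_add]; congr 1; abel
  rw [h2]
  have h3 := hC n (x - y)
  rw [dist_eq_norm] at hxy
  have h4 : C * ‖x - y‖ ≤ ε / 2 := by
    have h5 : (C + 1) * ‖x - y‖ ≤ (C + 1) * (ε / (2 * (C + 1))) := by gcongr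
    have h6 : (C + 1) * (ε / (2 * (C + 1))) = ε / 2 := by field_simp
    have h7 : C * ‖x - y‖ ≤ (C + 1) * ‖x - y‖ := by gcongr; linarith
    linarith
  exact (norm_add_le _ _).trans_lt (by linarith)

/-- a bounded sequence of power series tending to zero on `(0,1)` tends to zero
coefficientwise -/
lemma coeff_tendsto {a : ℕ → ℕ → ℂ} (ha : ∀ n k, ‖a n k‖ ≤ 1) {S : ℕ → ℝ → ℂ}
    (hS : ∀ n, ∀ x : ℝ, 0 < x → x < 1 → HasSum (fun k => a n k * (x : ℂ) ^ k) (S n x))
    (h0 : ∀ x : ℝ, 0 < x → x < 1 → Tendsto (fun n => S n x) atTop (𝓝 0)) (k : ℕ) :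
    Tendsto (fun n => a n k) atTop (𝓝 0) := by
  induction k using Nat.strong_induction_on with
  | _ k ih =>
    rw [Metric.tendsto_atTop]
    intro ε hε
    set x : ℝ := min (1 / 2) (ε / 8) with hx
    have hx0 : 0 < x := lt_min (by norm_num) (by positivity)
    have hx2 : x ≤ 1 / 2 := min_le_left _ _
    have hxe : x ≤ ε / 8 := min_le_right _ _
    have hx1 : x < 1 := by linarith
    have h1 : Tendsto (fun n => S n x - ∑ j ∈ Finset.range k, a n j * (x : ℂ) ^ j) atTop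
        (𝓝 (0 - ∑ j ∈ Finset.range k, 0 * (x : ℂ) ^ j)) := by
      apply (h0 x hx0 hx1).sub
      apply tendsto_finsetSum
      intro j hj
      exact (ih j (Finset.mem_range.1 hj)).mul_const _
    simp only [zero_mul, Finset.sum_const_zero, sub_zero] at h1
    rw [Metric.tendsto_atTop] at h1
    obtain ⟨N, hN⟩ := h1 (x ^ k * (ε / 2)) (by positivity)
    refine ⟨N, fun n hn => ?_⟩
    have h2 := hN n hn
    rw [dist_zero_right] at h2 ⊢
    have h3 := hS n x hx0 hx1
    have h4 := h3.summable.sum_add_tsum_nat_add (k + 1)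
    rw [h3.tsum_eq, Finset.sum_range_succ] at h4
    have h5 : a n k * (x : ℂ) ^ k = (S n x - ∑ j ∈ Finset.range k, a n j * (x : ℂ) ^ j) -
        ∑' j, a n (j + (k + 1)) * (x : ℂ) ^ (j + (k + 1)) := by
      rw [← h4]; ring
    have h6 : ‖∑' j, a n (j + (k + 1)) * (x : ℂ) ^ (j + (k + 1))‖ ≤
        x ^ (k + 1) * (1 - x)⁻¹ := by
      apply tsum_of_norm_bounded (g := fun j => x ^ (k + 1) * x ^ j)
      · exact (hasSum_geometric_of_lt_one hx0.le hx1).mul_left _
      · intro j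
        rw [norm_mul, norm_pow, Complex.norm_real, Real.norm_of_nonneg hx0.le]
        have := ha n (j + (k + 1))
        calc ‖a n (j + (k + 1))‖ * x ^ (j + (k + 1)) ≤ 1 * x ^ (j + (k + 1)) := by gcongr
          _ = _ := by ring
    have h7 : ‖a n k‖ * x ^ k < x ^ k * ε := by
      have h8 : ‖a n k * (x : ℂ) ^ k‖ = ‖a n k‖ * x ^ k := by
        rw [norm_mul, norm_pow, Complex.norm_real, Real.norm_of_nonneg hx0.le]
      rw [← h8, h5]
      refine (norm_sub_le _ _).trans_lt ?_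
      have h9 : (1 - x)⁻¹ ≤ 2 := by
        rw [inv_le_comm₀ (by linarith) (by norm_num)]; linarith
      have h10 : x ^ (k + 1) * (1 - x)⁻¹ ≤ x ^ k * (ε / 4) := by
        rw [pow_succ]
        calc x ^ k * x * (1 - x)⁻¹ ≤ x ^ k * (ε / 8) * 2 := by gcongr
          _ = _ := by ring
      have h11 : 0 < x ^ k * ε := by positivity
      nlinarith
    have h12 : 0 < x ^ k := by positivity
    rw [mul_comm (x ^ k) ε] at h7
    exact lt_of_mul_lt_mul_right h7 h12.le

/-- positivity of the Poisson integral -/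
lemma poisson {w : Circ → ℝ} (hw : Measurable w) {C : ℝ} (hw0 : ∀ t, 0 ≤ w t)
    (hC : ∀ t, w t ≤ C) {z : ℂ} (hz : ‖z‖ < 1) :
    (1 - ‖z‖) / (1 + ‖z‖) * ∫ t, w t ∂mu ≤
      (2 * ev z (fun t => (w t : ℂ)) - ev 0 (fun t => (w t : ℂ))).re := by
  have hwi : Integrable (fun t => (w t : ℂ)) mu :=
    (memLp_real hw (C := C) fun t => by rw [abs_of_nonneg (hw0 t)]; exact hC t).integrable
      (by norm_num)
  have hwr : Integrable w mu := by
    have := hwi.re
    exact this.congr (Eventually.of_forall fun t => by simp)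
  have hk := integrable_mul_bdd hwi (continuous_kernel hz).aestronglyMeasurable (norm_kernel_le hz)
  have h1 : 2 * ev z (fun t => (w t : ℂ)) - ev 0 (fun t => (w t : ℂ)) =
      ∫ t, (2 * ((w t : ℂ) * (1 - z * fourier (-1) t)⁻¹) - (w t : ℂ)) ∂mu := by
    rw [integral_sub (hk.const_mul 2) hwi, integral_const_mul]
    congr 1
    unfold ev
    refine integral_congr_ae (Eventually.of_forall fun t => ?_)
    simp
  have hint := (hk.const_mul 2).sub hwi
  rw [h1, ← integral_const_mul]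
  have h2 : (∫ t, (2 * ((w t : ℂ) * (1 - z * fourier (-1) t)⁻¹) - (w t : ℂ)) ∂mu).re =
      ∫ t, (2 * ((w t : ℂ) * (1 - z * fourier (-1) t)⁻¹) - (w t : ℂ)).re ∂mu :=
    (integral_re hint).symm
  rw [h2]
  apply integral_mono (hwr.const_mul _) hint.re
  intro t
  simp only
  set ζ : ℂ := z * fourier (-1) t with hζ
  have hζn : ‖ζ‖ = ‖z‖ := by rw [hζ, norm_mul, norm_fourier_apply, mul_one]
  have hne : (1 : ℂ) - ζ ≠ 0 := one_sub_ne hz t
  have hns : Complex.normSq (1 - ζ) ≠ 0 := by simpa using hne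
  have h3 : (2 * ((w t : ℂ) * (1 - ζ)⁻¹) - (w t : ℂ)).re =
      w t * ((1 - ‖z‖ ^ 2) / Complex.normSq (1 - ζ)) := by
    have h4 : (2 * ((w t : ℂ) * (1 - ζ)⁻¹) - (w t : ℂ)).re = w t * (2 * ((1 - ζ)⁻¹).re - 1) := by
      have : (2 * ((w t : ℂ) * (1 - ζ)⁻¹) - (w t : ℂ)) = (w t : ℂ) * (2 * (1 - ζ)⁻¹ - 1) := by ring
      rw [this, Complex.re_ofReal_mul]
      simp
    rw [h4, Complex.inv_re]
    congr 1
    field_simp
    rw [← hζn, ← Complex.normSq_eq_norm_sq, Complex.normSq_apply, Complex.normSq_apply]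
    simp
    ring
  show (1 - ‖z‖) / (1 + ‖z‖) * w t ≤ (2 * ((w t : ℂ) * (1 - ζ)⁻¹) - (w t : ℂ)).re
  rw [h3, mul_comm]
  apply mul_le_mul_of_nonneg_left _ (hw0 t)
  have h6 : Complex.normSq (1 - ζ) ≤ (1 + ‖z‖) ^ 2 := by
    rw [Complex.normSq_eq_norm_sq]
    apply pow_le_pow_left₀ (norm_nonneg _)
    refine (norm_sub_le _ _).trans ?_
    rw [norm_one, hζn]
  have h7 : 0 < Complex.normSq (1 - ζ) := Complex.normSq_pos.2 hne
  have h8 : 0 ≤ ‖z‖ := norm_nonneg _
  rw [div_le_div_iff₀ (by positivity) h7]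
  have h9 : (1 - ‖z‖) * Complex.normSq (1 - ζ) ≤ (1 - ‖z‖) * (1 + ‖z‖) ^ 2 :=
    mul_le_mul_of_nonneg_left h6 (by linarith)
  nlinarith

section sym

variable {w : Circ → ℝ} {F : Circ → ℂ}

lemma norm_coeff_le_one {G : Circ → ℂ} (h : ∀ t, ‖G t‖ ≤ 1)
    (n : ℤ) : ‖fourierCoeff G n‖ ≤ 1 := by
  unfold fourierCoeff
  have : ‖∫ t, (fourier (-n) t : ℂ) • G t ∂mu‖ ≤ ∫ t, (1 : ℝ) ∂mu := by
    apply norm_integral_le_of_norm_le (integrable_const _)
    refine Eventually.of_forall fun t => ?_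
    rw [norm_smul, norm_fourier_apply, one_mul]
    exact h t
  simpa using this

lemma integrable_bdd {G : Circ → ℂ} (hG : AEStronglyMeasurable G mu) {C : ℝ}
    (h : ∀ t, ‖G t‖ ≤ C) : Integrable G mu :=
  Integrable.of_bound hG C (Eventually.of_forall h)

lemma norm_Ex_neg_le (hw0 : ∀ t, 0 ≤ w t) (n : ℕ) (t : Circ) : ‖Ex w F (-(n : ℝ)) t‖ ≤ 1 := by
  rw [norm_Ex]
  apply Real.exp_le_one_iff.2
  have := hw0 t
  have : 0 ≤ (n : ℝ) := Nat.cast_nonneg n
  nlinarith [mul_nonneg this (hw0 t)]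

lemma norm_Ex_le {C : ℝ} (hC : ∀ t, w t ≤ C) {s : ℝ} (hs : 0 ≤ s) (t : Circ) :
    ‖Ex w F s t‖ ≤ Real.exp (s * C) := by
  rw [norm_Ex]
  apply Real.exp_le_exp.2
  exact mul_le_mul_of_nonneg_left (hC t) hs

/-- the Fourier coefficients of `g⁻ⁿ` tend to zero -/
lemma coeff_Ex_tendsto (hs : IsSym w F) {C : ℝ} (hw0 : ∀ t, 0 ≤ w t) (hC : ∀ t, w t ≤ C)
    (hpos : 0 < ∫ t, w t ∂mu) (k : ℤ) :
    Tendsto (fun n : ℕ => fourierCoeff (Ex w F (-(n : ℝ))) k) atTop (𝓝 0) := by
  rcases lt_or_ge k 0 with hk | hk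
  · simp only [hs.coeff _ k hk]
    exact tendsto_const_nhds
  obtain ⟨j, rfl⟩ := Int.eq_ofNat_of_zero_le hk
  apply coeff_tendsto (a := fun n k => fourierCoeff (Ex w F (-(n : ℝ))) ((k : ℕ) : ℤ))
    (S := fun n x => exp ((-(n : ℝ) : ℝ) * (2 * ev x (fun t => (w t : ℂ)) -
      ev 0 (fun t => (w t : ℂ)))))
  · intro n k
    exact norm_coeff_le_one (norm_Ex_neg_le hw0 n) _
  · intro n x hx0 hx1
    have hx : ‖(x : ℂ)‖ < 1 := by rw [Complex.norm_real, Real.norm_of_nonneg hx0.le]; exact hx1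
    rw [← hs.ev _ _ hx]
    exact hasSum_ev hx (integrable_bdd (aesm_Ex hs.meas_w hs.meas_F _) (norm_Ex_neg_le hw0 n))
  · intro x hx0 hx1
    have hx : ‖(x : ℂ)‖ < 1 := by rw [Complex.norm_real, Real.norm_of_nonneg hx0.le]; exact hx1
    have hp := poisson hs.meas_w hw0 hC hx
    rw [Complex.norm_real, Real.norm_of_nonneg hx0.le] at hp
    set H := 2 * ev (x : ℂ) (fun t => (w t : ℂ)) - ev 0 (fun t => (w t : ℂ)) with hH
    have hδ : 0 < (1 - x) / (1 + x) * ∫ t, w t ∂mu :=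
      mul_pos (div_pos (by linarith) (by linarith)) hpos
    have hre : 0 < H.re := hδ.trans_le hp
    rw [tendsto_zero_iff_norm_tendsto_zero]
    have : ∀ n : ℕ, ‖exp ((-(n : ℝ) : ℝ) * H)‖ = Real.exp (-H.re) ^ n := by
      intro n
      rw [Complex.norm_exp, Complex.re_ofReal_mul, ← Real.exp_nat_mul]
      congr 1
      ring
    simp only [this]
    exact tendsto_pow_atTop_nhds_zero_of_lt_one (Real.exp_nonneg _)
      (Real.exp_lt_one_iff.2 (by linarith))

/-- Riemann-Lebesgue -/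
lemma RL (hs : IsSym w F) {C : ℝ} (hw0 : ∀ t, 0 ≤ w t) (hC : ∀ t, w t ≤ C)
    (hpos : 0 < ∫ t, w t ∂mu) {φ : Circ → ℂ} (hφ : Integrable φ mu) :
    Tendsto (fun n : ℕ => ∫ t, φ t * Ex w F (-(n : ℝ)) t ∂mu) atTop (𝓝 0) := by
  set L : ℕ → Lp ℂ 1 mu →L[ℂ] ℂ := fun n => intL 1 (Ex w F (-(n : ℝ)))
    (aesm_Ex hs.meas_w hs.meas_F _) 1 (norm_Ex_neg_le hw0 n) with hL
  have hcl : IsClosed (nullSub L : Set (Lp ℂ 1 mu)) := by
    apply nullSub_closed L zero_le_one
    intro n x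
    have := (L n).le_of_opNorm_le (LinearMap.mkContinuous_norm_le _ zero_le_one _) x
    exact this
  have htop : nullSub L = ⊤ := by
    apply closed_eq_top (by simp) hcl
    intro k
    show Tendsto (fun n => L n (fourierLp 1 k)) atTop (𝓝 0)
    refine (coeff_Ex_tendsto hs hw0 hC hpos (-k)).congr fun n => ?_
    rw [hL, intL_apply]
    unfold fourierCoeff
    refine integral_congr_ae ?_
    filter_upwards [coeFn_fourierLp (T := (1 : ℝ)) 1 k] with t ht
    rw [ht, neg_neg, smul_eq_mul]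
  have h1 : hφ.toL1 φ ∈ nullSub L := by rw [htop]; trivial
  have h2 : Tendsto (fun n => L n (hφ.toL1 φ)) atTop (𝓝 0) := h1
  refine h2.congr fun n => ?_
  rw [hL, intL_apply]
  refine integral_congr_ae ?_
  filter_upwards [hφ.coeFn_toL1] with t ht
  rw [ht]

lemma RL_conj (hs : IsSym w F) {C : ℝ} (hw0 : ∀ t, 0 ≤ w t) (hC : ∀ t, w t ≤ C)
    (hpos : 0 < ∫ t, w t ∂mu) {φ : Circ → ℂ} (hφ : Integrable φ mu) :
    Tendsto (fun n : ℕ => ∫ t, φ t * conj (Ex w F (-(n : ℝ)) t) ∂mu) atTop (𝓝 0) := by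
  have hφ' : Integrable (fun t => conj (φ t)) mu := by
    refine hφ.norm.mono' (continuous_conj.comp_aestronglyMeasurable hφ.1)
      (Eventually.of_forall fun t => by simp)
  have h := RL hs hw0 hC hpos hφ'
  have h2 := (continuous_conj.tendsto (0 : ℂ)).comp h
  rw [map_zero] at h2
  refine h2.congr fun n => ?_
  show conj (∫ t, conj (φ t) * Ex w F (-(n : ℝ)) t ∂mu) = _
  rw [← integral_conj]
  refine integral_congr_ae (Eventually.of_forall fun t => ?_)
  simp

variable {p : ℝ≥0∞} [Fact (1 ≤ p)]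

/-- coefficients of `conj G * e_k` -/
lemma coeff_conj_mul (G : Circ → ℂ) (hG : AEStronglyMeasurable (fun t => conj (G t)) mu) (C : ℝ)
    (hC : ∀ t, ‖conj (G t)‖ ≤ C) (k j : ℤ) :
    fourierCoeff (mulOp p (fun t => conj (G t)) hG C hC (fourierLp p k)) j =
      conj (fourierCoeff G (k - j)) := by
  unfold fourierCoeff
  rw [← integral_conj]
  refine integral_congr_ae ?_
  filter_upwards [coeFn_mulOp (p := p) (fun t => conj (G t)) hG C hC (fourierLp p k),
    coeFn_fourierLp p k] with t h1 h2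
  rw [h1, h2, smul_eq_mul, smul_eq_mul, map_mul, ← fourier_neg]
  have h3 : (fourier (-(-(k - j))) t : ℂ) = fourier (-j) t * fourier k t := by
    rw [← fourier_add]; congr 2; ring
  rw [h3]; ring

/-- the Riesz projection of `conj G * e_k` for analytic `G` -/
lemma riesz_conj_mul {P : Lp ℂ p mu →L[ℂ] Lp ℂ p mu} (hP : IsRiesz P) (hp : 2 ≤ p)
    (G : Circ → ℂ) (hG : AEStronglyMeasurable (fun t => conj (G t)) mu) (C : ℝ)
    (hC : ∀ t, ‖conj (G t)‖ ≤ C) (hG0 : ∀ n < 0, fourierCoeff G n = 0) (k : ℤ) :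
    P (mulOp p (fun t => conj (G t)) hG C hC (fourierLp p k)) =
      ∑ j ∈ Finset.Icc 0 k, conj (fourierCoeff G (k - j)) • fourierLp p j := by
  apply coeff_ext hp
  intro n
  rw [hP, coeff_conj_mul, ← coeffL_apply, map_sum]
  simp only [map_smul, coeffL_apply, coeff_fourierLp, smul_eq_mul, mul_ite, mul_one, mul_zero]
  rw [Finset.sum_ite_eq]
  by_cases h0 : 0 ≤ n
  · by_cases hk : n ≤ k
    · rw [if_pos h0, if_pos (Finset.mem_Icc.2 ⟨h0, hk⟩)]
    · rw [if_pos h0, if_neg (by rw [Finset.mem_Icc]; tauto), hG0 _ (by omega), map_zero]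
  · rw [if_neg h0, if_neg (by rw [Finset.mem_Icc]; tauto)]

lemma aesm_conj {G : Circ → ℂ} (hG : AEStronglyMeasurable G mu) :
    AEStronglyMeasurable (fun t => conj (G t)) mu :=
  continuous_conj.comp_aestronglyMeasurable hG

lemma norm_conj_le {G : Circ → ℂ} {C : ℝ} (h : ∀ t, ‖G t‖ ≤ C) (t : Circ) :
    ‖conj (G t)‖ ≤ C := by
  rw [RCLike.norm_conj]; exact h t

/-- the operator `P (conj g · P f) = P (conj g · f)` -/
lemma riesz_mul_riesz {P : Lp ℂ p mu →L[ℂ] Lp ℂ p mu} (hP : IsRiesz P) (hp : 2 ≤ p)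
    (hpt : p ≠ ∞) (G : Circ → ℂ) (hG : AEStronglyMeasurable (fun t => conj (G t)) mu) (C : ℝ)
    (hC : ∀ t, ‖conj (G t)‖ ≤ C) (hG0 : ∀ n < 0, fourierCoeff G n = 0) (f : Lp ℂ p mu) :
    P (mulOp p (fun t => conj (G t)) hG C hC (P f)) =
      P (mulOp p (fun t => conj (G t)) hG C hC f) := by
  set A := mulOp p (fun t => conj (G t)) hG C hC with hA
  set D : Lp ℂ p mu →L[ℂ] Lp ℂ p mu := P.comp (A.comp P) - P.comp A with hD
  have htop : LinearMap.ker D.toLinearMap = ⊤ := by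
    apply closed_eq_top hpt
    · exact D.isClosed_ker
    · intro k
      rw [LinearMap.mem_ker]
      show P (A (P (fourierLp p k))) - P (A (fourierLp p k)) = 0
      rcases le_or_gt 0 k with hk | hk
      · rw [hP.fourier_nat hp hk, sub_self]
      · rw [hP.fourier_neg hp hk, map_zero, map_zero, zero_sub, neg_eq_zero]
        rw [hA, riesz_conj_mul hP hp G hG C hC hG0]
        apply Finset.sum_eq_zero
        intro j hj
        rw [Finset.mem_Icc] at hj
        omega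
  have : f ∈ LinearMap.ker D.toLinearMap := by rw [htop]; trivial
  rw [LinearMap.mem_ker] at this
  exact sub_eq_zero.1 this

/-- property (a) -/
lemma riesz_tendsto {P : Lp ℂ p mu →L[ℂ] Lp ℂ p mu} (hP : IsRiesz P) (hp : 2 ≤ p)
    (hpt : p ≠ ∞) (hs : IsSym w F) {C : ℝ} (hw0 : ∀ t, 0 ≤ w t) (hC : ∀ t, w t ≤ C)
    (hpos : 0 < ∫ t, w t ∂mu) (f : Lp ℂ p mu) :
    Tendsto (fun n : ℕ => P (mulOp p (fun t => conj (Ex w F (-(n : ℝ)) t))
      (aesm_conj (aesm_Ex hs.meas_w hs.meas_F _)) 1 (norm_conj_le (norm_Ex_neg_le hw0 n)) f))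
      atTop (𝓝 0) := by
  set L : ℕ → Lp ℂ p mu →L[ℂ] Lp ℂ p mu := fun n =>
    P.comp (mulOp p (fun t => conj (Ex w F (-(n : ℝ)) t))
      (aesm_conj (aesm_Ex hs.meas_w hs.meas_F _)) 1 (norm_conj_le (norm_Ex_neg_le hw0 n))) with hL
  have hcl : IsClosed (nullSub L : Set (Lp ℂ p mu)) := by
    apply nullSub_closed L (norm_nonneg P)
    intro n x
    refine (P.le_opNorm _).trans ?_
    apply mul_le_mul_of_nonneg_left _ (norm_nonneg _)
    refine (norm_mulOp_le _ _ _ _ _).trans ?_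
    rw [one_mul]
  have htop : nullSub L = ⊤ := by
    apply closed_eq_top hpt hcl
    intro k
    show Tendsto (fun n => L n (fourierLp p k)) atTop (𝓝 0)
    have : Tendsto (fun n : ℕ => ∑ j ∈ Finset.Icc 0 k,
        conj (fourierCoeff (Ex w F (-(n : ℝ))) (k - j)) • fourierLp (T := (1 : ℝ)) p j) atTop
        (𝓝 (∑ j ∈ Finset.Icc 0 k, (0 : ℂ) • fourierLp (T := (1 : ℝ)) p j)) := by
      apply tendsto_finsetSum
      intro j _
      apply Tendsto.smul_const
      have := (continuous_conj.tendsto (0 : ℂ)).comp (coeff_Ex_tendsto hs hw0 hC hpos (k - j))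
      rw [map_zero] at this
      exact this
    simp only [zero_smul, Finset.sum_const_zero] at this
    refine this.congr fun n => ?_
    exact (riesz_conj_mul hP hp _ _ _ _ (fun m hm => hs.coeff _ m hm) k).symm
  have h1 : f ∈ nullSub L := by rw [htop]; trivial
  exact h1

end sym

end Pool.Agent.R949.WH
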