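import Pool.Agent.R949.WH.RL
set_option autoImplicit false

/-! # The abstract situation on the circle -/

open MeasureTheory AddCircle Filter Topology Complex
open scoped ComplexConjugate ENNReal

namespace Pool.Agent.R949.WH

variable {p : ℝ≥0∞} [Fact (1 ≤ p)]

/-- functions vanishing off `E` -/
def offSub (p : ℝ≥0∞) [Fact (1 ≤ p)] (E : Set Circ) : Submodule ℂ (Lp ℂ p mu) where
  carrier := {f | ∀ᵐ t ∂mu, t ∉ E → f t = 0}
  add_mem' := by
    intro f g hf hg
    have hf' : ∀ᵐ t ∂mu, t ∉ E → f t = 0 := hf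
    have hg' : ∀ᵐ t ∂mu, t ∉ E → g t = 0 := hg
    show ∀ᵐ t ∂mu, t ∉ E → (f + g) t = 0
    filter_upwards [Lp.coeFn_add f g, hf', hg'] with t h1 h2 h3 ht
    rw [h1, Pi.add_apply, h2 ht, h3 ht, add_zero]
  zero_mem' := by
    filter_upwards [Lp.coeFn_zero ℂ p mu] with t h1 _
    rw [h1]; rfl
  smul_mem' := by
    intro c f hf
    have hf' : ∀ᵐ t ∂mu, t ∉ E → f t = 0 := hf
    show ∀ᵐ t ∂mu, t ∉ E → (c • f) t = 0
    filter_upwards [Lp.coeFn_smul c f, hf'] with t h1 h2 ht
    rw [h1, Pi.smul_apply, h2 ht, smul_zero]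

lemma mulOp_off {E : Set Circ} (G : Circ → ℂ) (hG : AEStronglyMeasurable G mu)
    (C : ℝ) (hC : ∀ t, ‖G t‖ ≤ C) {f : Lp ℂ p mu} (hf : f ∈ offSub p E) :
    mulOp p G hG C hC f ∈ offSub p E := by
  have hf' : ∀ᵐ t ∂mu, t ∉ E → f t = 0 := hf
  show ∀ᵐ t ∂mu, t ∉ E → (mulOp p G hG C hC f) t = 0
  filter_upwards [coeFn_mulOp G hG C hC f, hf'] with t h1 h2 ht
  rw [h1, h2 ht, mul_zero]

/-- **Density of the range.** -/
theorem dense_range {P : Lp ℂ p mu →L[ℂ] Lp ℂ p mu} (hP : IsRiesz P) (hp : 2 ≤ p)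
    (hpt : p ≠ ∞) {P2 : Lp ℂ 2 mu →L[ℂ] Lp ℂ 2 mu} (hP2 : IsRiesz P2) {E : Set Circ}
    (hE : MeasurableSet E) (hE0 : mu E ≠ 0) {z : Lp ℂ p mu} (hz : P z = z) {δ : ℝ} (hδ : 0 < δ) :
    ∃ h ∈ offSub p E, ‖P h - z‖ ≤ δ := by
  classical
  set u : Circ → ℝ := Eᶜ.indicator 1 with hu
  have hum : Measurable u := measurable_one.indicator hE.compl
  have hu0 : ∀ t, 0 ≤ u t := fun t => Set.indicator_nonneg (fun _ _ => zero_le_one) t
  have hu1 : ∀ t, u t ≤ 1 := fun t => Set.indicator_le_self' (fun _ _ => zero_le_one) t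
  have hua : ∀ t, |u t| ≤ 1 := fun t => by rw [abs_of_nonneg (hu0 t)]; exact hu1 t
  have hs := isSym hP2 hum hua (memLp_real hum hua)
  set F := opM P2 (memLp_real hum hua).toLp with hF
  set κ : ℝ := mu.real E with hκ
  have hκ0 : 0 < κ := ENNReal.toReal_pos hE0 (measure_ne_top _ _)
  have hint : ∫ t, u t ∂mu = 1 - κ := by
    rw [hu, integral_indicator_one hE.compl, hκ, probReal_compl_eq_one_sub hE]
  have hev : ev 0 (fun t => (u t : ℂ)) = ((1 - κ : ℝ) : ℂ) := by
    rw [← hint, ← integral_complex_ofReal]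
    unfold ev
    refine integral_congr_ae (Eventually.of_forall fun t => ?_)
    simp
  -- the function ψ
  set ψ : ℕ → Circ → ℂ := fun N t => (Real.exp (N * (1 - κ)) : ℂ) * Ex u F (-(N : ℝ)) t with hψ
  have hψm : ∀ N, AEStronglyMeasurable (ψ N) mu := fun N =>
    (aesm_Ex hs.meas_w hs.meas_F _).const_mul _
  have hψn : ∀ N t, ‖ψ N t‖ = Real.exp (N * (1 - κ)) * Real.exp (-(N : ℝ) * u t) := by
    intro N t
    rw [hψ]
    simp only
    rw [norm_mul, norm_Ex, Complex.norm_real, Real.norm_of_nonneg (Real.exp_nonneg _)]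
  have hψC : ∀ N t, ‖ψ N t‖ ≤ Real.exp (N * (1 - κ)) := by
    intro N t
    rw [hψn]
    apply mul_le_of_le_one_right (Real.exp_nonneg _)
    apply Real.exp_le_one_iff.2
    have : 0 ≤ (N : ℝ) := Nat.cast_nonneg N
    nlinarith [mul_nonneg this (hu0 t)]
  have hψoff : ∀ N t, t ∉ E → ‖ψ N t‖ ≤ Real.exp (-κ) ^ N := by
    intro N t ht
    rw [hψn, hu, Set.indicator_of_mem (show t ∈ Eᶜ from ht), ← Real.exp_add,
      ← Real.exp_nat_mul]
    apply Real.exp_le_exp.2
    simp only [Pi.one_apply]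
    nlinarith
  have hψneg : ∀ N, ∀ n < 0, fourierCoeff (ψ N) n = 0 := by
    intro N n hn
    rw [hψ]
    simp only
    rw [coeff_const_mul, hs.coeff _ n hn, mul_zero]
  have hψ0 : ∀ N, fourierCoeff (ψ N) 0 = 1 := by
    intro N
    rw [hψ]
    simp only
    rw [coeff_const_mul, ← ev_zero, hs.ev _ 0 (by simp), hev]
    rw [Complex.ofReal_exp, ← Complex.exp_add]
    rw [Complex.exp_eq_one_iff]
    refine ⟨0, ?_⟩
    push_cast
    ring
  set R : Submodule ℂ (Lp ℂ p mu) :=
    ((offSub p E).map P.toLinearMap).topologicalClosure with hR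
  have hRc : IsClosed (R : Set (Lp ℂ p mu)) := Submodule.isClosed_topologicalClosure _
  have hmem : ∀ k : ℕ, fourierLp p (k : ℤ) ∈ R := by
    intro k
    induction k using Nat.strong_induction_on with
    | _ k ih =>
      -- the two pieces
      set g1 : ℕ → Circ → ℂ := fun N => E.indicator fun t => conj (ψ N t) with hg1
      set g2 : ℕ → Circ → ℂ := fun N => Eᶜ.indicator fun t => conj (ψ N t) with hg2
      have hg1m : ∀ N, AEStronglyMeasurable (g1 N) mu := fun N =>
        (aesm_conj (hψm N)).indicator hE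
      have hg2m : ∀ N, AEStronglyMeasurable (g2 N) mu := fun N =>
        (aesm_conj (hψm N)).indicator hE.compl
      have hg1C : ∀ N t, ‖g1 N t‖ ≤ Real.exp (N * (1 - κ)) := by
        intro N t
        refine (norm_indicator_le_norm_self _ _).trans ?_
        rw [RCLike.norm_conj]
        exact hψC N t
      have hg2C : ∀ N t, ‖g2 N t‖ ≤ Real.exp (-κ) ^ N := by
        intro N t
        by_cases ht : t ∈ E
        · rw [hg2]
          simp only
          rw [Set.indicator_of_notMem (by simpa using ht), norm_zero]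
          positivity
        · rw [hg2]
          simp only
          rw [Set.indicator_of_mem (show t ∈ Eᶜ from ht), RCLike.norm_conj]
          exact hψoff N t ht
      set A1 : ℕ → Lp ℂ p mu := fun N => mulOp p (g1 N) (hg1m N) _ (hg1C N) (fourierLp p k) with hA1
      set A2 : ℕ → Lp ℂ p mu := fun N => mulOp p (g2 N) (hg2m N) _ (hg2C N) (fourierLp p k) with hA2
      have hsplit : ∀ N, mulOp p (fun t => conj (ψ N t)) (aesm_conj (hψm N)) _
          (norm_conj_le (hψC N)) (fourierLp p k) = A1 N + A2 N := by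
        intro N
        apply Lp.ext
        filter_upwards [coeFn_mulOp (p := p) (fun t => conj (ψ N t)) (aesm_conj (hψm N)) _
          (norm_conj_le (hψC N)) (fourierLp p k), coeFn_mulOp (p := p) (g1 N) (hg1m N) _ (hg1C N)
          (fourierLp p k), coeFn_mulOp (p := p) (g2 N) (hg2m N) _ (hg2C N) (fourierLp p k),
          Lp.coeFn_add (A1 N) (A2 N)] with t h1 h2 h3 h4
        rw [h1, h4, Pi.add_apply, h2, h3, ← add_mul]
        congr 1
        exact (Set.indicator_self_add_compl_apply E (fun t => conj (ψ N t)) t).symm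
      have hA1R : ∀ N, P (A1 N) ∈ R := by
        intro N
        apply Submodule.le_topologicalClosure
        refine ⟨A1 N, ?_, rfl⟩
        show ∀ᵐ t ∂mu, t ∉ E → (A1 N) t = 0
        filter_upwards [coeFn_mulOp (p := p) (g1 N) (hg1m N) _ (hg1C N) (fourierLp p k)] with t h1 ht
        rw [h1, hg1]
        simp only
        rw [Set.indicator_of_notMem ht, zero_mul]
      have hformula : ∀ N, fourierLp p (k : ℤ) - P (A2 N) = P (A1 N) -
          ∑ j ∈ (Finset.Icc 0 (k : ℤ)).erase k,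
            conj (fourierCoeff (ψ N) (k - j)) • fourierLp (T := (1 : ℝ)) p j := by
        intro N
        have h1 := riesz_conj_mul hP hp (ψ N) (aesm_conj (hψm N)) _ (norm_conj_le (hψC N))
          (hψneg N) k
        rw [hsplit N, map_add, ← Finset.add_sum_erase _ _
          (Finset.mem_Icc.2 ⟨by positivity, le_refl (k : ℤ)⟩), sub_self, hψ0, map_one,
          one_smul] at h1
        rw [eq_sub_iff_add_eq]
        have : P (A1 N) = (P (A1 N) + P (A2 N)) - P (A2 N) := by abel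
        rw [this, h1]
        abel
      have hRmem : ∀ N, fourierLp p (k : ℤ) - P (A2 N) ∈ R := by
        intro N
        rw [hformula N]
        apply R.sub_mem (hA1R N)
        apply Submodule.sum_mem
        intro j hj
        apply Submodule.smul_mem
        rw [Finset.mem_erase, Finset.mem_Icc] at hj
        obtain ⟨i, rfl⟩ := Int.eq_ofNat_of_zero_le hj.2.1
        apply ih i
        have := hj.1
        have := hj.2.2
        omega
      have hlim : Tendsto (fun N => fourierLp p (k : ℤ) - P (A2 N)) atTop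
          (𝓝 (fourierLp p (k : ℤ))) := by
        have h1 : Tendsto A2 atTop (𝓝 0) := by
          apply squeeze_zero_norm (a := fun N => Real.exp (-κ) ^ N * ‖fourierLp (T := (1 : ℝ)) p k‖)
          · intro N
            exact norm_mulOp_le _ _ _ _ _
          · have := (tendsto_pow_atTop_nhds_zero_of_lt_one (Real.exp_nonneg (-κ))
              (Real.exp_lt_one_iff.2 (by linarith))).mul_const ‖fourierLp (T := (1 : ℝ)) p k‖
            rwa [zero_mul] at this
        have h2 := (P.continuous.tendsto 0).comp h1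
        rw [map_zero] at h2
        have h3 := (tendsto_const_nhds (x := fourierLp (T := (1 : ℝ)) p (k : ℤ))).sub h2
        rw [sub_zero] at h3
        exact h3
      exact hRc.mem_of_tendsto hlim (Eventually.of_forall hRmem)
  have htop : R.comap P.toLinearMap = ⊤ := by
    apply closed_eq_top hpt
    · exact hRc.preimage P.continuous
    · intro n
      rw [Submodule.mem_comap]
      show P (fourierLp p n) ∈ R
      rcases le_or_gt 0 n with hn | hn
      · obtain ⟨k, rfl⟩ := Int.eq_ofNat_of_zero_le hn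
        rw [hP.fourier_nat hp hn]
        exact hmem k
      · rw [hP.fourier_neg hp hn]
        exact R.zero_mem
  have hzR : z ∈ R := by
    have : z ∈ R.comap P.toLinearMap := by rw [htop]; trivial
    rw [Submodule.mem_comap] at this
    rw [← hz]
    exact this
  rw [hR, ← SetLike.mem_coe, Submodule.topologicalClosure_coe, Metric.mem_closure_iff] at hzR
  obtain ⟨y, ⟨h, hh, rfl⟩, hd⟩ := hzR δ hδ
  refine ⟨h, hh, ?_⟩
  rw [dist_comm, dist_eq_norm] at hd
  exact hd.le

section inst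

variable {w : Circ → ℝ} {F : Circ → ℂ}

/-- multiplication by `conj gⁿ` -/
noncomputable def opA (p : ℝ≥0∞) [Fact (1 ≤ p)] (hs : IsSym w F) {C : ℝ} (hC : ∀ t, w t ≤ C)
    (n : ℕ) : Lp ℂ p mu →L[ℂ] Lp ℂ p mu :=
  mulOp p (fun t => conj (Ex w F (n : ℝ) t)) (aesm_conj (aesm_Ex hs.meas_w hs.meas_F _))
    (Real.exp (n * C)) (norm_conj_le (norm_Ex_le hC (Nat.cast_nonneg n)))

/-- multiplication by `conj g⁻ⁿ` -/
noncomputable def opB (p : ℝ≥0∞) [Fact (1 ≤ p)] (hs : IsSym w F) (hw0 : ∀ t, 0 ≤ w t)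
    (n : ℕ) : Lp ℂ p mu →L[ℂ] Lp ℂ p mu :=
  mulOp p (fun t => conj (Ex w F (-(n : ℝ)) t)) (aesm_conj (aesm_Ex hs.meas_w hs.meas_F _))
    1 (norm_conj_le (norm_Ex_neg_le hw0 n))

lemma conj_Ex_of_zero {t : Circ} (ht : w t = 0) (s : ℝ) :
    conj (Ex w F s t) = Ex w F (-s) t := by
  unfold Ex
  rw [← Complex.exp_conj]
  congr 1
  rw [ht]
  simp

theorem mkSys {P : Lp ℂ p mu →L[ℂ] Lp ℂ p mu} (hP : IsRiesz P) (hp : 2 ≤ p)
    (hpt : p ≠ ∞) {P2 : Lp ℂ 2 mu →L[ℂ] Lp ℂ 2 mu} (hP2 : IsRiesz P2)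
    (hs : IsSym w F) {C : ℝ} (hw0 : ∀ t, 0 ≤ w t) (hC : ∀ t, w t ≤ C)
    (hpos : 0 < ∫ t, w t ∂mu) {E : Set Circ} (hE : MeasurableSet E) (hE0 : mu E ≠ 0)
    (hwE : ∀ t ∈ E, w t = 0) {c : ℝ} (hc : 0 ≤ c)
    (hb : ∀ G ∈ offSub p E, ∀ h ∈ offSub p E, ∀ ε > 0, ∀ᶠ n in atTop,
      ‖G + opB p hs hw0 n h‖ ^ 2 ≤ ‖G‖ ^ 2 + c * ‖h‖ ^ 2 + ε)
    (hb' : ∀ S ∈ offSub p E, ∀ G ∈ offSub p E, ∀ ε > 0, ∀ᶠ n in atTop,
      ‖S + opA p hs hC n G‖ ^ 2 ≤ ‖S‖ ^ 2 + c * ‖G‖ ^ 2 + ε) :
    Sys (offSub p E) (opA p hs hC) (opB p hs hw0) P c where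
  c_nonneg := hc
  AY := fun n f hf => mulOp_off _ _ _ _ hf
  BY := fun n f hf => mulOp_off _ _ _ _ hf
  AB := by
    intro n f _
    apply Lp.ext
    filter_upwards [coeFn_mulOp (p := p) (fun t => conj (Ex w F (n : ℝ) t))
      (aesm_conj (aesm_Ex hs.meas_w hs.meas_F _)) (Real.exp (n * C))
      (norm_conj_le (norm_Ex_le hC (Nat.cast_nonneg n))) (opB p hs hw0 n f),
      coeFn_mulOp (p := p) (fun t => conj (Ex w F (-(n : ℝ)) t))
      (aesm_conj (aesm_Ex hs.meas_w hs.meas_F _)) 1 (norm_conj_le (norm_Ex_neg_le hw0 n)) f]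
      with t h1 h2
    have h3 : (opA p hs hC n (opB p hs hw0 n f)) t =
      conj (Ex w F (n : ℝ) t) * (opB p hs hw0 n f) t := h1
    have h4 : (opB p hs hw0 n f) t = conj (Ex w F (-(n : ℝ)) t) * f t := h2
    rw [h3, h4, ← mul_assoc, ← map_mul, Ex_mul, add_neg_cancel]
    simp [Ex]
  An := by
    intro n f hf
    apply Lp.norm_le_norm_of_ae_le
    have hf' : ∀ᵐ t ∂mu, t ∉ E → f t = 0 := hf
    filter_upwards [coeFn_mulOp (p := p) (fun t => conj (Ex w F (n : ℝ) t))
      (aesm_conj (aesm_Ex hs.meas_w hs.meas_F _)) (Real.exp (n * C))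
      (norm_conj_le (norm_Ex_le hC (Nat.cast_nonneg n))) f, hf'] with t h1 h2
    have h3 : (opA p hs hC n f) t = conj (Ex w F (n : ℝ) t) * f t := h1
    rw [h3, norm_mul, RCLike.norm_conj, norm_Ex]
    by_cases ht : t ∈ E
    · rw [hwE t ht, mul_zero, Real.exp_zero, one_mul]
    · rw [h2 ht, norm_zero, mul_zero]
  PA := fun n f => riesz_mul_riesz hP hp hpt _ _ _ _ (fun m hm => hs.coeff _ m hm) f
  a := fun f _ => riesz_tendsto hP hp hpt hs hw0 hC hpos f
  b := hb
  b' := hb'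
  d := fun z hz δ hδ => dense_range hP hp hpt hP2 hE hE0 hz hδ

end inst

end Pool.Agent.R949.WH
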