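import Pool.Agent.R949.WH.Bdry
set_option autoImplicit false

/-! # Coanalytic Toeplitz operators with symbol `Ex w F 1` -/

open MeasureTheory AddCircle Filter Topology Complex
open scoped ComplexConjugate ENNReal InnerProductSpace

namespace Pool.Agent.R949.WH

variable {w : Circ → ℝ} {F : Circ → ℂ} {p : ℝ≥0∞} [Fact (1 ≤ p)]

lemma ev_const {z : ℂ} (hz : ‖z‖ < 1) (c : ℂ) : ev z (fun _ => c) = c := by
  have h1 := ev_fourier hz 0
  have h2 : (fun _ : Circ => c) = fun t : Circ => c * (fourier ((0 : ℕ) : ℤ) t : ℂ) := by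
    funext t; simp
  rw [h2, ev_const_mul, h1, pow_zero, mul_one]

lemma re_H_le (hw : Measurable w) {C : ℝ} (hw0 : ∀ t, 0 ≤ w t) (hC : ∀ t, w t ≤ C) {z : ℂ}
    (hz : ‖z‖ < 1) :
    (2 * ev z (fun t => (w t : ℂ)) - ev 0 (fun t => (w t : ℂ))).re ≤ C := by
  have hwi : Integrable (fun t => (w t : ℂ)) mu :=
    (memLp_real hw (C := C) fun t => by rw [abs_of_nonneg (hw0 t)]; exact hC t).integrable
      (by norm_num)
  have hci : Integrable (fun _ : Circ => (C : ℂ)) mu := integrable_const _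
  have h1 := poisson (w := fun t => C - w t) (measurable_const.sub hw) (C := C)
    (fun t => by have := hC t; linarith) (fun t => by have := hw0 t; linarith) hz
  have h2 : ∀ x : ℂ, ‖x‖ < 1 → ev x (fun t => ((C - w t : ℝ) : ℂ)) =
      (C : ℂ) - ev x (fun t => (w t : ℂ)) := by
    intro x hx
    have h3 : (fun t : Circ => ((C - w t : ℝ) : ℂ)) = fun t => (C : ℂ) + (-1) * (w t : ℂ) := by
      funext t; push_cast; ring
    rw [h3, ev_add hx hci (hwi.const_mul _), ev_const hx, ev_const_mul]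
    ring
  rw [h2 z hz, h2 0 (by simp)] at h1
  have h4 : 0 ≤ (1 - ‖z‖) / (1 + ‖z‖) * ∫ t, (C - w t) ∂mu := by
    apply mul_nonneg
    · have := norm_nonneg z
      apply div_nonneg <;> linarith
    · exact integral_nonneg fun t => by
        have := hC t
        simp only [Pi.zero_apply]; linarith
  have h5 : 2 * ((C : ℂ) - ev z (fun t => (w t : ℂ))) - ((C : ℂ) - ev 0 (fun t => (w t : ℂ))) =
      (C : ℂ) - (2 * ev z (fun t => (w t : ℂ)) - ev 0 (fun t => (w t : ℂ))) := by ring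
  rw [h5, Complex.sub_re, Complex.ofReal_re] at h1
  linarith

lemma norm_ev_Ex (hs : IsSym w F) {z : ℂ} (hz : ‖z‖ < 1) :
    ‖ev z (Ex w F 1)‖ =
      Real.exp (2 * ev z (fun t => (w t : ℂ)) - ev 0 (fun t => (w t : ℂ))).re := by
  rw [hs.ev 1 z hz, Complex.norm_exp, Complex.ofReal_one, one_mul]

lemma one_le_norm_ev (hs : IsSym w F) {C : ℝ} (hw0 : ∀ t, 0 ≤ w t) (hC : ∀ t, w t ≤ C) {z : ℂ}
    (hz : ‖z‖ < 1) : 1 ≤ ‖ev z (Ex w F 1)‖ := by
  rw [norm_ev_Ex hs hz]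
  apply Real.one_le_exp
  refine le_trans ?_ (poisson hs.meas_w hw0 hC hz)
  apply mul_nonneg
  · have := norm_nonneg z
    apply div_nonneg <;> linarith
  · exact integral_nonneg hw0

lemma isHInf_Ex (hs : IsSym w F) {C : ℝ} (hw0 : ∀ t, 0 ≤ w t) (hC : ∀ t, w t ≤ C) :
    IsHInf (fun z => ev z (Ex w F 1)) (Ex w F 1) := by
  apply isHInf_of (aesm_Ex hs.meas_w hs.meas_F 1) (norm_Ex_le hC zero_le_one)
    (fun n hn => hs.coeff 1 n hn) (M := Real.exp C)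
  intro z hz
  rw [mem_ball_zero_iff] at hz
  rw [norm_ev_Ex hs hz]
  exact Real.exp_le_exp.2 (re_H_le hs.meas_w hw0 hC hz)

/-- multiplication by `conj g` -/
noncomputable def op1 (p : ℝ≥0∞) [Fact (1 ≤ p)] (hs : IsSym w F) {C : ℝ} (hC : ∀ t, w t ≤ C) :
    Lp ℂ p mu →L[ℂ] Lp ℂ p mu :=
  mulOp p (fun t => conj (Ex w F 1 t)) (aesm_conj (aesm_Ex hs.meas_w hs.meas_F _))
    (Real.exp (1 * C)) (norm_conj_le (norm_Ex_le hC zero_le_one))

lemma coeFn_op1 (hs : IsSym w F) {C : ℝ} (hC : ∀ t, w t ≤ C) (f : Lp ℂ p mu) :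
    op1 p hs hC f =ᵐ[mu] fun t => conj (Ex w F 1 t) * f t :=
  coeFn_mulOp (p := p) (fun t => conj (Ex w F 1 t)) (aesm_conj (aesm_Ex hs.meas_w hs.meas_F _))
    (Real.exp (1 * C)) (norm_conj_le (norm_Ex_le hC zero_le_one)) f

lemma op1_opA (hs : IsSym w F) {C : ℝ} (hC : ∀ t, w t ≤ C) (n : ℕ) (f : Lp ℂ p mu) :
    op1 p hs hC (opA p hs hC n f) = opA p hs hC (n + 1) f := by
  apply Lp.ext
  filter_upwards [coeFn_op1 hs hC (opA p hs hC n f), coeFn_opA hs hC n f,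
    coeFn_opA hs hC (n + 1) f] with t h1 h2 h3
  rw [h1, h2, h3, ← mul_assoc, ← map_mul, Ex_mul]
  congr 3
  push_cast
  ring

lemma opA_zero (hs : IsSym w F) {C : ℝ} (hC : ∀ t, w t ≤ C) (f : Lp ℂ p mu) :
    opA p hs hC 0 f = f := by
  apply Lp.ext
  filter_upwards [coeFn_opA hs hC 0 f] with t h2
  rw [h2]
  simp [Ex]

/-- the coanalytic Toeplitz operator -/
noncomputable def toep {P : Lp ℂ p mu →L[ℂ] Lp ℂ p mu} (hP : IsRiesz P) (hs : IsSym w F) {C : ℝ}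
    (hC : ∀ t, w t ≤ C) : hardy p →L[ℂ] hardy p :=
  (PH hP).comp ((op1 p hs hC).comp (hardy p).subtypeL)

lemma toep_apply {P : Lp ℂ p mu →L[ℂ] Lp ℂ p mu} (hP : IsRiesz P) (hs : IsSym w F) {C : ℝ}
    (hC : ∀ t, w t ≤ C) (x : hardy p) : toep hP hs hC x = PH hP (op1 p hs hC x) := rfl

lemma toep_pow {P : Lp ℂ p mu →L[ℂ] Lp ℂ p mu} (hP : IsRiesz P) (hp : 2 ≤ p) (hpt : p ≠ ∞)
    (hs : IsSym w F) {C : ℝ} (hC : ∀ t, w t ≤ C) (n : ℕ) (x : hardy p) :
    ((toep hP hs hC) ^ n) x = PH hP (opA p hs hC n x) := by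
  induction n with
  | zero => rw [pow_zero, opA_zero, PH_hardy hP hp]; rfl
  | succ n ih =>
    rw [pow_succ', mul_apply_eq_comp, ih, toep_apply, ← op1_opA]
    apply Subtype.ext
    rw [coe_PH, coe_PH, coe_PH]
    exact riesz_mul_riesz hP hp hpt _ _ _ _ (fun m hm => hs.coeff _ m hm) _

/-- for a fixed symbol: some orbit is weakly dense -/
theorem fixed_dense {p : ℝ≥0∞} [Fact (1 ≤ p)] (hp : 2 ≤ p) (hpt : p ≠ ∞)
    [TopologicalSpace.SeparableSpace (hardy p)]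
    {P : Lp ℂ p mu →L[ℂ] Lp ℂ p mu} (hP : IsRiesz P)
    {w : Circ → ℝ} {F : Circ → ℂ} (hs : IsSym w F) {C : ℝ} (hw0 : ∀ t, 0 ≤ w t)
    (hC : ∀ t, w t ≤ C)
    {Y : Submodule ℂ (Lp ℂ p mu)} {c : ℝ} (hsys : Sys Y (opA p hs hC) (opB p hs hw0) P c) :
    ∃ x : hardy p, Dense (Set.range fun n : ℕ => toWeakSpace ℂ (hardy p)
      (((toep hP hs hC) ^ n) x)) := by
  have hgen := generic_hits (Λ := hardy p) (H := hardy p)
      (fun n x => PH hP (opA p hs hC n x))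
      (fun n => (PH hP).continuous.comp ((opA p hs hC n).continuous.comp continuous_subtype_val))
      (by
        intro U hU hne z R ε hε
        obtain ⟨x, hx⟩ := hne
        obtain ⟨r, hr, hball⟩ := Metric.isOpen_iff.1 hU x hx
        obtain ⟨x', hx', N, hN⟩ := stage_H hP hp hsys x z R hε hr
        refine ⟨x', hball ?_, N, hN⟩
        rw [Metric.mem_ball, dist_eq_norm]
        exact hx')
  obtain ⟨x, hx⟩ := (dense_of_mem_residual hgen).nonempty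
  refine ⟨x, ?_⟩
  have h1 := Hits.weak_dense hx
  have h2 : (fun n : ℕ => toWeakSpace ℂ (hardy p) (((toep hP hs hC) ^ n) x)) =
      fun n : ℕ => toWeakSpace ℂ (hardy p) (PH hP (opA p hs hC n x)) := by
    funext n
    rw [toep_pow hP hp hpt hs hC n x]
  rw [h2]
  exact h1

/-- `P` is the Riesz projection of `L^p` onto `H^p`: it keeps the Fourier coefficients of
nonnegative index and kills the others. -/
def IsRieszProj (P : Lp ℂ p mu →L[ℂ] hardy p) : Prop :=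
  ∀ (f : Lp ℂ p mu) (n : ℤ),
    fourierCoeff (P f : Lp ℂ p mu) n = if 0 ≤ n then fourierCoeff f n else 0

/-- `T` is the coanalytic Toeplitz operator `f ↦ P (conj G * f)` on `H^p`, where `P` is the Riesz
projection. -/
def IsCoToeplitz (G : Circ → ℂ) (T : hardy p →L[ℂ] hardy p) : Prop :=
  ∃ P : Lp ℂ p mu →L[ℂ] hardy p, IsRieszProj P ∧ ∀ f : hardy p, ∃ u : Lp ℂ p mu,
    (u =ᵐ[mu] fun t => conj (G t) * (f : Lp ℂ p mu) t) ∧ T f = P u

/-- some orbit of `T` is dense for the weak topology -/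
def WeaklyHypercyclic {X : Type*} [NormedAddCommGroup X] [NormedSpace ℂ X] (T : X →L[ℂ] X) :
    Prop :=
  ∃ x : X, Dense (Set.range fun n : ℕ => toWeakSpace ℂ X ((T ^ n) x))

lemma toep_isCo {P : Lp ℂ p mu →L[ℂ] Lp ℂ p mu} (hP : IsRiesz P) (hs : IsSym w F) {C : ℝ}
    (hC : ∀ t, w t ≤ C) : IsCoToeplitz (Ex w F 1) (toep hP hs hC) := by
  refine ⟨PH hP, fun f n => hP f n, fun f => ?_⟩
  have h1 := coeFn_op1 hs hC (f : Lp ℂ p mu)
  have h2 := toep_apply hP hs hC f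
  exact ⟨op1 p hs hC (f : Lp ℂ p mu), h1, h2⟩

/-- for a fixed symbol of modulus `1` on a set of positive measure: all conclusions -/
theorem fixed_main (hp : 2 ≤ p) (hpt : p ≠ ∞)
    [TopologicalSpace.SeparableSpace (hardy p)]
    {P : Lp ℂ p mu →L[ℂ] Lp ℂ p mu} (hP : IsRiesz P)
    (hs : IsSym w F) {C : ℝ} (hw0 : ∀ t, 0 ≤ w t)
    (hC : ∀ t, w t ≤ C)
    {Y : Submodule ℂ (Lp ℂ p mu)} {c : ℝ} (hsys : Sys Y (opA p hs hC) (opB p hs hw0) P c) :
    ∃ (g : ℂ → ℂ) (G : Circ → ℂ), IsHInf g G ∧ (∀ z ∈ Metric.ball (0 : ℂ) 1, 1 ≤ ‖g z‖) ∧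
      ∃ T : hardy p →L[ℂ] hardy p, IsCoToeplitz G T ∧ WeaklyHypercyclic T := by
  refine ⟨fun z => ev z (Ex w F 1), Ex w F 1, isHInf_Ex hs hw0 hC, ?_, toep hP hs hC,
    toep_isCo hP hs hC, fixed_dense hp hpt hP hs hw0 hC hsys⟩
  intro z hz
  rw [mem_ball_zero_iff] at hz
  exact one_le_norm_ev hs hw0 hC hz

end Pool.Agent.R949.WH
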