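import Pool.Agent.R949.WH.SysC
set_option autoImplicit false

/-! # The Hilbert space case -/

open MeasureTheory AddCircle Filter Topology Complex
open scoped ComplexConjugate ENNReal InnerProductSpace

namespace Pool.Agent.R949.WH

lemma conj_pc (a : Polynomial ℂ) (t : Circ) :
    conj (pc a t) = (a.map (starRingEnd ℂ)).eval (fourier (-1) t : ℂ) := by
  rw [pc, fourier_neg, Polynomial.eval_map]
  exact Polynomial.hom_eval₂ a (RingHom.id ℂ) (starRingEnd ℂ) (fourier 1 t)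

lemma int_conj_pc_ncC (a b : Polynomial ℂ) : ∫ t, conj (pc a t) * ncC b t ∂mu = 0 := by
  have h := coeff_ncC (b * a.map (starRingEnd ℂ)) (n := 0) le_rfl
  unfold fourierCoeff at h
  rw [← h]
  refine integral_congr_ae (Eventually.of_forall fun t => ?_)
  simp only [neg_zero, fourier_zero, one_smul]
  rw [conj_pc]
  simp only [ncC, ContinuousMap.coe_mk, Polynomial.eval_mul, Polynomial.eval_X]
  ring

theorem exists_riesz2 : ∃ P : Lp ℂ 2 mu →L[ℂ] Lp ℂ 2 mu, IsRiesz P := by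
  apply exists_riesz (by simp) 1
  intro a b
  rw [map_add, one_mul]
  set x := ContinuousMap.toLp (E := ℂ) 2 mu ℂ (pcC a) with hx
  set y := ContinuousMap.toLp (E := ℂ) 2 mu ℂ (ncC b) with hy
  have h0 : ⟪x, y⟫_ℂ = 0 := by
    rw [L2.inner_def, ← int_conj_pc_ncC a b]
    refine integral_congr_ae ?_
    filter_upwards [ContinuousMap.coeFn_toLp (p := 2) (𝕜 := ℂ) mu (pcC a),
      ContinuousMap.coeFn_toLp (p := 2) (𝕜 := ℂ) mu (ncC b)] with t h1 h2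
    rw [h1, h2, RCLike.inner_apply']
    rfl
  have h1 := norm_add_sq (𝕜 := ℂ) x y
  rw [h0] at h1
  simp only [map_zero, mul_zero, add_zero] at h1
  have h2 : ‖x‖ ^ 2 ≤ ‖x + y‖ ^ 2 := by rw [h1]; nlinarith [sq_nonneg ‖y‖]
  exact le_of_sq_le_sq h2 (norm_nonneg _)

variable {w : Circ → ℝ} {F : Circ → ℂ}

lemma coeFn_opA {p : ℝ≥0∞} [Fact (1 ≤ p)] (hs : IsSym w F) {C : ℝ} (hC : ∀ t, w t ≤ C) (n : ℕ)
    (f : Lp ℂ p mu) : opA p hs hC n f =ᵐ[mu] fun t => conj (Ex w F (n : ℝ) t) * f t :=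
  coeFn_mulOp (p := p) (fun t => conj (Ex w F (n : ℝ) t))
    (aesm_conj (aesm_Ex hs.meas_w hs.meas_F _)) (Real.exp (n * C))
    (norm_conj_le (norm_Ex_le hC (Nat.cast_nonneg n))) f

lemma coeFn_opB {p : ℝ≥0∞} [Fact (1 ≤ p)] (hs : IsSym w F) (hw0 : ∀ t, 0 ≤ w t) (n : ℕ)
    (f : Lp ℂ p mu) : opB p hs hw0 n f =ᵐ[mu] fun t => conj (Ex w F (-(n : ℝ)) t) * f t :=
  coeFn_mulOp (p := p) (fun t => conj (Ex w F (-(n : ℝ)) t))
    (aesm_conj (aesm_Ex hs.meas_w hs.meas_F _)) 1 (norm_conj_le (norm_Ex_neg_le hw0 n)) f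

lemma norm_opB_le {p : ℝ≥0∞} [Fact (1 ≤ p)] (hs : IsSym w F) (hw0 : ∀ t, 0 ≤ w t) (n : ℕ)
    (f : Lp ℂ p mu) : ‖opB p hs hw0 n f‖ ≤ ‖f‖ := by
  have := norm_mulOp_le (p := p) (fun t => conj (Ex w F (-(n : ℝ)) t))
    (aesm_conj (aesm_Ex hs.meas_w hs.meas_F _)) 1 (norm_conj_le (norm_Ex_neg_le hw0 n)) f
  rw [one_mul] at this
  exact this

lemma norm_opA_le_off {p : ℝ≥0∞} [Fact (1 ≤ p)] (hs : IsSym w F) {C : ℝ} (hC : ∀ t, w t ≤ C)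
    {E : Set Circ} (hwE : ∀ t ∈ E, w t = 0) (n : ℕ) {f : Lp ℂ p mu} (hf : f ∈ offSub p E) :
    ‖opA p hs hC n f‖ ≤ ‖f‖ := by
  apply Lp.norm_le_norm_of_ae_le
  have hf' : ∀ᵐ t ∂mu, t ∉ E → f t = 0 := hf
  filter_upwards [coeFn_opA hs hC n f, hf'] with t h1 h2
  rw [h1, norm_mul, RCLike.norm_conj, norm_Ex]
  by_cases ht : t ∈ E
  · rw [hwE t ht, mul_zero, Real.exp_zero, one_mul]
  · rw [h2 ht, norm_zero, mul_zero]

theorem b_two (hs : IsSym w F) {C : ℝ} (hw0 : ∀ t, 0 ≤ w t) (hC : ∀ t, w t ≤ C)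
    (hpos : 0 < ∫ t, w t ∂mu) (G h : Lp ℂ 2 mu) {ε : ℝ} (hε : 0 < ε) :
    ∀ᶠ n in atTop, ‖G + opB 2 hs hw0 n h‖ ^ 2 ≤ ‖G‖ ^ 2 + 1 * ‖h‖ ^ 2 + ε := by
  have hint := L2.integrable_inner (𝕜 := ℂ) G h
  have h1 := RL_conj hs hw0 hC hpos hint
  have h2 : Tendsto (fun n => ⟪G, opB 2 hs hw0 n h⟫_ℂ) atTop (𝓝 0) := by
    refine h1.congr fun n => ?_
    rw [L2.inner_def]
    refine integral_congr_ae ?_
    filter_upwards [coeFn_opB hs hw0 n h] with t ht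
    rw [ht, RCLike.inner_apply', RCLike.inner_apply']
    ring
  have h3 := (Complex.continuous_re.tendsto (0 : ℂ)).comp h2
  rw [Complex.zero_re] at h3
  filter_upwards [h3.eventually_lt_const (show (0 : ℝ) < ε / 2 by positivity)] with n hn
  have h4 := norm_add_sq (𝕜 := ℂ) G (opB 2 hs hw0 n h)
  have h5 : ‖opB 2 hs hw0 n h‖ ^ 2 ≤ ‖h‖ ^ 2 :=
    pow_le_pow_left₀ (norm_nonneg _) (norm_opB_le hs hw0 n h) 2
  have h6 : (RCLike.re ⟪G, opB 2 hs hw0 n h⟫_ℂ : ℝ) < ε / 2 := hn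
  rw [h4]
  linarith

theorem b'_two (hs : IsSym w F) {C : ℝ} (hw0 : ∀ t, 0 ≤ w t) (hC : ∀ t, w t ≤ C)
    (hpos : 0 < ∫ t, w t ∂mu) {E : Set Circ} (hwE : ∀ t ∈ E, w t = 0) (S : Lp ℂ 2 mu)
    {G : Lp ℂ 2 mu} (hG : G ∈ offSub 2 E) {ε : ℝ} (hε : 0 < ε) :
    ∀ᶠ n in atTop, ‖S + opA 2 hs hC n G‖ ^ 2 ≤ ‖S‖ ^ 2 + 1 * ‖G‖ ^ 2 + ε := by
  have hint := L2.integrable_inner (𝕜 := ℂ) S G
  have h1 := RL hs hw0 hC hpos hint
  have hG' : ∀ᵐ t ∂mu, t ∉ E → G t = 0 := hG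
  have h2 : Tendsto (fun n => ⟪S, opA 2 hs hC n G⟫_ℂ) atTop (𝓝 0) := by
    refine h1.congr fun n => ?_
    rw [L2.inner_def]
    refine integral_congr_ae ?_
    filter_upwards [coeFn_opA hs hC n G, hG'] with t ht hgt
    rw [ht, RCLike.inner_apply', RCLike.inner_apply']
    by_cases hE : t ∈ E
    · rw [conj_Ex_of_zero (hwE t hE)]
      ring
    · rw [hgt hE]; ring
  have h3 := (Complex.continuous_re.tendsto (0 : ℂ)).comp h2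
  rw [Complex.zero_re] at h3
  filter_upwards [h3.eventually_lt_const (show (0 : ℝ) < ε / 2 by positivity)] with n hn
  have h4 := norm_add_sq (𝕜 := ℂ) S (opA 2 hs hC n G)
  have h5 : ‖opA 2 hs hC n G‖ ^ 2 ≤ ‖G‖ ^ 2 :=
    pow_le_pow_left₀ (norm_nonneg _) (norm_opA_le_off hs hC hwE n hG) 2
  have h6 : (RCLike.re ⟪S, opA 2 hs hC n G⟫_ℂ : ℝ) < ε / 2 := hn
  rw [h4]
  linarith

/-- the abstract situation for `p = 2` -/
theorem sys_two {P : Lp ℂ 2 mu →L[ℂ] Lp ℂ 2 mu} (hP : IsRiesz P)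
    (hs : IsSym w F) {C : ℝ} (hw0 : ∀ t, 0 ≤ w t) (hC : ∀ t, w t ≤ C)
    (hpos : 0 < ∫ t, w t ∂mu) {E : Set Circ} (hE : MeasurableSet E) (hE0 : mu E ≠ 0)
    (hwE : ∀ t ∈ E, w t = 0) :
    Sys (offSub 2 E) (opA 2 hs hC) (opB 2 hs hw0) P 1 :=
  mkSys hP le_rfl (by simp) hP hs hw0 hC hpos hE hE0 hwE zero_le_one
    (fun G _ h _ ε hε => b_two hs hw0 hC hpos G h hε)
    (fun S _ G hG ε hε => b'_two hs hw0 hC hpos hwE S hG hε)

end Pool.Agent.R949.WH
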